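import Mathlib

/-! # Weighted counting functions: from counting functions to weighted sums -/

set_option autoImplicit false

open Filter Topology Finset

namespace Q265.EQ

/-- the growth function -/
noncomputable def X (k : ℕ) (B : ℝ) : ℝ := B * Real.log B ^ k

lemma X_pos (k : ℕ) : ∀ᶠ B in atTop, 0 < X k B := by
  filter_upwards [eventually_gt_atTop 1] with B hB
  have := Real.log_pos hB
  unfold X
  positivity

lemma X_mul (k : ℕ) {c : ℝ} (hc : 0 < c) :
    Tendsto (fun B => X k (c * B) / X k B) atTop (𝓝 c) := by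
  have h1 : Tendsto (fun B : ℝ => c * (Real.log c / Real.log B + 1) ^ k) atTop
      (𝓝 (c * (0 + 1) ^ k)) := by
    refine Tendsto.const_mul c (Tendsto.pow (Tendsto.add_const 1 ?_) k)
    exact Tendsto.div_atTop tendsto_const_nhds Real.tendsto_log_atTop
  rw [zero_add, one_pow, mul_one] at h1
  refine h1.congr' ?_
  filter_upwards [eventually_gt_atTop 1] with B hB
  have hl := Real.log_pos hB
  unfold X
  rw [Real.log_mul hc.ne' (by linarith)]
  have h2 : Real.log c / Real.log B + 1 = (Real.log c + Real.log B) / Real.log B := by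
    field_simp
  rw [h2, div_pow]
  field_simp

lemma X_tendsto (k : ℕ) : Tendsto (X k) atTop atTop := by
  refine tendsto_atTop_mono' _ ?_ tendsto_id
  filter_upwards [eventually_ge_atTop (Real.exp 1)] with B hB
  have h0 : 0 < B := (Real.exp_pos 1).trans_le hB
  have h1 : 1 ≤ Real.log B := by rwa [Real.le_log_iff_exp_le h0]
  unfold X
  have := one_le_pow₀ h1 (n := k)
  simp only [id]
  nlinarith

lemma exists_lim {u : ℝ → ℝ} (h : ∀ ε : ℝ, 0 < ε → ∃ g : ℝ, ∀ᶠ B in atTop, |u B - g| ≤ ε) :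
    ∃ c, Tendsto u atTop (𝓝 c) := by
  have hc : Cauchy (map u atTop) := by
    rw [Metric.cauchy_iff]
    refine ⟨inferInstance, fun ε hε => ?_⟩
    obtain ⟨g, hg⟩ := h (ε / 3) (by linarith)
    refine ⟨u '' {B | |u B - g| ≤ ε / 3}, ?_, ?_⟩
    · exact image_mem_map hg
    · rintro x ⟨a, ha, rfl⟩ y ⟨b, hb, rfl⟩
      have ha' : |u a - g| ≤ ε / 3 := ha
      have hb' : |u b - g| ≤ ε / 3 := hb
      rw [Real.dist_eq]
      have : |u a - u b| ≤ |u a - g| + |u b - g| := by
        have h1 := abs_sub_le (u a) g (u b)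
        rwa [abs_sub_comm g (u b)] at h1
      linarith
  exact cauchy_map_iff_exists_tendsto.1 hc

lemma contract {a ρ : ℝ → ℝ} {d : ℝ} (hρ : Tendsto ρ atTop (𝓝 2))
    (he : Tendsto (fun B => ρ B * a (2 * B) - a B) atTop (𝓝 d))
    (hb : ∃ C, ∀ᶠ B in atTop, |a B| ≤ C) : Tendsto a atTop (𝓝 d) := by
  obtain ⟨C, hC⟩ := hb
  rw [Metric.tendsto_atTop]
  intro ε hε
  have h1 : Tendsto (fun B => |ρ B - 2| * |d| + |ρ B * a (2 * B) - a B - d|) atTop
      (𝓝 (|(2 : ℝ) - 2| * |d| + |d - d|)) :=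
    ((hρ.sub_const 2).abs.mul_const _).add (he.sub_const d).abs
  rw [sub_self, sub_self, abs_zero, zero_mul, add_zero] at h1
  have h2 : ∀ᶠ B in atTop, |ρ B - 2| * |d| + |ρ B * a (2 * B) - a B - d| < ε / 8 :=
    h1.eventually_lt_const (by linarith)
  have h3 : ∀ᶠ B in atTop, 3 / 2 < ρ B := hρ.eventually_const_lt (by norm_num)
  obtain ⟨B0, hB0⟩ := eventually_atTop.1 (h2.and (h3.and hC))
  set B1 := max B0 1
  have hstep : ∀ B, B1 ≤ B → |a (2 * B) - d| ≤ 2 / 3 * (|a B - d| + ε / 8) := by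
    intro B hB
    obtain ⟨g1, g2, g3⟩ := hB0 B ((le_max_left _ _).trans hB)
    have e : ρ B * (a (2 * B) - d) = (a B - d) - (ρ B - 2) * d + (ρ B * a (2 * B) - a B - d) := by
      ring
    have e2 : ρ B * |a (2 * B) - d| ≤ |a B - d| + ε / 8 := by
      have h4 : |ρ B * (a (2 * B) - d)| ≤ |a B - d| + |(ρ B - 2) * d| +
          |ρ B * a (2 * B) - a B - d| := by
        rw [e]
        refine (abs_add_le _ _).trans ?_
        gcongr
        exact abs_sub _ _
      rw [abs_mul, abs_of_pos (by linarith), abs_mul] at h4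
      linarith
    have h5 := abs_nonneg (a (2 * B) - d)
    nlinarith
  have hind : ∀ j : ℕ, ∀ B, B1 ≤ B → |a (2 ^ j * B) - d| ≤ (2 / 3) ^ j * (C + |d|) + ε / 4 := by
    intro j
    induction j with
    | zero =>
      intro B hB
      obtain ⟨-, -, g3⟩ := hB0 B ((le_max_left _ _).trans hB)
      rw [pow_zero, pow_zero, one_mul, one_mul]
      have := abs_sub (a B) d
      linarith
    | succ j ih =>
      intro B hB
      have hB1 : (1 : ℝ) ≤ B := (le_max_right _ _).trans hB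
      have h2j : (1 : ℝ) ≤ 2 ^ j := one_le_pow₀ (by norm_num)
      have h6 := hstep (2 ^ j * B) (hB.trans (by nlinarith))
      have h7 := ih B hB
      have e3 : (2 : ℝ) ^ (j + 1) * B = 2 * (2 ^ j * B) := by ring
      rw [e3, pow_succ]
      linarith
  have hlim : Tendsto (fun j : ℕ => (2 / 3 : ℝ) ^ j * (C + |d|)) atTop (𝓝 (0 * (C + |d|))) :=
    (tendsto_pow_atTop_nhds_zero_of_lt_one (by norm_num) (by norm_num)).mul_const _
  rw [zero_mul] at hlim
  obtain ⟨j, hj⟩ := (hlim.eventually_lt_const (show (0 : ℝ) < ε / 4 by linarith)).exists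
  refine ⟨2 ^ j * B1, fun B hB => ?_⟩
  have h2j : (0 : ℝ) < 2 ^ j := by positivity
  have h8 := hind j (B / 2 ^ j) (by rw [le_div_iff₀ h2j]; linarith)
  rw [mul_div_cancel₀ _ h2j.ne'] at h8
  rw [Real.dist_eq]
  linarith

/-! ## Sums over the points of bounded height -/

variable {T : Type*}

open Classical in
/-- the sum of the weights over the points with `H Φ ≤ B` -/
noncomputable def S (H w Φ : T → ℝ) (B : ℝ) : ℝ := ∑ᶠ t, if H t * Φ t ≤ B then w t else 0

open Classical in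
lemma S_eq {H w Φ : T → ℝ} {B : ℝ} {F : Finset T} (hF : ∀ t, H t * Φ t ≤ B → t ∈ F) :
    S H w Φ B = ∑ t ∈ F, if H t * Φ t ≤ B then w t else 0 := by
  unfold S
  refine finsum_eq_sum_of_support_subset _ fun t ht => ?_
  rw [Function.mem_support] at ht
  have : H t * Φ t ≤ B := by
    by_contra h
    rw [if_neg h] at ht
    exact ht rfl
  exact_mod_cast hF t this

/-- heights -/
structure IsHt (H : T → ℝ) : Prop where
  pos : ∀ t, 0 < H t
  fin : ∀ R : ℝ, {t | H t ≤ R}.Finite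

/-- functions bounded from below -/
def Low (Φ : T → ℝ) : Prop := ∃ m : ℝ, 0 < m ∧ ∀ t, m ≤ Φ t

lemma Low.pos {Φ : T → ℝ} (h : Low Φ) (t : T) : 0 < Φ t := by
  obtain ⟨m, hm, h⟩ := h
  exact hm.trans_le (h t)

lemma IsHt.cover {H : T → ℝ} (hH : IsHt H) {Φ : T → ℝ} (hΦ : Low Φ) (B : ℝ) :
    ∃ F : Finset T, ∀ t, H t * Φ t ≤ B → t ∈ F := by
  obtain ⟨m, hm, h⟩ := hΦ
  refine ⟨(hH.fin (B / m)).toFinset, fun t ht => ?_⟩
  rw [Set.Finite.mem_toFinset]
  show H t ≤ B / m
  rw [le_div_iff₀ hm]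
  exact (mul_le_mul_of_nonneg_left (h t) (hH.pos t).le).trans ht

lemma S_sub {H : T → ℝ} (hH : IsHt H) {w w' Φ : T → ℝ} (hΦ : Low Φ) (B : ℝ) :
    S H (fun t => w t - w' t) Φ B = S H w Φ B - S H w' Φ B := by
  classical
  obtain ⟨F, hF⟩ := hH.cover hΦ B
  rw [S_eq hF, S_eq hF, S_eq hF, ← sum_sub_distrib]
  refine sum_congr rfl fun t _ => ?_
  split_ifs <;> ring

lemma S_add {H : T → ℝ} (hH : IsHt H) {w w' Φ : T → ℝ} (hΦ : Low Φ) (B : ℝ) :
    S H (fun t => w t + w' t) Φ B = S H w Φ B + S H w' Φ B := by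
  classical
  obtain ⟨F, hF⟩ := hH.cover hΦ B
  rw [S_eq hF, S_eq hF, S_eq hF, ← sum_add_distrib]
  refine sum_congr rfl fun t _ => ?_
  split_ifs <;> ring

lemma S_smul {H : T → ℝ} (hH : IsHt H) {w Φ : T → ℝ} (hΦ : Low Φ) (c : ℝ) (B : ℝ) :
    S H (fun t => c * w t) Φ B = c * S H w Φ B := by
  classical
  obtain ⟨F, hF⟩ := hH.cover hΦ B
  rw [S_eq hF, S_eq hF, mul_sum]
  refine sum_congr rfl fun t _ => ?_
  split_ifs <;> ring

lemma S_mono {H : T → ℝ} (hH : IsHt H) {w w' Φ : T → ℝ} (hΦ : Low Φ) (h : ∀ t, w t ≤ w' t)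
    (B : ℝ) : S H w Φ B ≤ S H w' Φ B := by
  classical
  obtain ⟨F, hF⟩ := hH.cover hΦ B
  rw [S_eq hF, S_eq hF]
  refine sum_le_sum fun t _ => ?_
  split_ifs
  · exact h t
  · exact le_rfl

lemma S_nonneg {H : T → ℝ} (hH : IsHt H) {w Φ : T → ℝ} (hΦ : Low Φ) (h : ∀ t, 0 ≤ w t)
    (B : ℝ) : 0 ≤ S H w Φ B := by
  classical
  obtain ⟨F, hF⟩ := hH.cover hΦ B
  rw [S_eq hF]
  refine sum_nonneg fun t _ => ?_
  split_ifs
  · exact h t
  · exact le_rfl

lemma S_abs {H : T → ℝ} (hH : IsHt H) {w w' Φ : T → ℝ} (hΦ : Low Φ) (h : ∀ t, |w t| ≤ w' t)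
    (B : ℝ) : |S H w Φ B| ≤ S H w' Φ B := by
  classical
  obtain ⟨F, hF⟩ := hH.cover hΦ B
  rw [S_eq hF, S_eq hF]
  refine (abs_sum_le_sum_abs _ _).trans (sum_le_sum fun t _ => ?_)
  split_ifs
  · exact h t
  · simp

lemma S_one {H : T → ℝ} (hH : IsHt H) {Φ : T → ℝ} (hΦ : Low Φ) (B : ℝ) :
    S H (fun _ => 1) Φ B = ({t | H t * Φ t ≤ B}.ncard : ℝ) := by
  classical
  obtain ⟨F, hF⟩ := hH.cover hΦ B
  rw [S_eq hF, sum_ite, sum_const_zero, add_zero, sum_const, nsmul_eq_mul, mul_one]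
  congr 1
  rw [← Set.ncard_coe_finset]
  congr 1
  ext t
  rw [mem_coe, mem_filter]
  exact ⟨fun h => h.2, fun h => ⟨hF t h, h⟩⟩

/-! ## The main step -/

/-- the cut-off functions -/
def chi (n i : ℕ) (x : ℝ) : ℝ := 1 + max 0 (min 1 (n * x - i))

lemma chi_bd (n i : ℕ) (x : ℝ) : 1 ≤ chi n i x ∧ chi n i x ≤ 2 := by
  unfold chi
  have h1 : (0 : ℝ) ≤ max 0 (min 1 (n * x - i)) := le_max_left _ _
  have h2 : max (0 : ℝ) (min 1 (n * x - i)) ≤ 1 := max_le zero_le_one (min_le_left _ _)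
  constructor <;> linarith

lemma chi_cont (n i : ℕ) : Continuous (chi n i) := by
  unfold chi
  fun_prop

lemma chi_count {n : ℕ} {x y B : ℝ} (hB : 0 < B) (hx0 : 0 ≤ x) (hx1 : x ≤ 1) (h1 : B < y)
    (h2 : y ≤ 2 * B) :
    |(n : ℝ) * x - (((range n).filter fun i => y ≤ B * chi n i x).card : ℝ)| ≤ 1 := by
  have hz0 : 0 ≤ (n : ℝ) * x := by positivity
  have hzn : (n : ℝ) * x ≤ n := by
    have : (0 : ℝ) ≤ n := Nat.cast_nonneg n
    nlinarith
  have hup : ((range n).filter fun i => y ≤ B * chi n i x) ⊆ range ⌈(n : ℝ) * x⌉₊ := by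
    intro i hi
    rw [mem_filter] at hi
    rw [mem_range, Nat.lt_ceil]
    by_contra hcon
    push Not at hcon
    have : chi n i x = 1 := by
      unfold chi
      rw [max_eq_left]
      · ring
      · exact (min_le_right _ _).trans (by linarith)
    rw [this] at hi
    linarith [hi.2]
  have hlo : range ⌊(n : ℝ) * x⌋₊ ⊆ ((range n).filter fun i => y ≤ B * chi n i x) := by
    intro i hi
    rw [mem_range] at hi
    have h3 : ((i + 1 : ℕ) : ℝ) ≤ n * x :=
      (Nat.cast_le.2 hi).trans (Nat.floor_le hz0)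
    rw [mem_filter, mem_range]
    have h4 : ((i + 1 : ℕ) : ℝ) ≤ n := h3.trans hzn
    refine ⟨by exact_mod_cast h4, ?_⟩
    have : chi n i x = 2 := by
      unfold chi
      push_cast at h3
      rw [min_eq_left (by linarith), max_eq_right zero_le_one]
      norm_num
    rw [this]
    linarith
  have c1 := card_le_card hup
  have c2 := card_le_card hlo
  rw [card_range] at c1 c2
  have c1' : (((range n).filter fun i => y ≤ B * chi n i x).card : ℝ) ≤ ⌈(n : ℝ) * x⌉₊ := by
    exact_mod_cast c1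
  have c2' : (⌊(n : ℝ) * x⌋₊ : ℝ) ≤ ((range n).filter fun i => y ≤ B * chi n i x).card := by
    exact_mod_cast c2
  have d1 := Nat.ceil_lt_add_one hz0
  have d2 := Nat.lt_floor_add_one ((n : ℝ) * x)
  rw [abs_le]
  constructor <;> linarith

lemma div_le_iff_chi {h Φ B c : ℝ} (hc : 0 < c) : h * (Φ / c) ≤ B ↔ h * Φ ≤ B * c := by
  rw [← mul_div_assoc, div_le_iff₀ hc]

/-- the comparison of the sums -/
lemma sandwich {H : T → ℝ} (hH : IsHt H) {w f Φ : T → ℝ} (hw : ∀ t, 0 ≤ w t)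
    (hf0 : ∀ t, 0 ≤ f t) (hf1 : ∀ t, f t ≤ 1) (hΦ : Low Φ) {n : ℕ} (hn : 0 < n) {B : ℝ}
    (hB : 0 < B) :
    |S H (fun t => w t * f t) Φ (2 * B) - S H (fun t => w t * f t) Φ B -
      1 / n * ∑ i ∈ range n, (S H w (fun t => Φ t / chi n i (f t)) B - S H w Φ B)| ≤
      1 / n * (S H w Φ (2 * B) - S H w Φ B) := by
  classical
  obtain ⟨F, hF⟩ := hH.cover hΦ (2 * B)
  have hF1 : ∀ t, H t * Φ t ≤ B → t ∈ F := fun t ht => hF t (by linarith)
  have hF2 : ∀ i t, H t * (Φ t / chi n i (f t)) ≤ B → t ∈ F := fun i t ht => by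
    have h1 := chi_bd n i (f t)
    rw [div_le_iff_chi (by linarith)] at ht
    exact hF t (ht.trans (by nlinarith [h1.2]))
  have hn' : (0 : ℝ) < n := by exact_mod_cast hn
  simp_rw [S_eq hF, S_eq hF1, S_eq (hF2 _)]
  rw [← sum_sub_distrib, ← sum_sub_distrib]
  simp_rw [← sum_sub_distrib]
  rw [sum_comm, mul_sum, mul_sum, ← sum_sub_distrib]
  refine (abs_sum_le_sum_abs _ _).trans (sum_le_sum fun t _ => ?_)
  have hh : 0 < H t * Φ t := mul_pos (hH.pos t) (hΦ.pos t)
  by_cases h1 : H t * Φ t ≤ B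
  · have h2 : H t * Φ t ≤ 2 * B := by linarith
    have h3 : ∀ i, H t * (Φ t / chi n i (f t)) ≤ B := fun i => by
      have hb := chi_bd n i (f t)
      rw [div_le_iff_chi (by linarith)]
      nlinarith [hb.1]
    simp only [if_pos h1, if_pos h2, if_pos (h3 _), sub_self, sum_const_zero, mul_zero, abs_zero,
      le_refl]
  · by_cases h2 : H t * Φ t ≤ 2 * B
    · simp only [if_neg h1, if_pos h2, sub_zero]
      push Not at h1
      have hc := chi_count (n := n) hB (hf0 t) (hf1 t) h1 h2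
      have e1 : ∑ i ∈ range n, (if H t * (Φ t / chi n i (f t)) ≤ B then w t else 0) =
          ((range n).filter fun i => H t * Φ t ≤ B * chi n i (f t)).card * w t := by
        rw [sum_ite, sum_const_zero, add_zero, sum_const, nsmul_eq_mul]
        congr 3
        ext i
        have hb := chi_bd n i (f t)
        rw [mem_filter, mem_filter, div_le_iff_chi (by linarith)]
      rw [e1]
      have e2 : w t * f t - 1 / n * (((range n).filter fun i =>
          H t * Φ t ≤ B * chi n i (f t)).card * w t) = 1 / n * w t * (n * f t -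
          ((range n).filter fun i => H t * Φ t ≤ B * chi n i (f t)).card) := by
        field_simp
      rw [e2, abs_mul, abs_of_nonneg (mul_nonneg (by positivity) (hw t))]
      have : 0 ≤ 1 / (n : ℝ) * w t := mul_nonneg (by positivity) (hw t)
      nlinarith
    · have h3 : ∀ i, ¬ H t * (Φ t / chi n i (f t)) ≤ B := fun i hcon => by
        have hb := chi_bd n i (f t)
        rw [div_le_iff_chi (by linarith)] at hcon
        apply h2
        nlinarith [hb.2]
      simp only [if_neg h1, if_neg h2, if_neg (h3 _), sub_self, sum_const_zero, mul_zero, abs_zero,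
        le_refl]

/-- **The main step.** -/
theorem step {H : T → ℝ} (hH : IsHt H) {k : ℕ} {w f Φ : T → ℝ} (hw : ∀ t, 0 ≤ w t)
    (hf0 : ∀ t, 0 ≤ f t) (hf1 : ∀ t, f t ≤ 1) (hΦ : Low Φ)
    (h0 : ∃ c, Tendsto (fun B => S H w Φ B / X k B) atTop (𝓝 c))
    (h : ∀ n i : ℕ, ∃ c, Tendsto (fun B => S H w (fun t => Φ t / chi n i (f t)) B / X k B) atTop
      (𝓝 c)) : ∃ c, Tendsto (fun B => S H (fun t => w t * f t) Φ B / X k B) atTop (𝓝 c) := by
  obtain ⟨c, hc⟩ := h0
  choose d hd using h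
  have hcn : 0 ≤ c := by
    refine ge_of_tendsto hc ?_
    filter_upwards [X_pos k] with B hB
    exact div_nonneg (S_nonneg hH hΦ hw B) hB.le
  have h2B : Tendsto (fun B : ℝ => 2 * B) atTop atTop :=
    tendsto_id.const_mul_atTop (by norm_num)
  have hW : Tendsto (fun B => (S H w Φ (2 * B) - S H w Φ B) / X k B) atTop (𝓝 (c * 2 - c)) := by
    have h1 : Tendsto (fun B => S H w Φ (2 * B) / X k (2 * B) * (X k (2 * B) / X k B) -
        S H w Φ B / X k B) atTop (𝓝 (c * 2 - c)) :=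
      ((hc.comp h2B).mul (X_mul k (by norm_num))).sub hc
    refine h1.congr' ?_
    filter_upwards [X_pos k, h2B.eventually (X_pos k)] with B hB hB2
    field_simp
  -- the difference
  obtain ⟨δ, hδ⟩ : ∃ δ, Tendsto (fun B => (S H (fun t => w t * f t) Φ (2 * B) -
      S H (fun t => w t * f t) Φ B) / X k B) atTop (𝓝 δ) := by
    refine exists_lim fun ε hε => ?_
    obtain ⟨n, hn0, hn⟩ : ∃ n : ℕ, 0 < n ∧ 1 / (n : ℝ) * (c + 1) ≤ ε / 2 := by
      obtain ⟨n, hn⟩ := exists_nat_gt ((c + 1) / (ε / 2))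
      have h1 : 0 < (c + 1) / (ε / 2) := by positivity
      have hn' : (0 : ℝ) < n := h1.trans hn
      refine ⟨n, by exact_mod_cast hn', ?_⟩
      rw [div_mul_eq_mul_div, one_mul, div_le_iff₀ hn']
      rw [div_lt_iff₀ (by linarith)] at hn
      linarith
    have h1 : Tendsto (fun B => 1 / (n : ℝ) * ∑ i ∈ range n,
        (S H w (fun t => Φ t / chi n i (f t)) B / X k B - S H w Φ B / X k B)) atTop
        (𝓝 (1 / (n : ℝ) * ∑ i ∈ range n, (d n i - c))) :=
      (tendsto_finsetSum _ fun i _ => (hd n i).sub hc).const_mul _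
    refine ⟨1 / (n : ℝ) * ∑ i ∈ range n, (d n i - c), ?_⟩
    have h2 : ∀ᶠ B in atTop, |1 / (n : ℝ) * ∑ i ∈ range n,
        (S H w (fun t => Φ t / chi n i (f t)) B / X k B - S H w Φ B / X k B) -
        1 / (n : ℝ) * ∑ i ∈ range n, (d n i - c)| < ε / 2 := by
      have h3 := (h1.sub_const (1 / (n : ℝ) * ∑ i ∈ range n, (d n i - c))).abs
      rw [sub_self, abs_zero] at h3
      exact h3.eventually_lt_const (by linarith)
    filter_upwards [h2, X_pos k, eventually_gt_atTop 0,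
      hW.eventually_lt_const (show c * 2 - c < c + 1 by linarith)] with B g1 g2 g3 g4
    have h5 := sandwich hH hw hf0 hf1 hΦ hn0 g3 (H := H) (w := w) (f := f)
    have e1 : 1 / (n : ℝ) * ∑ i ∈ range n,
        (S H w (fun t => Φ t / chi n i (f t)) B / X k B - S H w Φ B / X k B) =
        (1 / (n : ℝ) * ∑ i ∈ range n, (S H w (fun t => Φ t / chi n i (f t)) B - S H w Φ B)) /
          X k B := by
      rw [mul_div_assoc, sum_div]
      congr 1
      refine sum_congr rfl fun i _ => ?_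
      rw [sub_div]
    have h6 : |(S H (fun t => w t * f t) Φ (2 * B) - S H (fun t => w t * f t) Φ B) / X k B -
        1 / (n : ℝ) * ∑ i ∈ range n,
        (S H w (fun t => Φ t / chi n i (f t)) B / X k B - S H w Φ B / X k B)| ≤ ε / 2 := by
      rw [e1, ← sub_div, abs_div, abs_of_pos g2]
      refine (div_le_div_of_nonneg_right h5 g2.le).trans ?_
      rw [mul_div_assoc]
      refine (mul_le_mul_of_nonneg_left g4.le (by positivity)).trans hn
    calc _ ≤ |(S H (fun t => w t * f t) Φ (2 * B) - S H (fun t => w t * f t) Φ B) / X k B -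
        1 / (n : ℝ) * ∑ i ∈ range n,
        (S H w (fun t => Φ t / chi n i (f t)) B / X k B - S H w Φ B / X k B)| +
        |1 / (n : ℝ) * ∑ i ∈ range n,
        (S H w (fun t => Φ t / chi n i (f t)) B / X k B - S H w Φ B / X k B) -
        1 / (n : ℝ) * ∑ i ∈ range n, (d n i - c)| := abs_sub_le _ _ _
      _ ≤ ε := by linarith
  refine ⟨δ, contract (X_mul k (c := 2) (by norm_num)) (hδ.congr' ?_) ⟨c + 1, ?_⟩⟩
  · filter_upwards [X_pos k, h2B.eventually (X_pos k)] with B hB hB2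
    field_simp
  · filter_upwards [X_pos k, hc.eventually_lt_const (show c < c + 1 by linarith)] with B g1 g2
    rw [abs_div, abs_of_pos g1]
    refine le_trans ?_ g2.le
    refine div_le_div_of_nonneg_right ?_ g1.le
    refine S_abs hH hΦ (fun t => ?_) B
    rw [abs_of_nonneg (mul_nonneg (hw t) (hf0 t))]
    nlinarith [hw t, hf1 t]

end Q265.EQ
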