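import Pool.Agent.Q265.EQ.H

/-!
# Equidistribution of the rational points of all forms of `(ℙ¹)ⁿ // SL₂` over `ℚ`, `n ≥ 5` odd

Let `n ≥ 5` be odd, `A = ∏ K_i` an etale algebra of degree `n` over `ℚ`, a product of `r` number
fields, and `V_A` the form of `(ℙ¹)ⁿ // SL₂` for which the `n` points are permuted by the Galois
group like the homomorphisms from `A` to the complex numbers: a smooth Fano variety over `ℚ` of
dimension `n - 3` with Picard number `r`. (For `n = 5`: the quintic del Pezzo surfaces over `ℚ`.)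
The rational points of the open subset given by `n` distinct points of the line are the classes of
the pairs `P` in `A × A` whose `n` conjugates are different points of the line, modulo `A^×` and
`GL₂(ℚ)`. `height` is the anticanonical height given by the sections `∏ [e, π(e)]`.

The theorem: the rational points of bounded height are equidistributed in the adelic space
`V_A(ℝ) × ∏_p V_A(ℚ_p)` with respect to a limit measure `μ`, for each adelic metric. The measure
`μ` charges every neighbourhood of every rational point, and for the metric given by the positive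
continuous function `F` on the adelic space the limit measure is `μ / F` (Peyre).
-/

set_option autoImplicit false

namespace Pool.Agent.Results.MP_1acd66_nt.AdelicEquidistribution

open NumberField FractionalIdeal Module Filter Topology ComplexConjugate
open scoped nonZeroDivisors

section

variable {s : Type} [Fintype s] [DecidableEq s] (K : s → Type) [∀ i, Field (K i)]
  [∀ i, NumberField (K i)]

/-- The etale algebra `A`, the product of the number fields `K i`. -/
abbrev Alg : Type := ∀ i, K i

/-- The homomorphisms from `A` to the complex numbers: the `n` points. -/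
abbrev Emb : Type := Σ i, (K i →+* ℂ)

/-- The degree `n` of `A`. -/
noncomputable def deg : ℕ := ∑ i, finrank ℚ (K i)

/-- A family of vectors indexed by the homomorphisms from `A` to the complex numbers: `n` points of
the line. -/
abbrev Tuple : Type := Emb K → ℂ × ℂ

variable {K}

/-- The bracket of two vectors. -/
def bracket (x y : ℂ × ℂ) : ℂ := x.1 * y.2 - x.2 * y.1

/-- The conjugates of a pair of elements of `A`. -/
def conjugates (P : Alg K × Alg K) : Tuple K := fun e => (e.2 (P.1 e.1), e.2 (P.2 e.1))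

/-- The maximum of the absolute values of the products `∏ [e, π(e)]` for all permutations `π`. -/
noncomputable def size (v : Tuple K) : ℝ :=
  ⨆ π : Equiv.Perm (Emb K), ∏ e : Emb K, ‖bracket (v e) (v (π e))‖

/-- The fractional ideals generated by the two elements, one for each factor `K i`. -/
noncomputable def content (P : Alg K × Alg K) (i : s) : FractionalIdeal (𝓞 (K i))⁰ (K i) :=
  spanSingleton (𝓞 (K i))⁰ (P.1 i) + spanSingleton (𝓞 (K i))⁰ (P.2 i)

/-- The norm of a family of fractional ideals. -/
noncomputable def norm (J : ∀ i, FractionalIdeal (𝓞 (K i))⁰ (K i)) : ℚ := ∏ i, absNorm (J i)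

/-- The action of a rational matrix on pairs. -/
def act (a b c d : ℚ) (P : Alg K × Alg K) : Alg K × Alg K :=
  (a • P.1 + b • P.2, c • P.1 + d • P.2)

/-- The `n` conjugates of the pair are different points of the line. -/
def Distinct (P : Alg K × Alg K) : Prop := ∀ e f : Emb K, e ≠ f →
  bracket (conjugates P e) (conjugates P f) ≠ 0

/-- The pairs give the same point: `P' = x g P` with `x` in `A^×` and `g` in `GL₂(ℚ)`. -/
def Equivalent (P P' : Alg K × Alg K) : Prop := ∃ (x : Alg K) (a b c d : ℚ), (∀ i, x i ≠ 0) ∧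
  a * d - b * c ≠ 0 ∧ P' = (x * (act a b c d P).1, x * (act a b c d P).2)

variable (K) in
/-- The rational points of the open subset of `V_A`: the classes of pairs. -/
abbrev Point : Type := {C : Set (Alg K × Alg K) // ∃ P, Distinct P ∧ C = {P' | Equivalent P P'}}

/-- The anticanonical height of a point: the infimum of `size / norm(content)²` over the pairs
which represent it. -/
noncomputable def height (x : Point K) : ℝ := sInf {r : ℝ | ∃ P ∈ x.1,
  r = size (conjugates P) / ((norm (content P) : ℚ) : ℝ) ^ 2}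

/-- The tuple is real (compatible with complex conjugation) and stable: some product of brackets
is not zero, that is (the number of points being odd), less than half of the points agree. -/
def RealStable (v : Tuple K) : Prop :=
  (∀ (i : s) (σ : K i →+* ℂ),
    v ⟨i, ComplexEmbedding.conjugate σ⟩ = (conj (v ⟨i, σ⟩).1, conj (v ⟨i, σ⟩).2)) ∧ 0 < size v

/-- A continuous function on `V_A(ℝ)`: a bounded continuous function on the real stable tuples
which does not change if the vectors are multiplied by scalars (compatible with complex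
conjugation), or by a matrix in `GL₂(ℝ)`. -/
def RealTest (ψ : Tuple K → ℝ) : Prop :=
  (∃ M : ℝ, ∀ v, RealStable v → |ψ v| ≤ M) ∧
  ContinuousOn ψ {v | RealStable v} ∧
  (∀ v, RealStable v → ∀ a : Emb K → ℂ, (∀ e, a e ≠ 0) →
    (∀ (i : s) (σ : K i →+* ℂ), a ⟨i, ComplexEmbedding.conjugate σ⟩ = conj (a ⟨i, σ⟩)) →
    ψ (fun e => a e • v e) = ψ v) ∧
  (∀ v, RealStable v → ∀ a b c d : ℝ, a * d - b * c ≠ 0 →
    ψ (fun e => (a * (v e).1 + b * (v e).2, c * (v e).1 + d * (v e).2)) = ψ v)

/-- The pair `(α, β)` is `p`-reduced: for each `x` in the lattice `M = ℤ α + ℤ β`, not in `p M`,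
`N(p 𝔠 + x 𝓞)² < pⁿ N(𝔠)²`, where `𝔠` is the content and `𝓞` the product of the rings of integers.
(Less than half of the `n` points agree modulo `p`.) -/
def Reduced (p : ℕ) (P : Alg K × Alg K) : Prop :=
  ∀ x ∈ Submodule.span ℤ ({P.1, P.2} : Set (Alg K)),
    (¬ ∃ y ∈ Submodule.span ℤ ({P.1, P.2} : Set (Alg K)), x = (p : ℤ) • y) →
    norm (fun i => spanSingleton (𝓞 (K i))⁰ (p : K i) * content P i +
      spanSingleton (𝓞 (K i))⁰ (x i)) ^ 2 < (p : ℚ) ^ deg K * norm (content P) ^ 2

/-- A continuous function on `V_A(ℚ_p)`, given by its values at the rational points: it is bounded,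
depends only on the point, and is `p`-adically continuous, uniformly on `p`-reduced pairs: for each
`ε > 0` there is `k` such that the values at `P` and `P'` differ by at most `ε` if `P` is
`p`-reduced with content `𝔠` and `P'` is congruent to `P` modulo `p ^ k 𝔠`. -/
def PadicTest (p : ℕ) (φ : Alg K × Alg K → ℝ) : Prop :=
  (∃ M : ℝ, ∀ P, Distinct P → |φ P| ≤ M) ∧
  (∀ P P', Distinct P → Equivalent P P' → φ P' = φ P) ∧
  ∀ ε : ℝ, 0 < ε → ∃ k : ℕ, ∀ P P' : Alg K × Alg K, Distinct P → Distinct P' → Reduced p P →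
    (∀ i, P'.1 i - P.1 i ∈ spanSingleton (𝓞 (K i))⁰ (p : K i) ^ k * content P i) →
    (∀ i, P'.2 i - P.2 i ∈ spanSingleton (𝓞 (K i))⁰ (p : K i) ^ k * content P i) →
    |φ P' - φ P| ≤ ε

/-- A continuous function on the adelic space `V_A(ℝ) × ∏_p V_A(ℚ_p)`, given by its values at the
rational points: a uniform limit of finite sums of products of continuous functions at finitely
many places (Stone-Weierstrass). -/
def AdelicContinuous (F : Point K → ℝ) : Prop := ∀ ε : ℝ, 0 < ε →
  ∃ (S : Finset ℕ) (m : ℕ) (ψ : Fin m → Tuple K → ℝ) (φ : Fin m → ℕ → Alg K × Alg K → ℝ),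
    (∀ p ∈ S, p.Prime) ∧ (∀ j, RealTest (ψ j)) ∧ (∀ j, ∀ p ∈ S, PadicTest p (φ j p)) ∧
    ∀ x : Point K, ∀ P ∈ x.1, |F x - ∑ j, ψ j (conjugates P) * ∏ p ∈ S, φ j p P| ≤ ε

theorem size_eq (v : Tuple K) : size v = Y714.KF.pm v := by
  unfold size Y714.KF.pm
  rw [Finset.sup'_univ_eq_ciSup]
  rfl

theorem realStable_iff (v : Tuple K) : RealStable v ↔ Y714.KE.SYM v ∧ 0 < Y714.KF.pm v := by
  rw [RealStable, size_eq]
  rfl

theorem height_eq : (height : Point K → ℝ) = Q265.EQ.hgt (K := K) := by
  funext x
  unfold height Q265.EQ.hgt Y714.KE.hp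
  simp only [size_eq]
  rfl

theorem realTest_iff (ψ : Tuple K → ℝ) : RealTest ψ ↔ Q265.EQ.RTst ψ := by
  unfold RealTest Q265.EQ.RTst
  simp only [realStable_iff, and_imp]
  rfl

variable (K) in
/-- The products of test functions (auxiliary). -/
def Products : Submonoid (Point K → ℝ) := Q265.EQ.GA K

theorem cl_of {F : Point K → ℝ} (hF : AdelicContinuous F) : Q265.EQ.Cl (Products K) F := by
  classical
  intro ε hε
  obtain ⟨S, m, ψ, φ, hS, hψ, hφ, h⟩ := hF ε hε
  refine ⟨∑ j, fun x : Point K => ψ j (Y714.KE.vc (Q265.EQ.rep x)) *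
    ∏ p ∈ S, φ j p (Q265.EQ.rep x), ?_, fun x => ?_⟩
  · refine Subalgebra.sum_mem _ fun j _ => Algebra.subset_adjoin ?_
    refine ⟨S, hS, fun v => match v with
      | none => fun x => ψ j (Y714.KE.vc (Q265.EQ.rep x))
      | some p => fun x => φ j p (Q265.EQ.rep x), fun v hv => ?_, fun x => ?_⟩
    · cases v with
      | none => exact ⟨ψ j, (realTest_iff _).1 (hψ j), fun _ => rfl⟩
      | some p => exact ⟨φ j p, hφ j p (by simpa using hv), fun _ => rfl⟩
    · rw [Finset.prod_insertNone]
  · rw [Finset.sum_apply]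
    exact h x _ (Q265.EQ.rep_mem (K := K) x)

theorem isHt (hodd : Odd (deg K)) (hn : 5 ≤ deg K) : Q265.EQ.IsHt (height : Point K → ℝ) := by
  rw [height_eq]
  exact Q265.EQ.isHt (K := K) hodd hn

theorem products (hodd : Odd (deg K)) (hn : 5 ≤ deg K) :
    ∀ g ∈ Products K, (∃ C : ℝ, ∀ t, |g t| ≤ C) ∧
      ∃ c, Q265.EQ.HasLim (height : Point K → ℝ) (Fintype.card s - 1) g c := by
  rw [height_eq]
  exact Q265.EQ.hGA (K := K) hodd hn

theorem one_lim (hodd : Odd (deg K)) (hn : 5 ≤ deg K) : ∃ c : ℝ, 0 < c ∧
    Q265.EQ.HasLim (height : Point K → ℝ) (Fintype.card s - 1) (fun _ => 1) c := by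
  rw [height_eq]
  exact Q265.EQ.one_pos_lim (K := K) hodd hn

theorem support (hodd : Odd (deg K)) (hn : 5 ≤ deg K) {F : Point K → ℝ}
    (hF : Q265.EQ.Cl (Products K) F) (hF0 : ∀ x, 0 ≤ F x) {x₀ : Point K} (hx₀ : 0 < F x₀)
    {c : ℝ} (hc : Q265.EQ.HasLim (height : Point K → ℝ) (Fintype.card s - 1) F c) : 0 < c := by
  rw [height_eq] at hc
  exact Q265.EQ.supp_pos (K := K) hodd hn hF hF0 hx₀ hc

end

/-- **Equidistribution of the rational points of `V_A` in the adelic space, all adelic heights.**
There is `μ`, positive on nonnegative continuous functions which are not zero at all rational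
points, with: for each adelic metric (given by `F`, continuous, bounded below by a positive
constant) and each continuous `G`, the sum of the `G x` over the rational points `x` with
`height x * F x ≤ B` is asymptotic to `μ (G / F) * B (log B) ^ (r - 1)`. In particular the number
of these points is asymptotic to `μ (1 / F) * B (log B) ^ (r - 1)`. -/
theorem result {s : Type} [Fintype s] [DecidableEq s] (K : s → Type) [∀ i, Field (K i)]
    [∀ i, NumberField (K i)] (hodd : Odd (deg K)) (hn : 5 ≤ deg K) :
    ∃ μ : (Point K → ℝ) → ℝ,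
      0 < μ (fun _ => 1) ∧
      (∀ G, AdelicContinuous G → (∀ x, 0 ≤ G x) → (∃ x, 0 < G x) → 0 < μ G) ∧
      (∀ F, AdelicContinuous F → (∃ m : ℝ, 0 < m ∧ ∀ x, m ≤ F x) →
        Tendsto (fun B : ℝ => ({x : Point K | height x * F x ≤ B}.ncard : ℝ) /
          (B * Real.log B ^ (Fintype.card s - 1))) atTop (𝓝 (μ fun x => 1 / F x))) ∧
      ∀ F G, AdelicContinuous F → AdelicContinuous G → (∃ m : ℝ, 0 < m ∧ ∀ x, m ≤ F x) →
        Tendsto (fun B : ℝ => (∑ᶠ x ∈ {x : Point K | height x * F x ≤ B}, G x) /
          (B * Real.log B ^ (Fintype.card s - 1))) atTop (𝓝 (μ fun x => G x / F x)) := by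
  classical
  have hH := isHt (K := K) hodd hn
  have hG := products (K := K) hodd hn
  set k := Fintype.card s - 1 with hk
  obtain ⟨μ, hμ⟩ : ∃ μ : (Point K → ℝ) → ℝ, ∀ G c, Q265.EQ.HasLim height k G c → μ G = c := by
    refine ⟨fun G => if h : ∃ c, Q265.EQ.HasLim height k G c then h.choose else 0,
      fun G c h => ?_⟩
    have h1 : ∃ c, Q265.EQ.HasLim height k G c := ⟨c, h⟩
    show (if h : ∃ c, Q265.EQ.HasLim height k G c then h.choose else 0) = c
    rw [dif_pos h1]
    exact tendsto_nhds_unique h1.choose_spec h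
  have hcount : ∀ F G : Point K → ℝ, AdelicContinuous F → Q265.EQ.Cl (Products K) G →
      (∃ m : ℝ, 0 < m ∧ ∀ x, m ≤ F x) →
      Tendsto (fun B : ℝ => (∑ᶠ x ∈ {x : Point K | height x * F x ≤ B}, G x) /
        (B * Real.log B ^ k)) atTop (𝓝 (μ fun x => G x / F x)) := by
    intro F G hF hG' hm
    obtain ⟨c, h1, h2⟩ := Q265.EQ.Cl.countw hH hG (cl_of hF) hm hG'
    have e : μ (fun x => G x / F x) = c := hμ _ _ h1
    rw [e]
    refine h2.congr fun B => ?_
    rw [Q265.EQ.S_finsum]
    rfl
  obtain ⟨c1, hc1, hlim1⟩ := one_lim (K := K) hodd hn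
  refine ⟨μ, ?_, ?_, ?_, fun F G hF hG' hm => hcount F G hF (cl_of hG') hm⟩
  · rw [hμ _ _ hlim1]
    exact hc1
  · rintro G hG' hG0 ⟨x₀, hx₀⟩
    obtain ⟨c, hc⟩ := (cl_of hG').lim hH hG
    rw [hμ _ _ hc]
    exact support hodd hn (cl_of hG') hG0 hx₀ hc
  · intro F hF hm
    refine (hcount F (fun _ => 1) hF (Q265.EQ.Cl.const 1) hm).congr fun B => ?_
    congr 1
    obtain ⟨m, hm0, hm⟩ := hm
    have hfin : {x : Point K | height x * F x ≤ B}.Finite := by
      refine (hH.fin (B / m)).subset fun x hx => ?_
      have h1 : height x * F x ≤ B := hx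
      show height x ≤ B / m
      rw [le_div_iff₀ hm0]
      exact (mul_le_mul_of_nonneg_left (hm x) (hH.pos x).le).trans h1
    rw [finsum_mem_eq_finite_toFinset_sum _ hfin, Finset.sum_const, nsmul_eq_mul, mul_one,
      Set.ncard_eq_toFinset_card _ hfin]

end Pool.Agent.Results.MP_1acd66_nt.AdelicEquidistribution
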