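import Pool.Agent.Q265.EQ.A

/-! # Products of functions at finitely many places, and the uniform closure -/

set_option autoImplicit false

open Filter Topology Finset

namespace Q265.EQ

variable {T : Type*}

/-- the functions at one place -/
structure IsAlg (A : Set (T → ℝ)) : Prop where
  mul : ∀ f ∈ A, ∀ g ∈ A, (fun t => f t * g t) ∈ A
  comp : ∀ h : ℝ → ℝ, Continuous h → ∀ f ∈ A, (fun t => h (f t)) ∈ A
  bdd : ∀ f ∈ A, ∃ C : ℝ, ∀ t, |f t| ≤ C

lemma low_prod {ι : Type*} {Sf : Finset ι} {Φ : ι → T → ℝ} (h : ∀ v ∈ Sf, Low (Φ v)) :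
    Low fun t => ∏ v ∈ Sf, Φ v t := by
  classical
  induction Sf using Finset.induction_on with
  | empty => exact ⟨1, one_pos, fun t => by simp⟩
  | insert v s hv ih =>
    obtain ⟨m, hm, h1⟩ := ih fun u hu => h u (mem_insert_of_mem hu)
    obtain ⟨m', hm', h2⟩ := h v (mem_insert_self _ _)
    refine ⟨m' * m, mul_pos hm' hm, fun t => ?_⟩
    show m' * m ≤ ∏ v ∈ insert v s, Φ v t
    rw [prod_insert hv]
    exact mul_le_mul (h2 t) (h1 t) hm.le (hm'.le.trans (h2 t))

section

variable {ι : Type*} [DecidableEq ι] {H : T → ℝ} {k : ℕ} {A : ι → Set (T → ℝ)} {Sf : Finset ι}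

/-- nonnegative weights -/
theorem prod_pos' (hH : IsHt H) (hA : ∀ v ∈ Sf, IsAlg (A v))
    (hc : ∀ Φ : ι → T → ℝ, (∀ v ∈ Sf, Φ v ∈ A v ∧ Low (Φ v)) →
      ∃ c, Tendsto (fun B => S H (fun _ => 1) (fun t => ∏ v ∈ Sf, Φ v t) B / X k B) atTop (𝓝 c)) :
    ∀ S0 ⊆ Sf, ∀ f : ι → T → ℝ, (∀ v ∈ S0, f v ∈ A v ∧ ∀ t, 0 ≤ f v t) →
      ∀ Φ : ι → T → ℝ, (∀ v ∈ Sf, Φ v ∈ A v ∧ Low (Φ v)) →
      ∃ c, Tendsto (fun B => S H (fun t => ∏ v ∈ S0, f v t) (fun t => ∏ v ∈ Sf, Φ v t) B / X k B)
        atTop (𝓝 c) := by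
  intro S0
  induction S0 using Finset.induction_on with
  | empty =>
    intro _ f _ Φ hΦ
    simpa using hc Φ hΦ
  | insert v s hv ih =>
    intro hs f hf Φ hΦ
    have hvS : v ∈ Sf := hs (mem_insert_self _ _)
    have ih' := ih (fun u hu => hs (mem_insert_of_mem hu)) f
      (fun u hu => hf u (mem_insert_of_mem hu))
    obtain ⟨hfv, hfv0⟩ := hf v (mem_insert_self _ _)
    obtain ⟨C0, hC0⟩ := (hA v hvS).bdd _ hfv
    obtain ⟨C, hC1, hC⟩ : ∃ C : ℝ, 1 ≤ C ∧ ∀ t, f v t ≤ C :=
      ⟨max C0 1, le_max_right _ _, fun t => ((le_abs_self _).trans (hC0 t)).trans (le_max_left _ _)⟩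
    have hCp : 0 < C := by linarith
    have hlow : Low fun t => ∏ v ∈ Sf, Φ v t := low_prod fun u hu => (hΦ u hu).2
    have hst := step hH (k := k) (w := fun t => ∏ u ∈ s, f u t) (f := fun t => f v t / C)
      (fun t => prod_nonneg fun u hu => (hf u (mem_insert_of_mem hu)).2 t)
      (fun t => div_nonneg (hfv0 t) hCp.le) (fun t => by rw [div_le_one hCp]; exact hC t)
      hlow (ih' Φ hΦ) ?_
    · obtain ⟨c, hcc⟩ := hst
      refine ⟨C * c, (hcc.const_mul C).congr fun B => ?_⟩
      rw [← mul_div_assoc, ← S_smul hH hlow]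
      congr 2
      funext t
      rw [prod_insert hv]
      field_simp
    · intro n i
      have h1 := ih' (Function.update Φ v fun t => Φ v t * (1 / chi n i (f v t / C))) ?_
      · obtain ⟨c, hcc⟩ := h1
        refine ⟨c, hcc.congr fun B => ?_⟩
        congr 2
        funext t
        have e := prod_update_of_mem hvS (fun u => Φ u t) (Φ v t * (1 / chi n i (f v t / C)))
        have e2 : ∀ u, Function.update Φ v (fun t => Φ v t * (1 / chi n i (f v t / C))) u t =
            Function.update (fun u => Φ u t) v (Φ v t * (1 / chi n i (f v t / C))) u := by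
          intro u
          by_cases hu : u = v
          · subst hu; simp
          · simp [hu]
        rw [prod_congr rfl fun u _ => e2 u, e]
        have e3 := mul_prod_erase Sf (fun u => Φ u t) hvS
        rw [← e3, sdiff_singleton_eq_erase]
        ring
      · intro u hu
        by_cases huv : u = v
        · subst huv
          rw [Function.update_self]
          obtain ⟨g1, m, hm, g2⟩ := hΦ u hu
          have hchi : ∀ x, 0 < chi n i x := fun x => by linarith [(chi_bd n i x).1]
          refine ⟨(hA u hu).mul _ g1 _ ((hA u hu).comp (fun x => 1 / chi n i (x / C)) ?_ _ hfv),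
            m / 2, by linarith, fun t => ?_⟩
          · refine Continuous.div continuous_const ?_ fun x => (hchi _).ne'
            exact (chi_cont n i).comp (continuous_id.div_const C)
          · show m / 2 ≤ Φ u t * (1 / chi n i (f u t / C))
            rw [mul_one_div]
            have hb := chi_bd n i (f u t / C)
            rw [div_le_div_iff₀ two_pos (hchi _)]
            have := g2 t
            nlinarith [hb.2]
        · rw [Function.update_of_ne huv]
          exact hΦ u hu

/-- arbitrary weights -/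
theorem prod_all (hH : IsHt H) (hA : ∀ v ∈ Sf, IsAlg (A v))
    (hc : ∀ Φ : ι → T → ℝ, (∀ v ∈ Sf, Φ v ∈ A v ∧ Low (Φ v)) →
      ∃ c, Tendsto (fun B => S H (fun _ => 1) (fun t => ∏ v ∈ Sf, Φ v t) B / X k B) atTop (𝓝 c))
    {f : ι → T → ℝ} (hf : ∀ v ∈ Sf, f v ∈ A v) :
    ∃ c, Tendsto (fun B => S H (fun t => ∏ v ∈ Sf, f v t) (fun _ => 1) B / X k B)
        atTop (𝓝 c) := by
  have hlow1 : Low fun _ : T => (1 : ℝ) := ⟨1, one_pos, fun _ => le_rfl⟩
  have h0 : ∀ f : ι → T → ℝ, (∀ v ∈ Sf, f v ∈ A v ∧ ∀ t, 0 ≤ f v t) →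
      ∃ c, Tendsto (fun B => S H (fun t => ∏ v ∈ Sf, f v t) (fun _ => 1) B / X k B)
        atTop (𝓝 c) := by
    intro f hf
    have h1 := prod_pos' hH hA hc Sf le_rfl f hf (fun _ _ => 1) fun v hv =>
      ⟨(hA v hv).comp (fun _ => 1) continuous_const _ (hf v hv).1, hlow1⟩
    simpa using h1
  have h1 : ∀ S1 ⊆ Sf, ∀ f : ι → T → ℝ, (∀ v ∈ Sf, f v ∈ A v) →
      (∀ v ∈ Sf, v ∉ S1 → ∀ t, 0 ≤ f v t) →
      ∃ c, Tendsto (fun B => S H (fun t => ∏ v ∈ Sf, f v t) (fun _ => 1) B / X k B)
        atTop (𝓝 c) := by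
    intro S1
    induction S1 using Finset.induction_on with
    | empty =>
      intro _ f hf hf0
      exact h0 f fun v hv => ⟨hf v hv, hf0 v hv (notMem_empty v)⟩
    | insert v s hv ih =>
      intro hs f hf hf0
      have hvS : v ∈ Sf := hs (mem_insert_self _ _)
      obtain ⟨C, hC⟩ := (hA v hvS).bdd _ (hf v hvS)
      have hmem : ∀ h : ℝ → ℝ, Continuous h → (∀ t, 0 ≤ h (f v t)) →
          ∃ c, Tendsto (fun B => S H (fun t => h (f v t) * ∏ u ∈ Sf.erase v, f u t)
            (fun _ => 1) B / X k B) atTop (𝓝 c) := by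
        intro h hh hh0
        obtain ⟨c, hcc⟩ := ih (fun u hu => hs (mem_insert_of_mem hu))
          (Function.update f v fun t => h (f v t)) (fun u hu => by
            by_cases huv : u = v
            · subst huv
              rw [Function.update_self]
              exact (hA u hu).comp h hh _ (hf u hu)
            · rw [Function.update_of_ne huv]
              exact hf u hu) (fun u hu hus t => by
            by_cases huv : u = v
            · subst huv
              rw [Function.update_self]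
              exact hh0 t
            · rw [Function.update_of_ne huv]
              exact hf0 u hu (fun hcon => by
                rw [mem_insert] at hcon
                rcases hcon with h | h
                · exact huv h
                · exact hus h) t)
        refine ⟨c, hcc.congr fun B => ?_⟩
        congr 2
        funext t
        have e2 : ∀ u, Function.update f v (fun t => h (f v t)) u t =
            Function.update (fun u => f u t) v (h (f v t)) u := by
          intro u
          by_cases hu : u = v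
          · subst hu; simp
          · simp [hu]
        rw [prod_congr rfl fun u _ => e2 u, prod_update_of_mem hvS, sdiff_singleton_eq_erase]
      obtain ⟨c1, hc1⟩ := hmem (fun x => x + |C|) (by fun_prop) fun t => by
        have h3 := abs_le.1 (hC t)
        have h4 := le_abs_self C
        linarith [h3.1]
      obtain ⟨c2, hc2⟩ := hmem (fun _ => |C|) continuous_const fun t => abs_nonneg C
      refine ⟨c1 - c2, (hc1.sub hc2).congr fun B => ?_⟩
      rw [← sub_div, ← S_sub hH hlow1]
      congr 2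
      funext t
      rw [← mul_prod_erase Sf (fun u => f u t) hvS]
      ring
  exact h1 Sf le_rfl f hf fun v hv hn => absurd hv hn

end

/-! ## The uniform closure of an algebra of functions -/

/-- the uniform closure of the algebra generated by `G` -/
def Cl (G : Submonoid (T → ℝ)) (F : T → ℝ) : Prop := ∀ ε : ℝ, 0 < ε →
  ∃ g ∈ Algebra.adjoin ℝ (G : Set (T → ℝ)), ∀ t, |F t - g t| ≤ ε

/-- the weighted sums over the points of bounded height have a limit -/
def HasLim (H : T → ℝ) (k : ℕ) (w : T → ℝ) (c : ℝ) : Prop :=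
  Tendsto (fun B => S H w (fun _ => 1) B / X k B) atTop (𝓝 c)

section

variable {H : T → ℝ} {k : ℕ} {G : Submonoid (T → ℝ)}

lemma low_one : Low fun _ : T => (1 : ℝ) := ⟨1, one_pos, fun _ => le_rfl⟩

lemma HasLim.add (hH : IsHt H) {w w' : T → ℝ} {c c' : ℝ} (h : HasLim H k w c)
    (h' : HasLim H k w' c') : HasLim H k (fun t => w t + w' t) (c + c') := by
  refine (Tendsto.add h h').congr fun B => ?_
  rw [← add_div, ← S_add hH low_one]

lemma HasLim.sub (hH : IsHt H) {w w' : T → ℝ} {c c' : ℝ} (h : HasLim H k w c)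
    (h' : HasLim H k w' c') : HasLim H k (fun t => w t - w' t) (c - c') := by
  refine (Tendsto.sub h h').congr fun B => ?_
  rw [← sub_div, ← S_sub hH low_one]

lemma HasLim.smul (hH : IsHt H) {w : T → ℝ} {c : ℝ} (a : ℝ) (h : HasLim H k w c) :
    HasLim H k (fun t => a * w t) (a * c) := by
  refine (Tendsto.const_mul a h).congr fun B => ?_
  rw [← mul_div_assoc, ← S_smul hH low_one]

lemma HasLim.mono (hH : IsHt H) {w w' : T → ℝ} {c c' : ℝ} (h : HasLim H k w c)
    (h' : HasLim H k w' c') (hw : ∀ t, w t ≤ w' t) : c ≤ c' := by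
  refine le_of_tendsto_of_tendsto h h' ?_
  filter_upwards [X_pos k] with B hB
  exact div_le_div_of_nonneg_right (S_mono hH low_one hw B) hB.le

lemma HasLim.sum (hH : IsHt H) {ι : Type*} (s : Finset ι) {w : ι → T → ℝ} {c : ι → ℝ}
    (h : ∀ i ∈ s, HasLim H k (w i) (c i)) :
    HasLim H k (fun t => ∑ i ∈ s, w i t) (∑ i ∈ s, c i) := by
  classical
  induction s using Finset.induction_on with
  | empty =>
    simp only [sum_empty]
    have : (fun B => S H (fun _ : T => (0 : ℝ)) (fun _ => 1) B / X k B) = fun _ => 0 := by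
      funext B
      have : S H (fun _ : T => (0 : ℝ)) (fun _ => 1) B = 0 := by simp [S]
      rw [this, zero_div]
    unfold HasLim
    rw [this]
    exact tendsto_const_nhds
  | insert i s hi ih =>
    simp only [sum_insert hi]
    exact (h i (mem_insert_self _ _)).add hH (ih fun j hj => h j (mem_insert_of_mem hj))

theorem adjoin_lim (hH : IsHt H)
    (hG : ∀ g ∈ G, (∃ C : ℝ, ∀ t, |g t| ≤ C) ∧ ∃ c, HasLim H k g c) :
    ∀ g ∈ Algebra.adjoin ℝ (G : Set (T → ℝ)), (∃ C : ℝ, ∀ t, |g t| ≤ C) ∧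
      ∃ c, HasLim H k g c := by
  intro g hg
  rw [← Subalgebra.mem_toSubmodule, Algebra.adjoin_eq_span, Submonoid.closure_eq] at hg
  induction hg using Submodule.span_induction with
  | mem x hx => exact hG x hx
  | zero =>
    have := HasLim.sum (k := k) hH (∅ : Finset ℕ) (w := fun _ _ => (0 : ℝ)) (c := fun _ => 0)
      (by simp)
    simp only [sum_empty] at this
    exact ⟨⟨0, fun t => by simp⟩, 0, this⟩
  | add x y _ _ h1 h2 =>
    obtain ⟨⟨C, hC⟩, c, hc⟩ := h1
    obtain ⟨⟨C', hC'⟩, c', hc'⟩ := h2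
    refine ⟨⟨C + C', fun t => ?_⟩, c + c', hc.add hH hc'⟩
    exact (abs_add_le _ _).trans (add_le_add (hC t) (hC' t))
  | smul a x _ h1 =>
    obtain ⟨⟨C, hC⟩, c, hc⟩ := h1
    refine ⟨⟨|a| * C, fun t => ?_⟩, a * c, hc.smul hH a⟩
    show |a * x t| ≤ |a| * C
    rw [abs_mul]
    exact mul_le_mul_of_nonneg_left (hC t) (abs_nonneg a)

lemma Cl.bdd (hH : IsHt H)
    (hG : ∀ g ∈ G, (∃ C : ℝ, ∀ t, |g t| ≤ C) ∧ ∃ c, HasLim H k g c) {F : T → ℝ} (hF : Cl G F) :
    ∃ C : ℝ, ∀ t, |F t| ≤ C := by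
  obtain ⟨g, hg, h⟩ := hF 1 one_pos
  obtain ⟨⟨C, hC⟩, -⟩ := adjoin_lim hH hG g hg
  refine ⟨C + 1, fun t => ?_⟩
  have h1 := abs_sub_abs_le_abs_sub (F t) (g t)
  linarith [h t, hC t]

theorem Cl.lim (hH : IsHt H)
    (hG : ∀ g ∈ G, (∃ C : ℝ, ∀ t, |g t| ≤ C) ∧ ∃ c, HasLim H k g c) {F : T → ℝ} (hF : Cl G F) :
    ∃ c, HasLim H k F c := by
  obtain ⟨-, c1, hc1⟩ := hG 1 (one_mem G)
  refine exists_lim fun ε hε => ?_
  have hc10 : 0 ≤ c1 := by
    refine ge_of_tendsto hc1 ?_
    filter_upwards [X_pos k] with B hB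
    exact div_nonneg (S_nonneg hH low_one (fun _ => zero_le_one) B) hB.le
  obtain ⟨g, hg, h⟩ := hF (ε / (2 * (c1 + 1))) (by positivity)
  obtain ⟨-, c, hc⟩ := adjoin_lim hH hG g hg
  refine ⟨c, ?_⟩
  have h1 : ∀ᶠ B in atTop, |S H g (fun _ => 1) B / X k B - c| < ε / 2 := by
    have h3 := (hc.sub_const c).abs
    rw [sub_self, abs_zero] at h3
    exact h3.eventually_lt_const (by linarith)
  have h2 : ∀ᶠ B in atTop, S H (1 : T → ℝ) (fun _ => 1) B / X k B < c1 + 1 :=
    hc1.eventually_lt_const (by linarith)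
  filter_upwards [h1, h2, X_pos k] with B g1 g2 g3
  have e1 : |S H F (fun _ => 1) B - S H g (fun _ => 1) B| ≤ ε / (2 * (c1 + 1)) *
      S H (1 : T → ℝ) (fun _ => 1) B := by
    rw [← S_sub hH low_one, ← S_smul hH low_one]
    refine S_abs hH low_one (fun t => ?_) B
    rw [Pi.one_apply, mul_one]
    exact h t
  have e2 : |S H F (fun _ => 1) B / X k B - S H g (fun _ => 1) B / X k B| ≤ ε / 2 := by
    rw [← sub_div, abs_div, abs_of_pos g3]
    refine (div_le_div_of_nonneg_right e1 g3.le).trans ?_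
    rw [mul_div_assoc]
    refine (mul_le_mul_of_nonneg_left g2.le (by positivity)).trans ?_
    have : c1 + 1 ≠ 0 := by positivity
    have : ε / (2 * (c1 + 1)) * (c1 + 1) = ε / 2 := by field_simp
    exact this.le
  calc _ ≤ |S H F (fun _ => 1) B / X k B - S H g (fun _ => 1) B / X k B| +
      |S H g (fun _ => 1) B / X k B - c| := abs_sub_le _ _ _
    _ ≤ ε := by linarith

lemma aeval_mem' {P : Subalgebra ℝ (T → ℝ)} {g : T → ℝ} (hg : g ∈ P) (p : Polynomial ℝ) :
    Polynomial.aeval g p ∈ P := by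
  have h := Polynomial.aeval_mem_adjoin_singleton ℝ g (p := p)
  exact Algebra.adjoin_le (Set.singleton_subset_iff.2 hg) h

theorem Cl.comp (hH : IsHt H)
    (hG : ∀ g ∈ G, (∃ C : ℝ, ∀ t, |g t| ≤ C) ∧ ∃ c, HasLim H k g c) {F : T → ℝ} (hF : Cl G F)
    {a b : ℝ} (hab : ∀ t, a ≤ F t ∧ F t ≤ b) {h : ℝ → ℝ} (hh : ContinuousOn h (Set.Icc a b)) :
    Cl G fun t => h (F t) := by
  intro ε hε
  -- a continuous extension
  by_cases hne : a ≤ b
  swap
  · refine ⟨0, Subalgebra.zero_mem _, fun t => ?_⟩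
    have := hab t
    exact absurd (this.1.trans this.2) hne
  set h' : ℝ → ℝ := Set.IccExtend hne ((Set.Icc a b).domRestrict h) with hh'
  have hc' : Continuous h' := by
    rw [hh']
    exact (continuousOn_iff_continuous_domRestrict.1 hh).Icc_extend'
  have he : ∀ t, h' (F t) = h (F t) := fun t => by
    rw [hh', Set.IccExtend_of_mem hne _ (show F t ∈ Set.Icc a b from hab t)]
    rfl
  obtain ⟨C, hC⟩ := hF.bdd hH hG
  obtain ⟨p, hp⟩ := exists_polynomial_near_of_continuousOn (-(C + 1)) (C + 1) h'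
    hc'.continuousOn (ε / 2) (by linarith)
  have huc : UniformContinuousOn h' (Set.Icc (-(C + 1)) (C + 1)) :=
    isCompact_Icc.uniformContinuousOn_of_continuous hc'.continuousOn
  rw [Metric.uniformContinuousOn_iff] at huc
  obtain ⟨δ, hδ, h1⟩ := huc (ε / 2) (by linarith)
  obtain ⟨g, hg, h2⟩ := hF (min (δ / 2) 1) (lt_min (by linarith) one_pos)
  refine ⟨Polynomial.aeval g p, ?_, fun t => ?_⟩
  · exact aeval_mem' hg p
  · have h3 := h2 t
    have h4 : |F t - g t| ≤ δ / 2 := h3.trans (min_le_left _ _)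
    have h5 : |F t - g t| ≤ 1 := h3.trans (min_le_right _ _)
    have h6 := abs_le.1 h5
    have h7 := abs_le.1 (hC t)
    have m1 : F t ∈ Set.Icc (-(C + 1)) (C + 1) := ⟨by linarith [h7.1], by linarith [h7.2]⟩
    have m2 : g t ∈ Set.Icc (-(C + 1)) (C + 1) :=
      ⟨by linarith [h7.1, h6.2], by linarith [h7.2, h6.1]⟩
    have h8 := h1 _ m1 _ m2 (by rw [Real.dist_eq]; linarith)
    have h9 := hp _ m2
    have e : (Polynomial.aeval g p) t = p.eval (g t) := by
      have := Polynomial.aeval_algHom_apply (Pi.evalAlgHom ℝ (fun _ : T => ℝ) t) g p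
      rw [Pi.evalAlgHom_apply, Pi.evalAlgHom_apply] at this
      rw [← this, Polynomial.coe_aeval_eq_eval]
    show |h (F t) - (Polynomial.aeval g p) t| ≤ ε
    rw [e, ← he t]
    rw [Real.dist_eq] at h8
    have h10 := abs_sub_le (h' (F t)) (h' (g t)) (p.eval (g t))
    rw [abs_sub_comm (h' (g t))] at h10
    linarith

/-! ## From weighted sums to counting functions -/

lemma S_const {H : T → ℝ} {w : T → ℝ} {a : ℝ} (ha : 0 < a) (B : ℝ) :
    S H w (fun _ => a) B = S H w (fun _ => 1) (B / a) := by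
  classical
  unfold S
  refine finsum_congr fun t => ?_
  have : H t * a ≤ B ↔ H t * 1 ≤ B / a := by rw [mul_one, le_div_iff₀ ha]
  by_cases h : H t * a ≤ B
  · rw [if_pos h, if_pos (this.1 h)]
  · rw [if_neg h, if_neg fun h' => h (this.2 h')]

lemma HasLim.const {w : T → ℝ} {c a : ℝ} (ha : 0 < a) (h : HasLim H k w c) :
    Tendsto (fun B => S H w (fun _ => a) B / X k B) atTop (𝓝 (c / a)) := by
  have h1 : Tendsto (fun B : ℝ => a⁻¹ * B) atTop atTop := tendsto_id.const_mul_atTop (inv_pos.2 ha)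
  have h2 := (Tendsto.comp h h1).mul (X_mul k (inv_pos.2 ha))
  rw [← div_eq_mul_inv] at h2
  refine h2.congr' ?_
  filter_upwards [X_pos k, h1.eventually (X_pos k)] with B g1 g2
  simp only [Function.comp_apply]
  rw [S_const ha, div_eq_inv_mul B a, div_mul_div_cancel₀ g2.ne']

/-- the cut-off -/
def cut (z : ℝ) (j : ℕ) : ℝ := max 0 (min 1 (z + 1 - j))

lemma cut_zero {z : ℝ} (hz : 0 ≤ z) : cut z 0 = 1 := by
  unfold cut
  rw [min_eq_left (by push_cast; linarith), max_eq_right zero_le_one]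

lemma cut_big {z : ℝ} {n : ℕ} (hz : z ≤ n) : cut z (n + 1) = 0 := by
  unfold cut
  exact max_eq_left ((min_le_right _ _).trans (by push_cast; linarith))

lemma cut_anti (z : ℝ) (j : ℕ) : cut z (j + 1) ≤ cut z j := by
  unfold cut
  refine max_le_max le_rfl (min_le_min le_rfl ?_)
  push_cast
  linarith

lemma cut_ne {z : ℝ} {j : ℕ} (h : cut z j - cut z (j + 1) ≠ 0) :
    (j : ℝ) - 1 < z ∧ z < j + 1 := by
  constructor
  · by_contra hcon
    push Not at hcon
    apply h
    unfold cut
    rw [max_eq_left ((min_le_right _ _).trans (by linarith)),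
      max_eq_left ((min_le_right _ _).trans (by push_cast; linarith)), sub_self]
  · by_contra hcon
    push Not at hcon
    apply h
    unfold cut
    rw [min_eq_left (by linarith), min_eq_left (by push_cast; linarith), sub_self]

lemma cut_cont (j : ℕ) : Continuous fun z => cut z j := by
  unfold cut
  fun_prop

/-- **The counting function of the height `H F`.** -/
theorem Cl.count (hH : IsHt H)
    (hG : ∀ g ∈ G, (∃ C : ℝ, ∀ t, |g t| ≤ C) ∧ ∃ c, HasLim H k g c) {F : T → ℝ} (hF : Cl G F)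
    (hlow : Low F) : ∃ c, HasLim H k (fun t => (F t)⁻¹) c ∧
      Tendsto (fun B => S H (fun _ => 1) F B / X k B) atTop (𝓝 c) := by
  classical
  obtain ⟨m, hm, hmF⟩ := hlow
  obtain ⟨M, hM⟩ := hF.bdd hH hG
  have hb : ∀ t, m ≤ F t ∧ F t ≤ max M m := fun t =>
    ⟨hmF t, ((le_abs_self _).trans (hM t)).trans (le_max_left _ _)⟩
  obtain ⟨c, hc⟩ := (hF.comp hH hG hb (h := fun x => x⁻¹)
    (continuousOn_id.inv₀ fun x hx => (hm.trans_le hx.1).ne')).lim hH hG
  refine ⟨c, hc, ?_⟩
  obtain ⟨-, c1, hc1⟩ := hG 1 (one_mem G)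
  have hc10 : 0 ≤ c1 := by
    refine ge_of_tendsto hc1 ?_
    filter_upwards [X_pos k] with B hB
    exact div_nonneg (S_nonneg hH low_one (fun _ => zero_le_one) B) hB.le
  rw [Metric.tendsto_atTop]
  intro ε hε
  -- the mesh
  obtain ⟨δ, hδ, hδ2⟩ : ∃ δ : ℝ, 0 < δ ∧ 2 * δ / m ^ 2 * c1 < ε / 2 := by
    refine ⟨ε * m ^ 2 / (8 * (c1 + 1)), by positivity, ?_⟩
    have : 2 * (ε * m ^ 2 / (8 * (c1 + 1))) / m ^ 2 * c1 = ε / 4 * (c1 / (c1 + 1)) := by
      field_simp
      ring
    rw [this]
    have h1 : c1 / (c1 + 1) ≤ 1 := by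
      rw [div_le_one (by linarith)]
      linarith
    nlinarith
  obtain ⟨n, hn⟩ := exists_nat_ge ((max M m - m) / δ)
  set z : T → ℝ := fun t => (F t - m) / δ with hz
  have hz0 : ∀ t, 0 ≤ z t := fun t => div_nonneg (by linarith [(hb t).1]) hδ.le
  have hzn : ∀ t, z t ≤ n := fun t =>
    (div_le_div_of_nonneg_right (by linarith [(hb t).2]) hδ.le).trans hn
  set g : ℕ → T → ℝ := fun j t => cut (z t) j - cut (z t) (j + 1) with hgdef
  have hg0 : ∀ j t, 0 ≤ g j t := fun j t => by
    have := cut_anti (z t) j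
    simp only [hgdef]
    linarith
  have hgs : ∀ t, ∑ j ∈ range (n + 1), g j t = 1 := fun t => by
    simp only [hgdef]
    rw [sum_range_sub' (fun j => cut (z t) j), cut_zero (hz0 t), cut_big (hzn t), sub_zero]
  have hglim : ∀ j, ∃ κ, HasLim H k (g j) κ := fun j => by
    have h1 : Cl G (g j) := by
      have := hF.comp hH hG hb (h := fun x => cut ((x - m) / δ) j - cut ((x - m) / δ) (j + 1))
        (by
          refine Continuous.continuousOn (Continuous.sub ?_ ?_)
          · exact (cut_cont j).comp ((continuous_id.sub continuous_const).div_const δ)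
          · exact (cut_cont (j + 1)).comp ((continuous_id.sub continuous_const).div_const δ))
      exact this
    exact h1.lim hH hG
  choose κ hκ using hglim
  set am : ℕ → ℝ := fun j => max m (m + (j - 1) * δ) with ham
  set ap : ℕ → ℝ := fun j => m + (j + 1) * δ with hap
  have hamp : ∀ j, 0 < am j := fun j => hm.trans_le (le_max_left _ _)
  have hamm : ∀ j, m ≤ am j := fun j => le_max_left _ _
  have hapm : ∀ j, m ≤ ap j := fun j => by
    simp only [hap]
    have : (0 : ℝ) ≤ (j + 1) * δ := by positivity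
    linarith
  have happ : ∀ j, 0 < ap j := fun j => hm.trans_le (hapm j)
  have hgF : ∀ j t, g j t ≠ 0 → am j ≤ F t ∧ F t ≤ ap j := fun j t h => by
    obtain ⟨h1, h2⟩ := cut_ne h
    simp only [hz] at h1 h2
    rw [lt_div_iff₀ hδ] at h1
    rw [div_lt_iff₀ hδ] at h2
    refine ⟨max_le (hb t).1 (by linarith), ?_⟩
    simp only [hap]
    linarith
  have hdiff : ∀ j, (am j)⁻¹ - (ap j)⁻¹ ≤ 2 * δ / m ^ 2 := fun j => by
    have h1 : ap j - am j ≤ 2 * δ := by
      simp only [hap, ham]
      have := le_max_right m (m + ((j : ℝ) - 1) * δ)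
      linarith
    have h2 : (am j)⁻¹ - (ap j)⁻¹ = (ap j - am j) / (am j * ap j) := by
      have := (hamp j).ne'
      have := (happ j).ne'
      field_simp
    rw [h2]
    have h3 : m ^ 2 ≤ am j * ap j := by
      rw [sq]
      exact mul_le_mul (hamm j) (hapm j) hm.le (hamp j).le
    exact div_le_div₀ (by linarith) h1 (by positivity) h3
  have hκ0 : ∀ j, 0 ≤ κ j := fun j => by
    refine ge_of_tendsto (hκ j) ?_
    filter_upwards [X_pos k] with B hB
    exact div_nonneg (S_nonneg hH low_one (hg0 j) B) hB.le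
  have hκs : ∑ j ∈ range (n + 1), κ j = c1 := by
    have h1 := HasLim.sum (k := k) hH (range (n + 1)) (w := g) (c := κ) fun j _ => hκ j
    have h2 : (fun t => ∑ j ∈ range (n + 1), g j t) = 1 := by
      funext t
      rw [hgs t]
      rfl
    rw [h2] at h1
    exact tendsto_nhds_unique h1 hc1
  have hU : Tendsto (fun B => (∑ j ∈ range (n + 1), S H (g j) (fun _ => am j) B) / X k B) atTop
      (𝓝 (∑ j ∈ range (n + 1), κ j / am j)) := by
    simp_rw [sum_div]
    exact tendsto_finsetSum _ fun j _ => (hκ j).const (hamp j)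
  have hL : Tendsto (fun B => (∑ j ∈ range (n + 1), S H (g j) (fun _ => ap j) B) / X k B) atTop
      (𝓝 (∑ j ∈ range (n + 1), κ j / ap j)) := by
    simp_rw [sum_div]
    exact tendsto_finsetSum _ fun j _ => (hκ j).const (happ j)
  have hUL : ∑ j ∈ range (n + 1), κ j / am j - ∑ j ∈ range (n + 1), κ j / ap j < ε / 2 := by
    rw [← sum_sub_distrib]
    refine lt_of_le_of_lt ?_ hδ2
    rw [← hκs, mul_sum]
    refine sum_le_sum fun j _ => ?_
    have h1 := hdiff j
    have h2 := hκ0 j
    rw [div_eq_mul_inv, div_eq_mul_inv, ← mul_sub]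
    nlinarith
  have hcU : c ≤ ∑ j ∈ range (n + 1), κ j / am j := by
    have h1 := HasLim.sum (k := k) hH (range (n + 1)) (w := fun j t => (am j)⁻¹ * g j t)
      (c := fun j => (am j)⁻¹ * κ j) fun j _ => (hκ j).smul hH _
    have h2 := hc.mono hH h1 fun t => by
      rw [← mul_one (F t)⁻¹, ← hgs t, mul_sum]
      refine sum_le_sum fun j _ => ?_
      by_cases h : g j t = 0
      · rw [h, mul_zero, mul_zero]
      · exact mul_le_mul_of_nonneg_right (inv_anti₀ (hamp j) (hgF j t h).1) (hg0 j t)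
    refine h2.trans (le_of_eq (sum_congr rfl fun j _ => ?_))
    rw [div_eq_inv_mul]
  have hcL : ∑ j ∈ range (n + 1), κ j / ap j ≤ c := by
    have h1 := HasLim.sum (k := k) hH (range (n + 1)) (w := fun j t => (ap j)⁻¹ * g j t)
      (c := fun j => (ap j)⁻¹ * κ j) fun j _ => (hκ j).smul hH _
    have h2 := h1.mono hH hc fun t => by
      rw [← mul_one (F t)⁻¹, ← hgs t, mul_sum]
      refine sum_le_sum fun j _ => ?_
      by_cases h : g j t = 0
      · rw [h, mul_zero, mul_zero]
      · exact mul_le_mul_of_nonneg_right (inv_anti₀ (hm.trans_le (hb t).1) (hgF j t h).2)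
          (hg0 j t)
    refine le_trans (le_of_eq (sum_congr rfl fun j _ => ?_)) h2
    rw [div_eq_inv_mul]
  have hFlow : Low F := ⟨m, hm, hmF⟩
  have e1 := (hU.eventually_lt_const (show _ < ∑ j ∈ range (n + 1), κ j / am j + ε / 2 by
    linarith))
  have e2 := (hL.eventually_const_lt (show ∑ j ∈ range (n + 1), κ j / ap j - ε / 2 < _ by
    linarith))
  obtain ⟨B0, hB0⟩ := eventually_atTop.1 (e1.and (e2.and (X_pos k)))
  refine ⟨B0, fun B hB => ?_⟩
  obtain ⟨g1, g2, g3⟩ := hB0 B hB
  obtain ⟨F0, hF0⟩ := hH.cover (Φ := fun _ => m) ⟨m, hm, fun _ => le_rfl⟩ B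
  have hcov : ∀ Φ : T → ℝ, (∀ t, m ≤ Φ t) → ∀ t, H t * Φ t ≤ B → t ∈ F0 := fun Φ hΦ t ht =>
    hF0 t ((mul_le_mul_of_nonneg_left (hΦ t) (hH.pos t).le).trans ht)
  have k1 : S H (fun _ => 1) F B ≤ ∑ j ∈ range (n + 1), S H (g j) (fun _ => am j) B := by
    rw [S_eq (hcov F hmF), sum_congr rfl fun j _ => S_eq (hcov (fun _ => am j) fun _ => hamm j),
      sum_comm]
    refine sum_le_sum fun t _ => ?_
    by_cases h : H t * F t ≤ B
    · rw [if_pos h, ← hgs t]
      refine sum_le_sum fun j _ => ?_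
      by_cases h' : g j t = 0
      · rw [h']
        split_ifs <;> exact le_rfl
      · rw [if_pos ((mul_le_mul_of_nonneg_left (hgF j t h').1 (hH.pos t).le).trans h)]
    · rw [if_neg h]
      refine sum_nonneg fun j _ => ?_
      split_ifs
      · exact hg0 j t
      · exact le_rfl
  have k2 : ∑ j ∈ range (n + 1), S H (g j) (fun _ => ap j) B ≤ S H (fun _ => 1) F B := by
    rw [S_eq (hcov F hmF), sum_congr rfl fun j _ => S_eq (hcov (fun _ => ap j) fun _ => hapm j),
      sum_comm]
    refine sum_le_sum fun t _ => ?_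
    by_cases h : H t * F t ≤ B
    · rw [if_pos h, ← hgs t]
      refine sum_le_sum fun j _ => ?_
      split_ifs
      · exact le_rfl
      · exact hg0 j t
    · rw [if_neg h]
      refine (sum_eq_zero fun j _ => ?_).le
      by_cases h' : g j t = 0
      · rw [h']
        split_ifs <;> rfl
      · rw [if_neg fun h'' => h ((mul_le_mul_of_nonneg_left (hgF j t h').2
          (hH.pos t).le).trans h'')]
  have k3 := div_le_div_of_nonneg_right k1 g3.le
  have k4 := div_le_div_of_nonneg_right k2 g3.le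
  rw [Real.dist_eq, abs_lt]
  constructor <;> linarith

end

end Q265.EQ
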