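import Pool.Agent.Q265.EQ.B

/-! # Weighted sums for general heights -/

set_option autoImplicit false

open Filter Topology Finset

namespace Q265.EQ

variable {T : Type*} {H : T → ℝ} {k : ℕ} {G : Submonoid (T → ℝ)}

lemma Cl.of_mem {g : T → ℝ} (hg : g ∈ Algebra.adjoin ℝ (G : Set (T → ℝ))) : Cl G g :=
  fun ε hε => ⟨g, hg, fun t => by rw [sub_self, abs_zero]; exact hε.le⟩

lemma Cl.const (a : ℝ) : Cl G fun _ => a :=
  Cl.of_mem ((Algebra.adjoin ℝ (G : Set (T → ℝ))).algebraMap_mem a)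

lemma Cl.add {F F' : T → ℝ} (h : Cl G F) (h' : Cl G F') : Cl G fun t => F t + F' t := by
  intro ε hε
  obtain ⟨g, hg, h1⟩ := h (ε / 2) (by linarith)
  obtain ⟨g', hg', h2⟩ := h' (ε / 2) (by linarith)
  refine ⟨g + g', Subalgebra.add_mem _ hg hg', fun t => ?_⟩
  have e : F t + F' t - (g + g') t = (F t - g t) + (F' t - g' t) := by
    rw [Pi.add_apply]; ring
  rw [e]
  exact (abs_add_le _ _).trans (by linarith [h1 t, h2 t])

lemma Cl.mul (hH : IsHt H)
    (hG : ∀ g ∈ G, (∃ C : ℝ, ∀ t, |g t| ≤ C) ∧ ∃ c, HasLim H k g c) {F F' : T → ℝ}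
    (h : Cl G F) (h' : Cl G F') : Cl G fun t => F t * F' t := by
  intro ε hε
  obtain ⟨C, hC⟩ := h.bdd hH hG
  obtain ⟨C', hC'⟩ := h'.bdd hH hG
  set D := |C| + |C'| + 1 with hD
  have hC0 := abs_nonneg C
  have hC0' := abs_nonneg C'
  have hDp : 0 < D := by positivity
  obtain ⟨g, hg, h1⟩ := h (ε / (2 * D)) (by positivity)
  obtain ⟨g', hg', h2⟩ := h' (min (ε / (2 * D)) 1) (by positivity)
  refine ⟨g * g', Subalgebra.mul_mem _ hg hg', fun t => ?_⟩
  have h3 : |F' t - g' t| ≤ ε / (2 * D) := (h2 t).trans (min_le_left _ _)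
  have h4 : |F' t - g' t| ≤ 1 := (h2 t).trans (min_le_right _ _)
  have h5 : |g' t| ≤ D := by
    have := abs_sub_abs_le_abs_sub (g' t) (F' t)
    rw [abs_sub_comm] at this
    have := hC' t
    have := le_abs_self C'
    linarith
  have h6 : |F t| ≤ D := by
    have := hC t
    have := le_abs_self C
    linarith
  have e : F t * F' t - (g * g') t = F t * (F' t - g' t) + g' t * (F t - g t) := by
    rw [Pi.mul_apply]; ring
  rw [e]
  refine (abs_add_le _ _).trans ?_
  rw [abs_mul, abs_mul]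
  have h7 : |F t| * |F' t - g' t| ≤ D * (ε / (2 * D)) :=
    mul_le_mul h6 h3 (abs_nonneg _) hDp.le
  have h8 : |g' t| * |F t - g t| ≤ D * (ε / (2 * D)) :=
    mul_le_mul h5 (h1 t) (abs_nonneg _) hDp.le
  have h9 : D * (ε / (2 * D)) = ε / 2 := by field_simp
  linarith

/-- nonnegative weights -/
theorem Cl.count_pos (hH : IsHt H)
    (hG : ∀ g ∈ G, (∃ C : ℝ, ∀ t, |g t| ≤ C) ∧ ∃ c, HasLim H k g c) {F w : T → ℝ} (hF : Cl G F)
    (hlow : Low F) (hw : Cl G w) (hw0 : ∀ t, 0 ≤ w t) :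
    ∃ c, HasLim H k (fun t => w t * (F t)⁻¹) c ∧
      Tendsto (fun B => S H w F B / X k B) atTop (𝓝 c) := by
  classical
  obtain ⟨m, hm, hmF⟩ := hlow
  obtain ⟨M, hM⟩ := hF.bdd hH hG
  have hb : ∀ t, m ≤ F t ∧ F t ≤ max M m := fun t =>
    ⟨hmF t, ((le_abs_self _).trans (hM t)).trans (le_max_left _ _)⟩
  obtain ⟨c, hc⟩ := (hw.mul hH hG (hF.comp hH hG hb (h := fun x => x⁻¹)
    (continuousOn_id.inv₀ fun x hx => (hm.trans_le hx.1).ne'))).lim hH hG
  refine ⟨c, hc, ?_⟩
  obtain ⟨c1, hc1⟩ := hw.lim hH hG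
  have hc10 : 0 ≤ c1 := by
    refine ge_of_tendsto hc1 ?_
    filter_upwards [X_pos k] with B hB
    exact div_nonneg (S_nonneg hH low_one hw0 B) hB.le
  rw [Metric.tendsto_atTop]
  intro ε hε
  -- the mesh
  obtain ⟨δ, hδ, hδ2⟩ : ∃ δ : ℝ, 0 < δ ∧ 2 * δ / m ^ 2 * c1 < ε / 2 := by
    refine ⟨ε * m ^ 2 / (8 * (c1 + 1)), by positivity, ?_⟩
    have : 2 * (ε * m ^ 2 / (8 * (c1 + 1))) / m ^ 2 * c1 = ε / 4 * (c1 / (c1 + 1)) := by
      field_simp
      ring
    rw [this]
    have h1 : c1 / (c1 + 1) ≤ 1 := by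
      rw [div_le_one (by linarith)]
      linarith
    nlinarith
  obtain ⟨n, hn⟩ := exists_nat_ge ((max M m - m) / δ)
  set z : T → ℝ := fun t => (F t - m) / δ with hz
  have hz0 : ∀ t, 0 ≤ z t := fun t => div_nonneg (by linarith [(hb t).1]) hδ.le
  have hzn : ∀ t, z t ≤ n := fun t =>
    (div_le_div_of_nonneg_right (by linarith [(hb t).2]) hδ.le).trans hn
  set g : ℕ → T → ℝ := fun j t => w t * (cut (z t) j - cut (z t) (j + 1)) with hgdef
  have hg0 : ∀ j t, 0 ≤ g j t := fun j t => by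
    have := cut_anti (z t) j
    simp only [hgdef]
    exact mul_nonneg (hw0 t) (by linarith)
  have hgs : ∀ t, ∑ j ∈ range (n + 1), g j t = w t := fun t => by
    simp only [hgdef]
    rw [← mul_sum, sum_range_sub' (fun j => cut (z t) j), cut_zero (hz0 t), cut_big (hzn t),
      sub_zero, mul_one]
  have hglim : ∀ j, ∃ κ, HasLim H k (g j) κ := fun j => by
    have h1 : Cl G (g j) := by
      have := hF.comp hH hG hb (h := fun x => cut ((x - m) / δ) j - cut ((x - m) / δ) (j + 1))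
        (by
          refine Continuous.continuousOn (Continuous.sub ?_ ?_)
          · exact (cut_cont j).comp ((continuous_id.sub continuous_const).div_const δ)
          · exact (cut_cont (j + 1)).comp ((continuous_id.sub continuous_const).div_const δ))
      exact hw.mul hH hG this
    exact h1.lim hH hG
  choose κ hκ using hglim
  set am : ℕ → ℝ := fun j => max m (m + (j - 1) * δ) with ham
  set ap : ℕ → ℝ := fun j => m + (j + 1) * δ with hap
  have hamp : ∀ j, 0 < am j := fun j => hm.trans_le (le_max_left _ _)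
  have hamm : ∀ j, m ≤ am j := fun j => le_max_left _ _
  have hapm : ∀ j, m ≤ ap j := fun j => by
    simp only [hap]
    have : (0 : ℝ) ≤ (j + 1) * δ := by positivity
    linarith
  have happ : ∀ j, 0 < ap j := fun j => hm.trans_le (hapm j)
  have hgF : ∀ j t, g j t ≠ 0 → am j ≤ F t ∧ F t ≤ ap j := fun j t h => by
    obtain ⟨h1, h2⟩ := cut_ne (right_ne_zero_of_mul h)
    simp only [hz] at h1 h2
    rw [lt_div_iff₀ hδ] at h1
    rw [div_lt_iff₀ hδ] at h2
    refine ⟨max_le (hb t).1 (by linarith), ?_⟩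
    simp only [hap]
    linarith
  have hdiff : ∀ j, (am j)⁻¹ - (ap j)⁻¹ ≤ 2 * δ / m ^ 2 := fun j => by
    have h1 : ap j - am j ≤ 2 * δ := by
      simp only [hap, ham]
      have := le_max_right m (m + ((j : ℝ) - 1) * δ)
      linarith
    have h2 : (am j)⁻¹ - (ap j)⁻¹ = (ap j - am j) / (am j * ap j) := by
      have := (hamp j).ne'
      have := (happ j).ne'
      field_simp
    rw [h2]
    have h3 : m ^ 2 ≤ am j * ap j := by
      rw [sq]
      exact mul_le_mul (hamm j) (hapm j) hm.le (hamp j).le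
    exact div_le_div₀ (by linarith) h1 (by positivity) h3
  have hκ0 : ∀ j, 0 ≤ κ j := fun j => by
    refine ge_of_tendsto (hκ j) ?_
    filter_upwards [X_pos k] with B hB
    exact div_nonneg (S_nonneg hH low_one (hg0 j) B) hB.le
  have hκs : ∑ j ∈ range (n + 1), κ j = c1 := by
    have h1 := HasLim.sum (k := k) hH (range (n + 1)) (w := g) (c := κ) fun j _ => hκ j
    have h2 : (fun t => ∑ j ∈ range (n + 1), g j t) = w := by
      funext t
      exact hgs t
    rw [h2] at h1
    exact tendsto_nhds_unique h1 hc1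
  have hU : Tendsto (fun B => (∑ j ∈ range (n + 1), S H (g j) (fun _ => am j) B) / X k B) atTop
      (𝓝 (∑ j ∈ range (n + 1), κ j / am j)) := by
    simp_rw [sum_div]
    exact tendsto_finsetSum _ fun j _ => (hκ j).const (hamp j)
  have hL : Tendsto (fun B => (∑ j ∈ range (n + 1), S H (g j) (fun _ => ap j) B) / X k B) atTop
      (𝓝 (∑ j ∈ range (n + 1), κ j / ap j)) := by
    simp_rw [sum_div]
    exact tendsto_finsetSum _ fun j _ => (hκ j).const (happ j)
  have hUL : ∑ j ∈ range (n + 1), κ j / am j - ∑ j ∈ range (n + 1), κ j / ap j < ε / 2 := by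
    rw [← sum_sub_distrib]
    refine lt_of_le_of_lt ?_ hδ2
    rw [← hκs, mul_sum]
    refine sum_le_sum fun j _ => ?_
    have h1 := hdiff j
    have h2 := hκ0 j
    rw [div_eq_mul_inv, div_eq_mul_inv, ← mul_sub]
    nlinarith
  have hcU : c ≤ ∑ j ∈ range (n + 1), κ j / am j := by
    have h1 := HasLim.sum (k := k) hH (range (n + 1)) (w := fun j t => (am j)⁻¹ * g j t)
      (c := fun j => (am j)⁻¹ * κ j) fun j _ => (hκ j).smul hH _
    have h2 := hc.mono hH h1 fun t => by
      rw [← hgs t, sum_mul]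
      refine sum_le_sum fun j _ => ?_
      by_cases h : g j t = 0
      · rw [h, mul_zero, zero_mul]
      · rw [mul_comm]
        exact mul_le_mul_of_nonneg_right (inv_anti₀ (hamp j) (hgF j t h).1) (hg0 j t)
    refine h2.trans (le_of_eq (sum_congr rfl fun j _ => ?_))
    rw [div_eq_inv_mul]
  have hcL : ∑ j ∈ range (n + 1), κ j / ap j ≤ c := by
    have h1 := HasLim.sum (k := k) hH (range (n + 1)) (w := fun j t => (ap j)⁻¹ * g j t)
      (c := fun j => (ap j)⁻¹ * κ j) fun j _ => (hκ j).smul hH _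
    have h2 := h1.mono hH hc fun t => by
      rw [← hgs t, sum_mul]
      refine sum_le_sum fun j _ => ?_
      by_cases h : g j t = 0
      · rw [h, mul_zero, zero_mul]
      · rw [mul_comm (g j t)]
        exact mul_le_mul_of_nonneg_right (inv_anti₀ (hm.trans_le (hb t).1) (hgF j t h).2)
          (hg0 j t)
    refine le_trans (le_of_eq (sum_congr rfl fun j _ => ?_)) h2
    rw [div_eq_inv_mul]
  have hFlow : Low F := ⟨m, hm, hmF⟩
  have e1 := (hU.eventually_lt_const (show _ < ∑ j ∈ range (n + 1), κ j / am j + ε / 2 by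
    linarith))
  have e2 := (hL.eventually_const_lt (show ∑ j ∈ range (n + 1), κ j / ap j - ε / 2 < _ by
    linarith))
  obtain ⟨B0, hB0⟩ := eventually_atTop.1 (e1.and (e2.and (X_pos k)))
  refine ⟨B0, fun B hB => ?_⟩
  obtain ⟨g1, g2, g3⟩ := hB0 B hB
  obtain ⟨F0, hF0⟩ := hH.cover (Φ := fun _ => m) ⟨m, hm, fun _ => le_rfl⟩ B
  have hcov : ∀ Φ : T → ℝ, (∀ t, m ≤ Φ t) → ∀ t, H t * Φ t ≤ B → t ∈ F0 := fun Φ hΦ t ht =>
    hF0 t ((mul_le_mul_of_nonneg_left (hΦ t) (hH.pos t).le).trans ht)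
  have k1 : S H w F B ≤ ∑ j ∈ range (n + 1), S H (g j) (fun _ => am j) B := by
    rw [S_eq (hcov F hmF), sum_congr rfl fun j _ => S_eq (hcov (fun _ => am j) fun _ => hamm j),
      sum_comm]
    refine sum_le_sum fun t _ => ?_
    by_cases h : H t * F t ≤ B
    · rw [if_pos h, ← hgs t]
      refine sum_le_sum fun j _ => ?_
      by_cases h' : g j t = 0
      · rw [h']
        split_ifs <;> exact le_rfl
      · rw [if_pos ((mul_le_mul_of_nonneg_left (hgF j t h').1 (hH.pos t).le).trans h)]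
    · rw [if_neg h]
      refine sum_nonneg fun j _ => ?_
      split_ifs
      · exact hg0 j t
      · exact le_rfl
  have k2 : ∑ j ∈ range (n + 1), S H (g j) (fun _ => ap j) B ≤ S H w F B := by
    rw [S_eq (hcov F hmF), sum_congr rfl fun j _ => S_eq (hcov (fun _ => ap j) fun _ => hapm j),
      sum_comm]
    refine sum_le_sum fun t _ => ?_
    by_cases h : H t * F t ≤ B
    · rw [if_pos h, ← hgs t]
      refine sum_le_sum fun j _ => ?_
      split_ifs
      · exact le_rfl
      · exact hg0 j t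
    · rw [if_neg h]
      refine (sum_eq_zero fun j _ => ?_).le
      by_cases h' : g j t = 0
      · rw [h']
        split_ifs <;> rfl
      · rw [if_neg fun h'' => h ((mul_le_mul_of_nonneg_left (hgF j t h').2
          (hH.pos t).le).trans h'')]
  have k3 := div_le_div_of_nonneg_right k1 g3.le
  have k4 := div_le_div_of_nonneg_right k2 g3.le
  rw [Real.dist_eq, abs_lt]
  constructor <;> linarith

/-- **The weighted sums over the points with `H F ≤ B`.** -/
theorem Cl.countw (hH : IsHt H)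
    (hG : ∀ g ∈ G, (∃ C : ℝ, ∀ t, |g t| ≤ C) ∧ ∃ c, HasLim H k g c) {F w : T → ℝ} (hF : Cl G F)
    (hlow : Low F) (hw : Cl G w) :
    ∃ c, HasLim H k (fun t => w t * (F t)⁻¹) c ∧
      Tendsto (fun B => S H w F B / X k B) atTop (𝓝 c) := by
  obtain ⟨C, hC⟩ := hw.bdd hH hG
  obtain ⟨c1, h1, h2⟩ := Cl.count_pos hH hG hF hlow (w := fun t => w t + |C|) (hw.add (Cl.const _))
    fun t => by
      have h3 := abs_le.1 (hC t)
      have h4 := le_abs_self C
      linarith [h3.1]
  obtain ⟨c2, h3, h4⟩ := Cl.count_pos hH hG hF hlow (w := fun _ => |C|) (Cl.const _)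
    fun t => abs_nonneg _
  refine ⟨c1 - c2, ?_, ?_⟩
  · have h5 := h1.sub hH h3
    have h6 : (fun t => (w t + |C|) * (F t)⁻¹ - |C| * (F t)⁻¹) = fun t => w t * (F t)⁻¹ := by
      funext t
      ring
    rwa [h6] at h5
  · refine (h2.sub h4).congr fun B => ?_
    rw [← sub_div, ← S_sub hH hlow]
    congr 2
    funext t
    ring

end Q265.EQ
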