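import Pool.Agent.Q265.EQ.B2
import Pool.Agent.Y714.KE.All

/-! # Equidistribution of the rational points of the varieties `V_A` -/

set_option autoImplicit false
set_option linter.unusedSectionVars false

open Filter Topology Finset NumberField ComplexConjugate

namespace Q265.EQ

open Pool.Agent.Y714.KE
open Pool.Agent.Y714.KF (FI sp ct nm pm ext br gl ubas qf bk el sg bf)

section

variable {s : Type} [Fintype s] [DecidableEq s] (K : s → Type) [∀ i, Field (K i)]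
  [∀ i, NumberField (K i)]

/-- the points -/
abbrev Pt : Type := {C : Set (Al K × Al K) // ∃ P, ND P ∧ C = {P' | Eq2 P P'}}

variable {K}

/-- a representative -/
noncomputable def rep (x : Pt K) : Al K × Al K := x.2.choose

lemma rep_nd (x : Pt K) : ND (rep x) := x.2.choose_spec.1

lemma rep_eq (x : Pt K) : x.1 = {P' | Eq2 (rep x) P'} := x.2.choose_spec.2

lemma mem_iff {x : Pt K} {P : Al K × Al K} : P ∈ x.1 ↔ Eq2 (rep x) P := by
  rw [rep_eq]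
  exact Iff.rfl

lemma rep_mem (x : Pt K) : rep x ∈ x.1 := mem_iff.2 (Pool.Agent.Y977.KE.E.refl _)

/-- the class of a pair -/
def cls (P : Al K × Al K) (h : ND P) : Pt K := ⟨{P' | Eq2 P P'}, P, h, rfl⟩

lemma mem_cls {P : Al K × Al K} (h : ND P) : P ∈ (cls P h).1 := Pool.Agent.Y977.KE.E.refl _

/-- the height of a point -/
noncomputable def hgt (x : Pt K) : ℝ := sInf {r : ℝ | ∃ P ∈ x.1, r = hp P}

lemma hgt_eq (x : Pt K) : hgt x = ht (rep x) := by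
  unfold hgt ht
  congr 1
  ext r
  constructor
  · rintro ⟨P, hP, rfl⟩
    obtain ⟨y, a, b, c, d, hy, hd, rfl⟩ := mem_iff.1 hP
    exact ⟨a, b, c, d, hd, Pool.Agent.Y977.KE.hp_sm hy⟩
  · rintro ⟨a, b, c, d, hd, rfl⟩
    exact ⟨glq a b c d (rep x), mem_iff.2 (Pool.Agent.Y977.KE.E.gl _ hd), rfl⟩

variable (K) in
lemma hDESC : S_DESC K :=
  Pool.Agent.Y681.KE.desc (Pool.Agent.Y681.KE.hb (Pool.Agent.Y421.KE.cls K)
    Pool.Agent.Y259.KE.idx) Pool.Agent.Y195.KE.nbr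

variable (K) in
lemma hHT : S_HT K := Pool.Agent.Y977.KE.ht K (hDESC K) Pool.Agent.Y195.KE.uni

lemma hgt_of_mem (hodd : Odd (dg K)) (hn : 5 ≤ dg K) {x : Pt K} {P : Al K × Al K}
    (hP : P ∈ x.1) : hgt x = ht P := by
  rw [hgt_eq]
  exact (((hHT K) hodd (by omega)).2 _ _ (rep_nd x) (mem_iff.1 hP)).2.symm

lemma hgt_pos (hodd : Odd (dg K)) (hn : 5 ≤ dg K) (x : Pt K) : 0 < hgt x := by
  obtain ⟨Q, hQ, ⟨a, b, c, d, hd, he⟩, -⟩ := (hDESC K) hodd (by omega) _ (rep_nd x)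
  have hE : Eq2 (rep x) Q := by rw [he]; exact Pool.Agent.Y977.KE.E.gl _ hd
  have hN := Pool.Agent.Y977.KE.E.nd hE (rep_nd x)
  rw [hgt_of_mem hodd hn (mem_iff.2 hE), ((hHT K) hodd (by omega)).1 Q hN hQ]
  unfold hp
  have g1 : (0 : ℝ) < ((nA (cn Q) : ℚ) : ℝ) := by
    exact_mod_cast nA_pos (cn_ne fun i => hN.ne (by omega) i)
  exact div_pos (hN.pm_pos (by omega)) (by positivity)

/-- counting -/
lemma count_eq (Φ : Pt K → ℝ) (ψ : Al K × Al K → ℝ) (h : ∀ x, Φ x = ψ (rep x))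
    (hinv : ∀ P P', ND P → Eq2 P P' → ht P' * ψ P' = ht P * ψ P) (B : ℝ) :
    {x : Pt K | hgt x * Φ x ≤ B}.ncard = {C : Set (Al K × Al K) | ∃ P, ND P ∧
      C = {P' | Eq2 P P'} ∧ ht P * ψ P ≤ B}.ncard := by
  have : {C : Set (Al K × Al K) | ∃ P, ND P ∧ C = {P' | Eq2 P P'} ∧ ht P * ψ P ≤ B} =
      Subtype.val '' {x : Pt K | hgt x * Φ x ≤ B} := by
    ext C
    constructor
    · rintro ⟨P, hP, rfl, hB⟩
      refine ⟨cls P hP, ?_, rfl⟩
      show hgt (cls P hP) * Φ (cls P hP) ≤ B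
      rw [hgt_eq, h]
      have := hinv _ _ (rep_nd (cls P hP)) (mem_iff.1 (mem_cls hP))
      rwa [← this]
    · rintro ⟨x, hx, rfl⟩
      have hx' : hgt x * Φ x ≤ B := hx
      rw [hgt_eq, h] at hx'
      exact ⟨rep x, rep_nd x, rep_eq x, hx'⟩
  rw [this]
  exact (Set.ncard_image_of_injective _ Subtype.val_injective).symm

lemma htinv (hodd : Odd (dg K)) (hn : 5 ≤ dg K) {S : Finset ℕ} {ψ : (Em K → ℂ × ℂ) → ℝ}
    {φ : ℕ → Al K × Al K → ℝ} (hψ : RFac ψ) (hφ : ∀ p ∈ S, PFac p (φ p)) :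
    ∀ P P', ND P → Eq2 P P' → ht P' * (ψ (vc P') * ∏ p ∈ S, φ p P') =
      ht P * (ψ (vc P) * ∏ p ∈ S, φ p P) := fun P P' hP h => by
  rw [fac_eq2 (by omega) hψ hφ hP h, (((hHT K) hodd (by omega)).2 _ _ hP h).2]

lemma hgt_fin (hodd : Odd (dg K)) (hn : 5 ≤ dg K) (R : ℝ) : {x : Pt K | hgt x ≤ R}.Finite := by
  obtain ⟨c, hc, hlim⟩ := Pool.Agent.Y714.KE.final K hodd hn ∅ (by simp) (fun _ => 1) rfac_one
    (fun _ _ => 1) (by simp)
  have h1 := hlim.eventually_const_lt hc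
  obtain ⟨B, hB, hRB⟩ := (h1.and (eventually_ge_atTop R)).exists
  have h2 := count_eq (K := K) (fun _ => 1) (fun P => (fun _ => (1 : ℝ)) (vc P) *
    ∏ p ∈ (∅ : Finset ℕ), (fun _ _ => (1 : ℝ)) p P) (fun x => by simp)
    (htinv hodd hn rfac_one (by simp)) B
  rw [← h2] at hB
  have h3 : {x : Pt K | hgt x * 1 ≤ B}.ncard ≠ 0 := by
    intro h
    rw [h, Nat.cast_zero, zero_div] at hB
    exact lt_irrefl _ hB
  have h4 := Set.finite_of_ncard_ne_zero h3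
  refine h4.subset fun x hx => ?_
  have : hgt x ≤ R := hx
  show hgt x * 1 ≤ B
  linarith

lemma isHt (hodd : Odd (dg K)) (hn : 5 ≤ dg K) : IsHt (hgt (K := K)) :=
  ⟨hgt_pos hodd hn, hgt_fin hodd hn⟩

/-! ## test functions -/

/-- `p`-adic test functions -/
def PTst (p : ℕ) (φ : Al K × Al K → ℝ) : Prop :=
  (∃ M : ℝ, ∀ P, ND P → |φ P| ≤ M) ∧
  (∀ P P', ND P → Eq2 P P' → φ P' = φ P) ∧
  ∀ ε : ℝ, 0 < ε → ∃ k : ℕ, ∀ P P' : Al K × Al K, ND P → ND P' → RDAt p P →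
    (∀ i, P'.1 i - P.1 i ∈ sp (p : K i) ^ k * cn P i) →
    (∀ i, P'.2 i - P.2 i ∈ sp (p : K i) ^ k * cn P i) → |φ P' - φ P| ≤ ε

/-- archimedean test functions -/
def RTst (ψ : (Em K → ℂ × ℂ) → ℝ) : Prop :=
  (∃ M : ℝ, ∀ v, SYM v → 0 < pm v → |ψ v| ≤ M) ∧
  ContinuousOn ψ {v | SYM v ∧ 0 < pm v} ∧
  (∀ v, SYM v → 0 < pm v → ∀ a : Em K → ℂ, (∀ e, a e ≠ 0) →
    (∀ (i : s) (σ : K i →+* ℂ), a ⟨i, ComplexEmbedding.conjugate σ⟩ = conj (a ⟨i, σ⟩)) →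
    ψ (fun e => a e • v e) = ψ v) ∧
  (∀ v, SYM v → 0 < pm v → ∀ a b c d : ℝ, a * d - b * c ≠ 0 →
    ψ (fun e => gl a b c d (v e)) = ψ v)

lemma PTst.mul {p : ℕ} {φ φ' : Al K × Al K → ℝ} (h : PTst p φ) (h' : PTst p φ') :
    PTst p fun P => φ P * φ' P := by
  obtain ⟨⟨M, hM⟩, h2, h3⟩ := h
  obtain ⟨⟨M', hM'⟩, h2', h3'⟩ := h'
  refine ⟨⟨M * M', fun P hP => ?_⟩, fun P P' hP hE => ?_, fun ε hε => ?_⟩
  · rw [abs_mul]
    exact mul_le_mul (hM P hP) (hM' P hP) (abs_nonneg _) ((abs_nonneg _).trans (hM P hP))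
  · show φ P' * φ' P' = φ P * φ' P
    rw [h2 P P' hP hE, h2' P P' hP hE]
  · set D := |M| + |M'| + 1
    have hD : 0 < D := by positivity
    obtain ⟨k, hk⟩ := h3 (ε / (2 * D)) (by positivity)
    obtain ⟨k', hk'⟩ := h3' (ε / (2 * D)) (by positivity)
    have hmono : ∀ (P : Al K × Al K) (i : s) (a b : ℕ), a ≤ b → ∀ y : K i,
        y ∈ sp (p : K i) ^ b * cn P i → y ∈ sp (p : K i) ^ a * cn P i := by
      intro P i a b hab y hy
      obtain ⟨c, rfl⟩ := Nat.exists_eq_add_of_le hab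
      have h1 : sp (p : K i) ^ c ≤ 1 := by
        have e : sp (p : K i) ^ c = sp (((p : K i)) ^ c) := by
          unfold Pool.Agent.Y714.KF.sp
          rw [FractionalIdeal.spanSingleton_pow]
        rw [e]
        unfold Pool.Agent.Y714.KF.sp
        rw [FractionalIdeal.spanSingleton_le_iff_mem]
        rw [FractionalIdeal.mem_one_iff]
        exact ⟨(p : 𝓞 (K i)) ^ c, by simp⟩
      have h2 : sp (p : K i) ^ (a + c) * cn P i ≤ sp (p : K i) ^ a * cn P i := by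
        rw [pow_add]
        calc sp (p : K i) ^ a * sp (p : K i) ^ c * cn P i
            ≤ sp (p : K i) ^ a * 1 * cn P i := by gcongr
          _ = sp (p : K i) ^ a * cn P i := by rw [mul_one]
      exact h2 hy
    refine ⟨max k k', fun P P' hP hP' hR h4 h5 => ?_⟩
    have g1 := hk P P' hP hP' hR (fun i => hmono P i k _ (le_max_left _ _) _ (h4 i))
      (fun i => hmono P i k _ (le_max_left _ _) _ (h5 i))
    have g2 := hk' P P' hP hP' hR (fun i => hmono P i k' _ (le_max_right _ _) _ (h4 i))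
      (fun i => hmono P i k' _ (le_max_right _ _) _ (h5 i))
    have e : φ P' * φ' P' - φ P * φ' P = φ P' * (φ' P' - φ' P) + φ' P * (φ P' - φ P) := by ring
    have g3 : |φ P'| ≤ D := (hM P' hP').trans (by
      have := le_abs_self M
      have := abs_nonneg M'
      linarith)
    have g4 : |φ' P| ≤ D := (hM' P hP).trans (by
      have := le_abs_self M'
      have := abs_nonneg M
      linarith)
    show |φ P' * φ' P' - φ P * φ' P| ≤ ε
    rw [e]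
    refine (abs_add_le _ _).trans ?_
    rw [abs_mul, abs_mul]
    have h7 : |φ P'| * |φ' P' - φ' P| ≤ D * (ε / (2 * D)) :=
      mul_le_mul g3 g2 (abs_nonneg _) hD.le
    have h8 : |φ' P| * |φ P' - φ P| ≤ D * (ε / (2 * D)) :=
      mul_le_mul g4 g1 (abs_nonneg _) hD.le
    have h9 : D * (ε / (2 * D)) = ε / 2 := by field_simp
    linarith

lemma cont_bd {h : ℝ → ℝ} (hh : Continuous h) (M : ℝ) : ∃ M' : ℝ, ∀ x, |x| ≤ M → |h x| ≤ M' := by
  obtain ⟨C, hC⟩ := (isCompact_Icc (a := -M) (b := M)).exists_bound_of_continuousOn hh.continuousOn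
  exact ⟨C, fun x hx => by
    have := hC x (abs_le.1 hx)
    rwa [Real.norm_eq_abs] at this⟩

lemma PTst.comp {p : ℕ} {φ : Al K × Al K → ℝ} (h : PTst p φ) {g : ℝ → ℝ} (hg : Continuous g) :
    PTst p fun P => g (φ P) := by
  obtain ⟨⟨M, hM⟩, h2, h3⟩ := h
  obtain ⟨M', hM'⟩ := cont_bd hg M
  refine ⟨⟨M', fun P hP => hM' _ (hM P hP)⟩, fun P P' hP hE => ?_, fun ε hε => ?_⟩
  · show g (φ P') = g (φ P)
    rw [h2 P P' hP hE]
  · have huc := (isCompact_Icc (a := -M) (b := M)).uniformContinuousOn_of_continuous hg.continuousOn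
    rw [Metric.uniformContinuousOn_iff] at huc
    obtain ⟨δ, hδ, h4⟩ := huc ε hε
    obtain ⟨k, hk⟩ := h3 (δ / 2) (by linarith)
    refine ⟨k, fun P P' hP hP' hR h5 h6 => ?_⟩
    have h7 := hk P P' hP hP' hR h5 h6
    have h8 := h4 _ (abs_le.1 (hM P' hP')) _ (abs_le.1 (hM P hP)) (by
      rw [Real.dist_eq]
      linarith)
    rw [Real.dist_eq] at h8
    exact h8.le

lemma RTst.mul {ψ ψ' : (Em K → ℂ × ℂ) → ℝ} (h : RTst ψ) (h' : RTst ψ') :
    RTst fun v => ψ v * ψ' v := by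
  obtain ⟨⟨M, hM⟩, h2, h3, h4⟩ := h
  obtain ⟨⟨M', hM'⟩, h2', h3', h4'⟩ := h'
  refine ⟨⟨M * M', fun v hv hv' => ?_⟩, h2.mul h2', fun v hv hv' a ha ha' => ?_,
    fun v hv hv' a b c d hd => ?_⟩
  · rw [abs_mul]
    exact mul_le_mul (hM v hv hv') (hM' v hv hv') (abs_nonneg _)
      ((abs_nonneg _).trans (hM v hv hv'))
  · show ψ _ * ψ' _ = ψ v * ψ' v
    rw [h3 v hv hv' a ha ha', h3' v hv hv' a ha ha']
  · show ψ _ * ψ' _ = ψ v * ψ' v
    rw [h4 v hv hv' a b c d hd, h4' v hv hv' a b c d hd]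

lemma RTst.comp {ψ : (Em K → ℂ × ℂ) → ℝ} (h : RTst ψ) {g : ℝ → ℝ} (hg : Continuous g) :
    RTst fun v => g (ψ v) := by
  obtain ⟨⟨M, hM⟩, h2, h3, h4⟩ := h
  obtain ⟨M', hM'⟩ := cont_bd hg M
  refine ⟨⟨M', fun v hv hv' => hM' _ (hM v hv hv')⟩, hg.comp_continuousOn h2,
    fun v hv hv' a ha ha' => ?_, fun v hv hv' a b c d hd => ?_⟩
  · show g (ψ _) = g (ψ v)
    rw [h3 v hv hv' a ha ha']
  · show g (ψ _) = g (ψ v)
    rw [h4 v hv hv' a b c d hd]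

/-- the functions of the points at the place `v` -/
def AA (v : Option ℕ) : Set (Pt K → ℝ) :=
  match v with
  | none => {f | ∃ ψ : (Em K → ℂ × ℂ) → ℝ, RTst ψ ∧ ∀ x, f x = ψ (vc (rep x))}
  | some p => {f | ∃ φ : Al K × Al K → ℝ, PTst p φ ∧ ∀ x, f x = φ (rep x)}

lemma isAlg (hn : 2 ≤ dg K) (v : Option ℕ) : IsAlg (AA (K := K) v) := by
  cases v with
  | none =>
    refine ⟨?_, ?_, ?_⟩
    · rintro f ⟨ψ, h1, h2⟩ g ⟨ψ', h1', h2'⟩
      exact ⟨_, h1.mul h1', fun x => by show f x * g x = _; rw [h2, h2']⟩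
    · rintro h hh f ⟨ψ, h1, h2⟩
      exact ⟨_, h1.comp hh, fun x => by show h (f x) = _; rw [h2]⟩
    · rintro f ⟨ψ, h1, h2⟩
      obtain ⟨M, hM⟩ := h1.1
      exact ⟨M, fun x => by rw [h2]; exact hM _ (SYM_vc _) ((rep_nd x).pm_pos hn)⟩
  | some p =>
    refine ⟨?_, ?_, ?_⟩
    · rintro f ⟨ψ, h1, h2⟩ g ⟨ψ', h1', h2'⟩
      exact ⟨_, h1.mul h1', fun x => by show f x * g x = _; rw [h2, h2']⟩
    · rintro h hh f ⟨ψ, h1, h2⟩
      exact ⟨_, h1.comp hh, fun x => by show h (f x) = _; rw [h2]⟩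
    · rintro f ⟨ψ, h1, h2⟩
      obtain ⟨M, hM⟩ := h1.1
      exact ⟨M, fun x => by rw [h2]; exact hM _ (rep_nd x)⟩

lemma real_low {f : Pt K → ℝ} (hf : f ∈ AA (K := K) none) (hl : Low f) :
    ∃ ψ : (Em K → ℂ × ℂ) → ℝ, RFac ψ ∧ ∀ x, f x = ψ (vc (rep x)) := by
  obtain ⟨ψ, h1, h2⟩ := hf
  obtain ⟨m, hm, hmf⟩ := hl
  have h3 := h1.comp (g := fun x => max x m) (by fun_prop)
  obtain ⟨⟨M, hM⟩, h4, h5, h6⟩ := h3
  refine ⟨fun v => max (ψ v) m, ⟨⟨m, M, hm, fun v hv hv' => ⟨le_max_right _ _, ?_⟩⟩, h4, h5, h6⟩,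
    fun x => ?_⟩
  · exact (le_abs_self _).trans (hM v hv hv')
  · show f x = max (ψ (vc (rep x))) m
    rw [h2, max_eq_left]
    rw [← h2]
    exact hmf x

lemma padic_low {p : ℕ} {f : Pt K → ℝ} (hf : f ∈ AA (K := K) (some p)) (hl : Low f) :
    ∃ φ : Al K × Al K → ℝ, PFac p φ ∧ ∀ x, f x = φ (rep x) := by
  obtain ⟨φ, h1, h2⟩ := hf
  obtain ⟨m, hm, hmf⟩ := hl
  have h3 := h1.comp (g := fun x => max x m) (by fun_prop)
  obtain ⟨⟨M, hM⟩, h4, h5⟩ := h3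
  refine ⟨fun P => max (φ P) m, ⟨⟨m, M, hm, fun P hP => ⟨le_max_right _ _, ?_⟩⟩, h4, h5⟩,
    fun x => ?_⟩
  · exact (le_abs_self _).trans (hM P hP)
  · show f x = max (φ (rep x)) m
    rw [h2, max_eq_left]
    rw [← h2]
    exact hmf x

/-- the counting functions for the products -/
theorem prod_count (hodd : Odd (dg K)) (hn : 5 ≤ dg K) {S : Finset ℕ} (hS : ∀ p ∈ S, p.Prime)
    (Φ : Option ℕ → Pt K → ℝ) (hΦ : ∀ v ∈ S.insertNone, Φ v ∈ AA (K := K) v ∧ Low (Φ v)) :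
    ∃ c : ℝ, 0 < c ∧ Tendsto (fun B => Q265.EQ.S (hgt (K := K)) (fun _ => 1)
      (fun t => ∏ v ∈ S.insertNone, Φ v t) B / X (Fintype.card s - 1) B) atTop (𝓝 c) := by
  classical
  obtain ⟨ψ, hψ, hψ2⟩ := real_low (hΦ none (by simp)).1 (hΦ none (by simp)).2
  have h1 : ∀ p : ℕ, ∃ φ : Al K × Al K → ℝ, p ∈ S → PFac p φ ∧ ∀ x, Φ (some p) x = φ (rep x) := by
    intro p
    by_cases hp : p ∈ S
    · obtain ⟨φ, hφ, hφ2⟩ := padic_low (hΦ (some p) (by simpa using hp)).1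
        (hΦ (some p) (by simpa using hp)).2
      exact ⟨φ, fun _ => ⟨hφ, hφ2⟩⟩
    · exact ⟨fun _ => 0, fun h => absurd h hp⟩
  choose φ hφ using h1
  obtain ⟨c, hc, hlim⟩ := Pool.Agent.Y714.KE.final K hodd hn S hS ψ hψ φ (fun p hp => (hφ p hp).1)
  refine ⟨c, hc, hlim.congr fun B => ?_⟩
  have hlow : Low fun t => ∏ v ∈ S.insertNone, Φ v t := low_prod fun v hv => (hΦ v hv).2
  rw [S_one (isHt hodd hn) hlow]
  unfold X
  congr 1
  rw [count_eq (K := K) (fun t => ∏ v ∈ S.insertNone, Φ v t)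
    (fun P => ψ (vc P) * ∏ p ∈ S, φ p P) (fun x => ?_)
    (htinv hodd hn hψ fun p hp => (hφ p hp).1) B]
  rw [prod_insertNone, hψ2]
  congr 1
  exact prod_congr rfl fun p hp => (hφ p hp).2 x

/-- the products of functions at the places -/
def GG (S : Finset ℕ) : Submonoid (Pt K → ℝ) where
  carrier := {g | ∃ f : Option ℕ → Pt K → ℝ, (∀ v ∈ S.insertNone, f v ∈ AA (K := K) v) ∧
    ∀ t, g t = ∏ v ∈ S.insertNone, f v t}
  one_mem' := by
    refine ⟨fun _ _ => 1, fun v _ => ?_, fun t => by simp⟩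
    cases v with
    | none => exact ⟨fun _ => 1, ⟨⟨1, fun _ _ _ => by simp⟩, continuousOn_const,
        fun _ _ _ _ _ _ => rfl, fun _ _ _ _ _ _ _ _ => rfl⟩, fun _ => rfl⟩
    | some p => exact ⟨fun _ => 1, ⟨⟨1, fun _ _ => by simp⟩, fun _ _ _ _ => rfl,
        fun ε hε => ⟨0, fun _ _ _ _ _ _ _ => by simpa using hε.le⟩⟩, fun _ => rfl⟩
  mul_mem' := by
    rintro g g' ⟨f, hf, hg⟩ ⟨f', hf', hg'⟩
    refine ⟨fun v t => f v t * f' v t, fun v hv => ?_, fun t => ?_⟩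
    · have h1 := hf v hv
      have h2 := hf' v hv
      cases v with
      | none =>
        obtain ⟨ψ, a1, a2⟩ := h1
        obtain ⟨ψ', a1', a2'⟩ := h2
        exact ⟨_, a1.mul a1', fun x => by show f none x * f' none x = _; rw [a2, a2']⟩
      | some p =>
        obtain ⟨ψ, a1, a2⟩ := h1
        obtain ⟨ψ', a1', a2'⟩ := h2
        exact ⟨_, a1.mul a1', fun x => by show f (some p) x * f' (some p) x = _; rw [a2, a2']⟩
    · rw [Pi.mul_apply, hg, hg', prod_mul_distrib]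

lemma prod_bdd {ι : Type*} [DecidableEq ι] {T : Type*} {A : ι → Set (T → ℝ)} {Sf : Finset ι}
    (hA : ∀ v ∈ Sf, IsAlg (A v)) {f : ι → T → ℝ} (hf : ∀ v ∈ Sf, f v ∈ A v) :
    ∃ C : ℝ, ∀ t, |∏ v ∈ Sf, f v t| ≤ C := by
  induction Sf using Finset.induction_on with
  | empty => exact ⟨1, fun t => by simp⟩
  | insert v s hv ih =>
    obtain ⟨C, hC⟩ := ih (fun u hu => hA u (mem_insert_of_mem hu))
      fun u hu => hf u (mem_insert_of_mem hu)
    obtain ⟨C', hC'⟩ := (hA v (mem_insert_self _ _)).bdd _ (hf v (mem_insert_self _ _))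
    refine ⟨C' * C, fun t => ?_⟩
    rw [prod_insert hv, abs_mul]
    exact mul_le_mul (hC' t) (hC t) (abs_nonneg _) ((abs_nonneg _).trans (hC' t))

theorem hGG (hodd : Odd (dg K)) (hn : 5 ≤ dg K) {S : Finset ℕ} (hS : ∀ p ∈ S, p.Prime) :
    ∀ g ∈ GG (K := K) S, (∃ C : ℝ, ∀ t, |g t| ≤ C) ∧
      ∃ c, HasLim (hgt (K := K)) (Fintype.card s - 1) g c := by
  rintro g ⟨f, hf, hg⟩
  have e : g = fun t => ∏ v ∈ S.insertNone, f v t := funext hg
  rw [e]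
  refine ⟨prod_bdd (fun v _ => isAlg (by omega) v) hf, ?_⟩
  refine prod_all (isHt hodd hn) (fun v _ => isAlg (by omega) v) (fun Φ hΦ => ?_) hf
  obtain ⟨c, -, h⟩ := prod_count hodd hn hS Φ hΦ
  exact ⟨c, h⟩

theorem one_pos_lim (hodd : Odd (dg K)) (hn : 5 ≤ dg K) :
    ∃ c : ℝ, 0 < c ∧ HasLim (hgt (K := K)) (Fintype.card s - 1) (fun _ => 1) c := by
  obtain ⟨c, hc, h⟩ := prod_count (K := K) hodd hn (S := ∅) (by simp) (fun _ _ => 1) (fun v _ => by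
    refine ⟨?_, low_one⟩
    cases v with
    | none => exact ⟨fun _ => 1, ⟨⟨1, fun _ _ _ => by simp⟩, continuousOn_const,
        fun _ _ _ _ _ _ => rfl, fun _ _ _ _ _ _ _ _ => rfl⟩, fun _ => rfl⟩
    | some p => exact ⟨fun _ => 1, ⟨⟨1, fun _ _ => by simp⟩, fun _ _ _ _ => rfl,
        fun ε hε => ⟨0, fun _ _ _ _ _ _ _ => by simpa using hε.le⟩⟩, fun _ => rfl⟩)
  refine ⟨c, hc, ?_⟩
  unfold HasLim
  simpa using h

end

end Q265.EQ
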