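import Pool.Agent.Y714.KE.All

/-! # Lower bounds for the number of points near a given point: one cell -/

set_option autoImplicit false
set_option linter.unusedSectionVars false
set_option linter.unusedVariables false

namespace Q265.EQ

open Pool.Agent.Y714.KF (FI sp ct nm pm ext br gl ubas qf bk el sg bf rc sg_rc sg_add sg_smul
  bf_comb2 continuous_sg sg_ne continuous_br continuous_pm pm_pos br_gl pm_gl red_exists)
open Pool.Agent.Y714.KE
open Pool.Agent.Y455.KF (null_ker)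
open Pool.Agent.Y179.KF (mt mt_null)
open Pool.Agent.Y891.KE (Ub D2 isOpen_Ub exists_move null_D2 rw2_mt rw2_D2)
open Pool.Agent.Y500.KE (dn dn_compl fin_of_bdd card_ix prod_exp nd_scl Dm_subset Dm_anti)
open NumberField FractionalIdeal Module Finset ComplexConjugate MeasureTheory Filter Topology
open scoped nonZeroDivisors

variable {s : Type} [Fintype s] [DecidableEq s] {K : s → Type} [∀ i, Field (K i)]
  [∀ i, NumberField (K i)]

/-- the region meets every open set of classes in positive volume -/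
theorem vol_open (h1 : S_BRN K) (hodd : Odd (dg K)) (hn : 3 ≤ dg K) (b : Bs K) (κ : Ux K → ℝ)
    (i₀ : s) (hnull : ∀ δ : ℝ, 0 < δ → volume (closure (Dc b κ i₀ δ) \ Dm b κ i₀ δ) = 0)
    (W : Set (Ix K ⊕ Ix K → ℝ)) (hW : IsOpen W) (hWne : W.Nonempty) (hWU : W ⊆ Ub b)
    (hinv : ∀ u ∈ W, ∀ (v : ∀ i, (𝓞 (K i))ˣ) (q : s → ℤ) (m n k l : ℤ),
      (m * l - n * k = 1 ∨ m * l - n * k = -1) →
      mt (m : ℝ) n k l (D2 b (un v) (fun i => Real.exp (q i)) u) ∈ W) :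
    ∃ δ : ℝ, 0 < δ ∧ 0 < volume (Dm b κ i₀ δ ∩ W) := by
  classical
  have hcK : ∀ i, Countable (K i) := fun i => ((b i).equivFun.injective).countable
  have hcu : ∀ i, Countable (𝓞 (K i))ˣ := fun i =>
    (NumberField.Units.coe_injective (K i)).countable
  by_contra hcon
  push Not at hcon
  have hDc : ∀ δ : ℝ, 0 < δ → volume (Dc b κ i₀ δ ∩ W) = 0 := by
    intro δ hδ
    have h3 : Dc b κ i₀ δ ∩ W ⊆ (closure (Dc b κ i₀ δ) \ Dm b κ i₀ δ) ∪ (Dm b κ i₀ δ ∩ W) := by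
      intro u hu
      by_cases h : u ∈ Dm b κ i₀ δ
      · exact Or.inr ⟨h, hu.2⟩
      · exact Or.inl ⟨subset_closure hu.1, h⟩
    refine measure_mono_null h3 (measure_union_null (hnull δ hδ) ?_)
    exact le_antisymm (hcon δ hδ) bot_le
  have hWnull : volume W = 0 := by
    have h3 : W ⊆ ⋃ q : (∀ i, (𝓞 (K i))ˣ) × (s → ℤ) × (ℤ × ℤ × ℤ × ℤ) × ℕ,
        {u | (q.2.2.1.1 * q.2.2.1.2.2.2 - q.2.2.1.2.1 * q.2.2.1.2.2.1 = 1 ∨
          q.2.2.1.1 * q.2.2.1.2.2.2 - q.2.2.1.2.1 * q.2.2.1.2.2.1 = -1) ∧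
          mt (q.2.2.1.1 : ℝ) q.2.2.1.2.1 q.2.2.1.2.2.1 q.2.2.1.2.2.2
            (D2 b (un q.1) (fun i => Real.exp (q.2.1 i)) u) ∈
            Dc b κ i₀ (1 / ((q.2.2.2 : ℝ) + 1)) ∩ W} := by
      intro u hu
      obtain ⟨v, q, m, n, k, l, j, hd, hm⟩ := exists_move hodd hn b κ i₀ u (hWU hu)
      rw [Set.mem_iUnion]
      exact ⟨(v, q, (m, n, k, l), j), hd, hm, hinv u hu v q m n k l hd⟩
    refine measure_mono_null h3 ?_
    rw [measure_iUnion_null_iff]
    rintro ⟨v, q, ⟨m, n, k, l⟩, j⟩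
    simp only
    by_cases hd : m * l - n * k = 1 ∨ m * l - n * k = -1
    · have hdR : ((m : ℝ) * l - n * k) ≠ 0 := by
        rcases hd with h | h
        · have : ((m : ℝ) * l - n * k) = 1 := by exact_mod_cast h
          rw [this]; norm_num
        · have : ((m : ℝ) * l - n * k) = -1 := by exact_mod_cast h
          rw [this]; norm_num
      have n1 := mt_null (m : ℝ) n k l hdR _ (hDc (1 / ((j : ℝ) + 1)) (by positivity))
      have n2 := null_D2 b (v := un v) (Pool.Agent.Y891.KE.un_ne v) (r := fun i => Real.exp (q i))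
        (fun i => (Real.exp_pos _).ne') n1
      exact measure_mono_null (fun u hu => hu.2) n2
    · refine measure_mono_null (fun u hu => ?_) (measure_empty (μ := volume))
      exact absurd hu.1 hd
  have := hW.measure_pos volume hWne
  rw [hWnull] at this
  exact lt_irrefl _ this

/-- **the number of reduced lattices near a given one in a cell** -/
theorem gcl (h1 : S_RBM K) (h2 : S_MIB) (h3 : S_EUN) (h4 : S_LR K) (hodd : Odd (dg K))
    (hn : 5 ≤ dg K) (I : FU K) (b : Bs K) (hb : IsB I b) (κ : Ux K → ℝ) (i₀ : s)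
    (hκ : ∀ δ : ℝ, 0 < δ → volume (closure (Dc b κ i₀ δ) \ Dm b κ i₀ δ) = 0)
    (hopen : ∀ δ : ℝ, 0 < δ → IsOpen (Dm b κ i₀ δ) ∧ Bornology.IsBounded (Dc b κ i₀ δ))
    (z0 : Ix K ⊕ Ix K → ℤ) (hz0 : IN (pr b z0)) (hz0l : ∀ p : ℕ, p.Prime → Loc p (cf I) (LT (pr b z0)))
    (W : Set (Ix K ⊕ Ix K → ℝ)) (hW : IsOpen W)
    (hvol : ∃ δ : ℝ, 0 < δ ∧ 0 < volume (Dm b κ i₀ δ ∩ W)) (q0 : ℕ) (hq0 : 0 < q0)
    (Q : Al K × Al K → Prop)
    (hQ : ∀ (y : s → ℝ) (z : Ix K ⊕ Ix K → ℤ), ND (pr b z) → scl y z ∈ W →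
      (∀ k, (q0 : ℤ) ∣ z k - z0 k) → (∀ p : ℕ, p.Prime → p ∣ q0 → Loc p (cf I) (LT (pr b z))) →
      Q (pr b z)) :
    ∃ ℓ X₀ : ℝ, 0 < ℓ ∧ ∀ (X : ℝ) (y : s → ℝ), X₀ ≤ X → (∀ i, X ≤ Real.exp (y i)) →
      ℓ * tt (K := K) y ≤ ({M ∈ SY κ i₀ (cf I) y | (∀ p : ℕ, p.Prime → (p : ℝ) ≤ X →
        Loc p (cf I) M) ∧ ∃ P : Al K × Al K, M = LT P ∧ Q P}.ncard : ℝ) := by
  classical
  obtain ⟨C, hC, hLR⟩ := h4 hodd hn I b hb
  choose! T hT using hLR
  have hcard := card_ix (K := K)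
  -- the conditions for the new variable
  obtain ⟨T', hT'⟩ : ∃ T' : ∀ p : ℕ, Set (Ix K ⊕ Ix K → ZMod p), T' = fun p =>
    if p ∣ q0 then Set.univ else {t | (fun k => (z0 k : ZMod p) + (q0 : ZMod p) * t k) ∈ T p} :=
    ⟨_, rfl⟩
  have hT'c : ∀ p : ℕ, p.Prime → ((T' p)ᶜ.ncard : ℝ) ≤ C * (p : ℝ) ^ (2 * dg K - 2) := by
    intro p hp
    have hfact : Fact p.Prime := ⟨hp⟩
    by_cases hpq : p ∣ q0
    · rw [hT']
      simp only [if_pos hpq, Set.compl_univ, Set.ncard_empty, Nat.cast_zero]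
      positivity
    · refine le_trans ?_ (hT p hp).2
      have hq : (q0 : ZMod p) ≠ 0 := by
        rw [Ne, ZMod.natCast_eq_zero_iff]
        exact hpq
      refine Nat.cast_le.2 (Set.ncard_le_ncard_of_injOn
        (fun t k => (z0 k : ZMod p) + (q0 : ZMod p) * t k) ?_ ?_ (Set.toFinite _))
      · intro t ht
        rw [hT'] at ht
        simp only [if_neg hpq] at ht
        exact ht
      · intro t _ t' _ h
        funext k
        have h5 := congrFun h k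
        simp only [add_right_inj] at h5
        exact mul_left_cancel₀ hq h5
  have hT'ne : ∀ p : ℕ, p.Prime → (T' p).Nonempty := by
    intro p hp
    refine ⟨fun _ => 0, ?_⟩
    rw [hT']
    by_cases hpq : p ∣ q0
    · simp only [if_pos hpq]
      exact Set.mem_univ _
    · simp only [if_neg hpq]
      show (fun k => (z0 k : ZMod p) + (q0 : ZMod p) * 0) ∈ T p
      have h5 := ((hT p hp).1 z0 hz0).1 (hz0l p hp)
      have h6 : (fun k => (z0 k : ZMod p) + (q0 : ZMod p) * 0) = fun i => ((z0 i : ℤ) : ZMod p) := by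
        funext k
        ring
      rw [h6]
      exact h5
  -- the densities
  obtain ⟨d, hd, hprod⟩ := Pool.Agent.Y988.KF.prod C (fun p => dn (T' p)) (by
    intro p hp
    have hp0 : (0 : ℝ) < p := by exact_mod_cast hp.pos
    have : Fact p.Prime := ⟨hp⟩
    have h1 : 0 < (T' p).ncard := (Set.ncard_pos (Set.toFinite _)).2 (hT'ne p hp)
    have h2 := dn_compl hp (T' p)
    refine ⟨?_, ?_, ?_⟩
    · unfold dn; positivity
    · have : 0 ≤ 1 - dn (T' p) := by rw [h2]; positivity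
      linarith
    · rw [h2, hcard, div_le_div_iff₀ (by positivity) (by positivity)]
      have h3 := hT'c p hp
      have e : (p : ℝ) ^ (2 * dg K) = (p : ℝ) ^ (2 * dg K - 2) * (p : ℝ) ^ 2 := by
        rw [← pow_add]; congr 1; omega
      rw [e, ← mul_assoc]
      gcongr)
  -- the ball
  obtain ⟨δ₂, hδ₂, hv2⟩ := hvol
  obtain ⟨u0, hu0⟩ := nonempty_of_measure_ne_zero hv2.ne'
  obtain ⟨ρ', hρ', hball⟩ := Metric.isOpen_iff.1 ((hopen δ₂ hδ₂).1.inter hW) u0 hu0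
  obtain ⟨ρ, hρ⟩ : ∃ ρ : ℝ, ρ = ρ' / 2 := ⟨_, rfl⟩
  have hρ0 : 0 < ρ := by rw [hρ]; linarith
  have hq0r : (0 : ℝ) < q0 := by exact_mod_cast hq0
  obtain ⟨D, hD⟩ : ∃ D : Set (Ix K ⊕ Ix K → ℝ), D = Metric.ball ((q0 : ℝ)⁻¹ • u0) (ρ / q0) :=
    ⟨_, rfl⟩
  have hDbdd : Bornology.IsBounded D := by rw [hD]; exact Metric.isBounded_ball
  have hDopen : IsOpen D := by rw [hD]; exact Metric.isOpen_ball
  have hDfr : volume (frontier D) = 0 := by
    rw [hD]
    have hne : Nontrivial (Ix K ⊕ Ix K → ℝ) := by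
      have : Nonempty (Ix K ⊕ Ix K) := by
        rw [← Fintype.card_pos_iff, hcard]
        omega
      infer_instance
    refine measure_mono_null Metric.frontier_ball_subset_sphere ?_
    exact Measure.addHaar_sphere _ _ _
  obtain ⟨V, hV⟩ : ∃ V, V = volume.real D := ⟨_, rfl⟩
  have hVpos : 0 < V := by
    rw [hV, measureReal_def]
    refine ENNReal.toReal_pos ?_ hDbdd.measure_lt_top.ne
    rw [hD]
    exact (Metric.measure_ball_pos volume _ (by positivity)).ne'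
  obtain ⟨η₀, hη₀⟩ : ∃ η₀, η₀ = V * d / 8 := ⟨_, rfl⟩
  have hη₀pos : 0 < η₀ := by
    rw [hη₀]
    positivity
  obtain ⟨δ₁, hδ₁, hRBM⟩ := h1 hodd (by omega) I b hb κ i₀ hκ η₀ hη₀pos
  obtain ⟨δ, hδ⟩ : ∃ δ, δ = min δ₂ δ₁ := ⟨_, rfl⟩
  have hδpos : 0 < δ := by
    rw [hδ]
    exact lt_min hδ₂ hδ₁
  obtain ⟨L₀, hL₀, hR⟩ := hRBM δ hδpos (by rw [hδ]; exact min_le_right _ _)
  have hbdd : Bornology.IsBounded (Dm b κ i₀ δ) :=
    (hopen δ hδpos).2.subset (Dm_subset b κ i₀ δ)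
  obtain ⟨C', hC', hM⟩ := h2 (Ix K ⊕ Ix K) D C hDbdd (by rw [hcard]; omega)
  obtain ⟨P₀, hP₀⟩ : ∃ P₀ : ℕ, 1 ≤ P₀ ∧ C' / (P₀ : ℝ) ≤ η₀ := by
    obtain ⟨P, hP⟩ := exists_nat_gt (C' / η₀)
    refine ⟨P + 1, by omega, ?_⟩
    rw [div_le_iff₀ (by positivity)]
    rw [div_lt_iff₀ hη₀pos] at hP
    push_cast
    nlinarith
  have hP₀r : (1 : ℝ) ≤ P₀ := by exact_mod_cast hP₀.1
  have hM' := hM T' (fun p hp => by rw [hcard]; exact hT'c p hp) P₀
  obtain ⟨L, hL, hE⟩ := h3 (Ix K ⊕ Ix K) D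
    (Set.range fun (y : s → ℝ) (k : Ix K ⊕ Ix K) => Real.exp (y (cm k)))
    (fun z => True) (fun p z => (fun i => (z i : ZMod p)) ∈ T' p) T' hDbdd hDopen hDfr
    (fun _ _ _ _ _ => trivial) (fun p hp z hz => Iff.rfl) P₀ η₀ hη₀pos
  obtain ⟨ℓ₀, hℓ₀⟩ : ∃ ℓ₀, ℓ₀ = volume.real D *
    ∏ p ∈ (Finset.range (P₀ + 1)).filter Nat.Prime,
      ((T' p).ncard : ℝ) / (p : ℝ) ^ Fintype.card (Ix K ⊕ Ix K) := ⟨_, rfl⟩
  have hℓ : V * d ≤ ℓ₀ := by
    have hd' := hprod ((Finset.range (P₀ + 1)).filter Nat.Prime)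
      (fun p hp => (Finset.mem_filter.1 hp).2)
    rw [hℓ₀, hV]
    exact mul_le_mul_of_nonneg_left hd' measureReal_nonneg
  rw [← hℓ₀] at hE
  -- the size of z0
  obtain ⟨Z, hZ⟩ : ∃ Z : ℝ, ∀ k, |(z0 k : ℝ)| ≤ Z :=
    ⟨∑ k, |(z0 k : ℝ)|, fun k => Finset.single_le_sum (f := fun k => |(z0 k : ℝ)|)
      (fun _ _ => abs_nonneg _) (mem_univ k)⟩
  refine ⟨V * d / 4, max (max (P₀ : ℝ) (Z / ρ + 1)) (max L L₀), by positivity, ?_⟩
  intro X y hX hXy
  have hX1 : (P₀ : ℝ) ≤ X := ((le_max_left _ _).trans (le_max_left _ _)).trans hX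
  have hX4 : Z / ρ + 1 ≤ X := ((le_max_right _ _).trans (le_max_left _ _)).trans hX
  have hX2 : L ≤ X := ((le_max_left _ _).trans (le_max_right _ _)).trans hX
  have hX3 : L₀ ≤ X := ((le_max_right _ _).trans (le_max_right _ _)).trans hX
  have htt : 0 < tt (K := K) y := Real.exp_pos _
  have e1 := hR y (fun i => hX3.trans (hXy i))
    (fun M => (∀ p : ℕ, p.Prime → (p : ℝ) ≤ X → Loc p (cf I) M) ∧
      ∃ P : Al K × Al K, M = LT P ∧ Q P)
  have e2 := hM' X (fun k => Real.exp (y (cm k))) hP₀r (fun k => hXy _) (fun k => Real.exp_pos _)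
  have e3 := hE (fun k => Real.exp (y (cm k))) ⟨y, rfl⟩ (fun k => hX2.trans (hXy _))
  rw [prod_exp] at e2 e3
  obtain ⟨E₀, hE₀⟩ : ∃ E₀ : Set (Ix K ⊕ Ix K → ℤ), E₀ = {z | (fun i => (z i : ℝ) /
    Real.exp (y (cm i))) ∈ D ∧
    ∀ p : ℕ, p.Prime → p ≤ P₀ → (fun i => (z i : ZMod p)) ∈ T' p} := ⟨_, rfl⟩
  obtain ⟨E₁, hE₁⟩ : ∃ E₁ : Set (Ix K ⊕ Ix K → ℤ), E₁ = {z | (fun i => (z i : ℝ) /
    Real.exp (y (cm i))) ∈ D ∧
    ∀ p : ℕ, p.Prime → (p : ℝ) ≤ X → (fun i => (z i : ZMod p)) ∈ T' p} := ⟨_, rfl⟩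
  obtain ⟨F, hF⟩ : ∃ F : Set (Ix K ⊕ Ix K → ℤ), F = {z | (fun i => (z i : ℝ) /
    Real.exp (y (cm i))) ∈ D ∧
    ∃ p : ℕ, p.Prime ∧ (P₀ : ℝ) < p ∧ (p : ℝ) ≤ X ∧ (fun i => (z i : ZMod p)) ∉ T' p} := ⟨_, rfl⟩
  have hfin : {z : Ix K ⊕ Ix K → ℤ | (fun i => (z i : ℝ) / Real.exp (y (cm i))) ∈ D}.Finite :=
    fin_of_bdd hDbdd (fun k => Real.exp (y (cm k))) (fun k => Real.exp_pos _)
  have hE₀fin : E₀.Finite := hfin.subset (by rw [hE₀]; exact fun z hz => hz.1)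
  have hE₁fin : E₁.Finite := hfin.subset (by rw [hE₁]; exact fun z hz => hz.1)
  have hFfin : F.Finite := hfin.subset (by rw [hF]; exact fun z hz => hz.1)
  have hsub2 : E₀ ⊆ E₁ ∪ F := by
    intro z hz
    by_cases h : ∀ p : ℕ, p.Prime → (p : ℝ) ≤ X → (fun i => (z i : ZMod p)) ∈ T' p
    · left
      rw [hE₀] at hz
      rw [hE₁]
      exact ⟨hz.1, h⟩
    · right
      push Not at h
      obtain ⟨p, hp, hpX, hpl⟩ := h
      rw [hE₀] at hz
      rw [hF]
      refine ⟨hz.1, p, hp, ?_, hpX, hpl⟩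
      by_contra hcon
      exact hpl (hz.2 p hp (by exact_mod_cast not_lt.1 hcon))
  have hle2 : (E₀.ncard : ℝ) ≤ E₁.ncard + F.ncard := by
    have h7 := (Set.ncard_le_ncard hsub2 (hE₁fin.union hFfin)).trans (Set.ncard_union_le _ _)
    exact_mod_cast h7
  have hFle : (F.ncard : ℝ) ≤ η₀ * tt (K := K) y := by
    have h7 : (F.ncard : ℝ) ≤ C' * tt (K := K) y / P₀ := by
      rw [hF]
      exact e2
    refine h7.trans ?_
    have h8 : C' * tt (K := K) y / P₀ = C' / P₀ * tt (K := K) y := by ring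
    rw [h8]
    exact mul_le_mul_of_nonneg_right hP₀.2 htt.le
  have e3' : |(E₀.ncard : ℝ) / tt (K := K) y - ℓ₀| ≤ η₀ := by
    rw [hE₀]
    exact e3
  have e4 : |(E₀.ncard : ℝ) - ℓ₀ * tt (K := K) y| ≤ η₀ * tt (K := K) y := by
    have h7 : (E₀.ncard : ℝ) - ℓ₀ * tt (K := K) y =
        ((E₀.ncard : ℝ) / tt (K := K) y - ℓ₀) * tt (K := K) y := by
      field_simp
    rw [h7, abs_mul, abs_of_pos htt]
    exact mul_le_mul_of_nonneg_right e3' htt.le
  -- the injection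
  obtain ⟨G, hG⟩ : ∃ G : Set (Ix K ⊕ Ix K → ℤ), G = {z | scl y z ∈ Dm b κ i₀ δ ∧
    ((∀ p : ℕ, p.Prime → (p : ℝ) ≤ X → Loc p (cf I) (LT (pr b z))) ∧
      ∃ P : Al K × Al K, LT (pr b z) = LT P ∧ Q P)} := ⟨_, rfl⟩
  have hGfin : G.Finite := by
    refine (fin_of_bdd hbdd (fun k => Real.exp (y (cm k))) (fun k => Real.exp_pos _)).subset ?_
    rw [hG]
    exact fun z hz => hz.1
  have hEG : (E₁.ncard : ℝ) ≤ G.ncard := by
    refine Nat.cast_le.2 (Set.ncard_le_ncard_of_injOn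
      (fun w k => z0 k + (q0 : ℤ) * w k) ?_ ?_ hGfin)
    · intro w hw
      rw [hE₁] at hw
      obtain ⟨hw1, hw2⟩ := hw
      -- the point is in the ball
      have hin : scl y (fun k => z0 k + (q0 : ℤ) * w k) ∈ Metric.ball u0 ρ' := by
        rw [hD, mem_ball_iff_norm, pi_norm_lt_iff (by positivity)] at hw1
        rw [mem_ball_iff_norm, pi_norm_lt_iff hρ']
        intro k
        have h5 := hw1 k
        have hE0 : 0 < Real.exp (y (cm k)) := Real.exp_pos _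
        rw [Pi.sub_apply, Pi.smul_apply, smul_eq_mul, Real.norm_eq_abs] at h5
        rw [Pi.sub_apply, Real.norm_eq_abs]
        have h6 : scl y (fun k => z0 k + (q0 : ℤ) * w k) k - u0 k =
            (z0 k : ℝ) / Real.exp (y (cm k)) +
              q0 * ((w k : ℝ) / Real.exp (y (cm k)) - (q0 : ℝ)⁻¹ * u0 k) := by
          unfold scl
          push_cast
          field_simp
          ring
        rw [h6]
        have h7 : |(z0 k : ℝ) / Real.exp (y (cm k))| < ρ := by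
          rw [abs_div, abs_of_pos hE0, div_lt_iff₀ hE0]
          have h8 : Z / ρ + 1 ≤ Real.exp (y (cm k)) := hX4.trans (hXy _)
          have h9 : Z < ρ * Real.exp (y (cm k)) := by
            have h10 : Z / ρ < Real.exp (y (cm k)) := by linarith
            rw [div_lt_iff₀ hρ0] at h10
            linarith
          exact (hZ k).trans_lt h9
        have h8 : |(q0 : ℝ) * ((w k : ℝ) / Real.exp (y (cm k)) - (q0 : ℝ)⁻¹ * u0 k)| < ρ := by
          rw [abs_mul, abs_of_pos hq0r]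
          rw [lt_div_iff₀ hq0r] at h5
          linarith
        refine (abs_add_le _ _).trans_lt ?_
        rw [hρ] at h7 h8
        linarith
      obtain ⟨hin1, hin2⟩ := hball hin
      have hnd : ND (pr b fun k => z0 k + (q0 : ℤ) * w k) := nd_scl b y _ hin1.2.2.2.2.1
      have hIN := hnd.ind (by omega)
      have hloc : ∀ p : ℕ, p.Prime → (p ∣ q0 ∨ (p : ℝ) ≤ X) →
          Loc p (cf I) (LT (pr b fun k => z0 k + (q0 : ℤ) * w k)) := by
        intro p hp hor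
        rw [(hT p hp).1 _ hIN]
        by_cases hpq : p ∣ q0
        · have h5 := ((hT p hp).1 z0 hz0).1 (hz0l p hp)
          have h6 : (fun i => ((z0 i + (q0 : ℤ) * w i : ℤ) : ZMod p)) =
              fun i => ((z0 i : ℤ) : ZMod p) := by
            funext i
            push_cast
            have : (q0 : ZMod p) = 0 := by rwa [ZMod.natCast_eq_zero_iff]
            rw [this, zero_mul, add_zero]
          rw [h6]
          exact h5
        · have h5 := hw2 p hp (hor.resolve_left hpq)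
          rw [hT'] at h5
          simp only [if_neg hpq] at h5
          have h6 : (fun i => ((z0 i + (q0 : ℤ) * w i : ℤ) : ZMod p)) =
              fun k => (z0 k : ZMod p) + (q0 : ZMod p) * (w k : ZMod p) := by
            funext i
            push_cast
            rfl
          rw [h6]
          exact h5
      rw [hG]
      refine ⟨Dm_anti b κ i₀ hδpos (by rw [hδ]; exact min_le_left _ _) hin1,
        fun p hp hpX => hloc p hp (Or.inr hpX), _, rfl, ?_⟩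
      exact hQ y _ hnd hin2 (fun k => ⟨w k, by ring⟩) fun p hp hpq => hloc p hp (Or.inl hpq)
    · intro w _ w' _ h
      funext k
      have h5 := congrFun h k
      simp only [add_right_inj] at h5
      exact mul_left_cancel₀ (by exact_mod_cast hq0.ne') h5
  have e1' : |2 * ({M ∈ SY κ i₀ (cf I) y | (∀ p : ℕ, p.Prime → (p : ℝ) ≤ X →
      Loc p (cf I) M) ∧ ∃ P : Al K × Al K, M = LT P ∧ Q P}.ncard : ℝ) - (G.ncard : ℝ)| ≤
      η₀ * tt (K := K) y := by
    rw [hG]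
    exact e1
  rw [abs_le] at e1' e4
  have h9 : V * d * tt (K := K) y ≤ ℓ₀ * tt (K := K) y := mul_le_mul_of_nonneg_right hℓ htt.le
  have h10 : η₀ * tt (K := K) y = V * d * tt (K := K) y / 8 := by rw [hη₀]; ring
  have h11 : V * d / 4 * tt (K := K) y = V * d * tt (K := K) y / 4 := by ring
  have hpos : 0 < V * d * tt (K := K) y := by positivity
  rw [h11]
  linarith [e1'.1, e4.1]

end Q265.EQ
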