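import Pool.Agent.Q265.EQ.D

/-! # Lower bounds for the number of points near a given point: one class -/

set_option autoImplicit false
set_option linter.unusedSectionVars false
set_option linter.unusedVariables false

namespace Q265.EQ

open Pool.Agent.Y714.KF (FI sp ct nm pm ext br gl ubas qf bk el sg bf)
open Pool.Agent.Y714.KE
open NumberField FractionalIdeal Module Finset ComplexConjugate MeasureTheory Filter Topology
open scoped nonZeroDivisors

variable {s : Type} [Fintype s] [DecidableEq s] {K : s → Type} [∀ i, Field (K i)]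
  [∀ i, NumberField (K i)]

/-- **lower bound for one class** -/
theorem class_low (hPAR : S_PAR K) (hABS : S_ABS)
    (hCR : S_CR K) (hCF : S_CF K) (hRF1 : S_RF1 K) (hRF2 : S_RF2 K)
    (hodd : Odd (dg K)) (hn : 5 ≤ dg K) (κ : Ux K → ℝ) (i₀ : s) (I : FU K)
    (Q : Submodule ℤ (Al K) → Prop)
    (hL : ∃ ℓ X₀ : ℝ, 0 < ℓ ∧ ∀ (X : ℝ) (y : s → ℝ), X₀ ≤ X →
      (∀ i, X ≤ Real.exp (y i)) → ℓ * tt (K := K) y ≤
      ({M ∈ SY κ i₀ (cf I) y | (∀ p : ℕ, p.Prime → (p : ℝ) ≤ X → Loc p (cf I) M) ∧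
        Q M}.ncard : ℝ)) :
    ∃ c : ℝ, 0 < c ∧ ∀ᶠ t : ℝ in atTop, c * (t * Real.log t ^ (Fintype.card s - 1)) ≤
      ({M ∈ SA κ (cf I) t | (∀ p : ℕ, p.Prime → Loc p (cf I) M) ∧ Q M}.ncard : ℝ) := by
  classical
  have : Nonempty s := ⟨i₀⟩
  obtain ⟨ℓ, X₀, hℓ, hlow⟩ := hL
  obtain ⟨Ct, hCt, htail⟩ := tail hCR hCF hRF1 hRF2 hodd hn κ I
  have hw := fun i : s => one_le_wt (K := K) i
  have hw0 : ∀ i : s, 0 < wt K i := fun i => by linarith [hw i]
  have hsw : 0 < ∑ i, wt K i := sum_pos (fun i _ => hw0 i) univ_nonempty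
  obtain ⟨ε, hε⟩ : ∃ ε : ℝ, ε = 1 / (4 * ∑ i, wt K i) := ⟨_, rfl⟩
  have hε0 : 0 < ε := by rw [hε]; positivity
  have hεs : ε * ∑ i, wt K i = 1 / 4 := by rw [hε]; field_simp
  obtain ⟨a, ha⟩ : ∃ a : s → s → ℝ, a = fun l i => am l i - 2 * ε * wt K i := ⟨_, rfl⟩
  have hsa : ∀ (l : s) (y : s → ℝ), ∑ i, a l i * y i = y l - 2 * ε * ∑ i, wt K i * y i := by
    intro l y
    rw [ha]
    simp only [sub_mul]
    rw [sum_sub_distrib, sum_am, mul_sum]
    congr 1
    exact sum_congr rfl fun i _ => by ring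
  have hbdd : ∃ R : ℝ, ∀ y : s → ℝ, ∑ i, wt K i * y i = 1 / 2 →
      (∀ l, 0 ≤ ∑ i, a l i * y i) → ∀ i, |y i| ≤ R := by
    obtain ⟨R, hR⟩ := am_bdd (wt K) hw
    refine ⟨R, fun y h1 h2 => hR y h1 fun l => ?_⟩
    have h3 := h2 l
    rw [hsa, h1] at h3
    rw [sum_am]
    linarith
  have hint : ∃ y : s → ℝ, ∑ i, wt K i * y i = 1 / 2 ∧ ∀ l, 0 < ∑ i, a l i * y i := by
    refine ⟨fun _ => 1 / (2 * ∑ i, wt K i), ?_, fun l => ?_⟩
    · rw [← sum_mul]; field_simp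
    · rw [hsa, ← sum_mul]
      have h1 : (∑ i, wt K i) * (1 / (2 * ∑ i, wt K i)) = 1 / 2 := by field_simp
      rw [h1]
      have h2 : 1 / (2 * ∑ i, wt K i) = 2 * ε := by rw [hε]; field_simp; norm_num
      rw [h2]
      linarith
  obtain ⟨V, hV, habs⟩ := hABS s s i₀ (wt K) a hw0 hbdd hint
  obtain ⟨F', hF'⟩ : ∃ F' : (s → ℤ) → ℝ → ℝ, F' = fun k t =>
    if 1 ≤ t ∧ ∀ l, 0 ≤ ∑ i, a l i * yy (wt K) i₀ k t i then ℓ * t else 0 := ⟨_, rfl⟩
  have hF'0 : ∀ k t, 0 ≤ F' k t := by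
    intro k t
    rw [hF']
    simp only
    split_ifs with h
    · have := h.1
      positivity
    · exact le_rfl
  obtain ⟨c, hc0, hc1, hc2⟩ := habs F' (ℓ + 1) hF'0 (fun k t ht => by
      rw [hF']; simp only
      split_ifs
      · nlinarith
      · positivity) (fun k t ht hne l => by
      by_cases hc : 1 ≤ t ∧ ∀ l, 0 ≤ ∑ i, a l i * yy (wt K) i₀ k t i
      · have := hc.2 l
        linarith
      · exfalso; apply hne; rw [hF']; simp only; rw [if_neg hc]) (fun η hη => by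
      refine ⟨ℓ, fun ε' hε' => ⟨1, fun t ht k hk hl => ?_⟩⟩
      have hlog : 0 ≤ Real.log t := Real.log_nonneg ht
      have hcond : 1 ≤ t ∧ ∀ l, 0 ≤ ∑ i, a l i * yy (wt K) i₀ k t i := ⟨ht, fun l =>
        le_trans (by positivity) (hl l)⟩
      rw [hF']
      simp only
      rw [if_pos hcond, mul_div_assoc, div_self (by linarith : t ≠ 0), mul_one, sub_self, abs_zero]
      exact hη.le)
  have hc : ℓ / 2 ≤ c := by
    have h1 := hc1 (ℓ / 2) ℓ (by linarith) (fun ε' hε' => ⟨1, fun t ht k hk hl => by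
      have hlog : 0 ≤ Real.log t := Real.log_nonneg ht
      have hcond : 1 ≤ t ∧ ∀ l, 0 ≤ ∑ i, a l i * yy (wt K) i₀ k t i := ⟨ht, fun l =>
        le_trans (by positivity) (hl l)⟩
      rw [hF']
      simp only
      rw [if_pos hcond, mul_div_assoc, div_self (by linarith : t ≠ 0), mul_one, sub_self, abs_zero]
      linarith⟩)
    have := (abs_le.1 h1).1
    linarith
  have hcpos : 0 < c := by linarith
  -- the sum over the cells
  obtain ⟨t₁, ht₁, k1⟩ := ev_pow ε hε0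
  obtain ⟨t₂, ht₂, k2⟩ := ev_log X₀
  have hup : Tendsto (fun t : ℝ => Ct * 2 ^ Fintype.card s / Real.log t) atTop (𝓝 0) :=
    tendsto_const_nhds.div_atTop Real.tendsto_log_atTop
  refine ⟨c * V / 4, by positivity, ?_⟩
  filter_upwards [eventually_ge_atTop (max t₁ t₂), eventually_ge_atTop (Real.exp 1),
    hc2.eventually_const_lt (show c * V / 2 < c * V by have := mul_pos hcpos hV; linarith),
    hup.eventually_lt_const (show 0 < c * V / 4 by positivity)] with t g1 g2 g3 g4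
  have ht0 : 0 < t := lt_of_lt_of_le (Real.exp_pos _) g2
  have hlog : 1 ≤ Real.log t := by
    rw [← Real.log_exp 1]; exact Real.log_le_log (Real.exp_pos _) g2
  have ht1 : 1 ≤ t := (Real.one_le_exp (by norm_num)).trans g2
  have hden : 0 < t * Real.log t ^ (Fintype.card s - 1) := by positivity
  have hfin := SA_finite hodd (by omega : 3 ≤ dg K) hCR κ I t
  have hpar := hPAR hodd (by omega) κ i₀ (cf I) t ht0 hfin (fun M => (∀ p : ℕ, p.Prime →
        (p : ℝ) ≤ (1 + Real.log t) ^ 2 → Loc p (cf I) M) ∧ Q M)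
  obtain ⟨F, hF⟩ : ∃ F : (s → ℤ) → ℝ, F = fun k => ({M ∈ SY κ i₀ (cf I)
    (yy (fun i => (finrank ℚ (K i) : ℝ)) i₀ k t) | (∀ p : ℕ, p.Prime →
        (p : ℝ) ≤ (1 + Real.log t) ^ 2 → Loc p (cf I) M) ∧ Q M}.ncard : ℝ) := ⟨_, rfl⟩
  have hF0 : ∀ k, 0 ≤ F k := fun k => by rw [hF]; exact Nat.cast_nonneg _
  have hle : ∀ k, F' k t ≤ F k := by
    intro k
    by_cases hcond : 1 ≤ t ∧ ∀ l, 0 ≤ ∑ i, a l i * yy (wt K) i₀ k t i
    · have e1 : F' k t = ℓ * t := by rw [hF']; simp only; rw [if_pos hcond]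
      rw [e1]
      have h5 := hlow ((1 + Real.log t) ^ 2) (yy (wt K) i₀ k t) (k2 t ((le_max_right _ _).trans g1))
        fun i => (k1 t ((le_max_left _ _).trans g1)).trans (Real.exp_le_exp.2 ?_)
      · rw [tt_yy i₀ k ht0] at h5
        rw [hF]
        exact h5
      · have h6 := hcond.2 i
        rw [hsa, sum_yy (wt K) hw i₀ k t] at h6
        linarith
    · have e1 : F' k t = 0 := by rw [hF']; simp only; rw [if_neg hcond]
      rw [e1]
      exact hF0 k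
  have hsupp : ({k : s → ℤ | k i₀ = 0} ∩ Function.support fun k => F k).Finite := by
    refine (cells_finite hodd (by omega) hCR κ i₀ I ht0).subset ?_
    rintro k ⟨hk, hne⟩
    refine ⟨hk, ?_⟩
    by_contra hcon
    rw [Set.not_nonempty_iff_eq_empty] at hcon
    apply hne
    show F k = 0
    have hcon' : SY κ i₀ (cf I) (yy (fun i => (finrank ℚ (K i) : ℝ)) i₀ k t) = ∅ := hcon
    rw [hF]
    simp only
    rw [hcon']
    simp
  have hsub : ∀ g : (s → ℤ) → ℝ, (∀ k, F k = 0 → g k = 0) →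
      ∑ᶠ k ∈ {k : s → ℤ | k i₀ = 0}, g k = ∑ k ∈ hsupp.toFinset, g k := by
    intro g hg
    refine finsum_mem_eq_sum_of_inter_support_eq _ ?_
    ext k
    simp only [Set.mem_inter_iff, Function.mem_support, Set.Finite.coe_toFinset]
    constructor
    · rintro ⟨h1, h2⟩
      exact ⟨⟨h1, fun h => h2 (hg k h)⟩, h2⟩
    · rintro ⟨⟨h1, _⟩, h2⟩
      exact ⟨h1, h2⟩
  have hsum : ∑ᶠ k ∈ {k : s → ℤ | k i₀ = 0}, F' k t ≤ ∑ᶠ k ∈ {k : s → ℤ | k i₀ = 0}, F k := by
    rw [hsub _ fun k h => h, hsub _ fun k h => le_antisymm ((hle k).trans h.le) (hF'0 k t)]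
    exact sum_le_sum fun k _ => hle k
  have hpar' : ∑ᶠ k ∈ {k : s → ℤ | k i₀ = 0}, F k = ({M ∈ SA κ (cf I) t | (∀ p : ℕ, p.Prime →
      (p : ℝ) ≤ (1 + Real.log t) ^ 2 → Loc p (cf I) M) ∧ Q M}.ncard : ℝ) := by
    rw [hF]
    exact hpar.symm
  have hsub2 : {M ∈ SA κ (cf I) t | (∀ p : ℕ, p.Prime →
      (p : ℝ) ≤ (1 + Real.log t) ^ 2 → Loc p (cf I) M) ∧ Q M} ⊆
      {M ∈ SA κ (cf I) t | (∀ p : ℕ, p.Prime → Loc p (cf I) M) ∧ Q M} ∪
      {M ∈ SA κ (cf I) t | ∃ p : ℕ, p.Prime ∧ (1 + Real.log t) ^ 2 < p ∧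
        ¬ Loc p (cf I) M} := by
    rintro M ⟨h1, h2, h3⟩
    by_cases h : ∀ p : ℕ, p.Prime → Loc p (cf I) M
    · exact Or.inl ⟨h1, h, h3⟩
    · push Not at h
      obtain ⟨p, hp, hl⟩ := h
      refine Or.inr ⟨h1, p, hp, ?_, hl⟩
      by_contra hcon
      exact hl (h2 p hp (not_lt.1 hcon))
  have h5 : ({M ∈ SA κ (cf I) t | (∀ p : ℕ, p.Prime →
      (p : ℝ) ≤ (1 + Real.log t) ^ 2 → Loc p (cf I) M) ∧ Q M}.ncard : ℝ) ≤
      ({M ∈ SA κ (cf I) t | (∀ p : ℕ, p.Prime → Loc p (cf I) M) ∧ Q M}.ncard : ℝ) +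
      ({M ∈ SA κ (cf I) t | ∃ p : ℕ, p.Prime ∧ (1 + Real.log t) ^ 2 < p ∧
        ¬ Loc p (cf I) M}.ncard : ℝ) := by
    have h6 := Set.ncard_le_ncard hsub2 (hfin.subset (by rintro M (h | h) <;> exact h.1))
    exact_mod_cast h6.trans (Set.ncard_union_le _ _)
  have h7 := htail t ((1 + Real.log t) ^ 2) ht1 (by nlinarith)
  have h8 : Ct * t * (1 + Real.log t) ^ Fintype.card s / (1 + Real.log t) ^ 2 ≤
      Ct * 2 ^ Fintype.card s / Real.log t * (t * Real.log t ^ (Fintype.card s - 1)) := by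
    have hcard : 1 ≤ Fintype.card s := Fintype.card_pos
    obtain ⟨r, hr⟩ : ∃ r, Fintype.card s = r + 1 := ⟨Fintype.card s - 1, by omega⟩
    rw [hr, Nat.add_sub_cancel]
    rw [div_le_iff₀ (by positivity)]
    have e9 : Ct * 2 ^ (r + 1) / Real.log t * (t * Real.log t ^ r) * (1 + Real.log t) ^ 2 =
        Ct * t * (2 ^ (r + 1) * Real.log t ^ r * (1 + Real.log t) ^ 2 / Real.log t) := by
      ring
    rw [e9]
    have h10 : (1 + Real.log t) ^ (r + 1) ≤
        2 ^ (r + 1) * Real.log t ^ r * (1 + Real.log t) ^ 2 / Real.log t := by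
      rw [le_div_iff₀ (by linarith)]
      have h11 : (1 + Real.log t) ^ (r + 1) ≤ (2 * Real.log t) ^ (r + 1) :=
        pow_le_pow_left₀ (by linarith) (by linarith) _
      have h12 : (2 * Real.log t) ^ (r + 1) * Real.log t =
          2 ^ (r + 1) * Real.log t ^ r * Real.log t ^ 2 := by ring
      calc (1 + Real.log t) ^ (r + 1) * Real.log t ≤
          (2 * Real.log t) ^ (r + 1) * Real.log t := by gcongr
        _ = 2 ^ (r + 1) * Real.log t ^ r * Real.log t ^ 2 := h12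
        _ ≤ 2 ^ (r + 1) * Real.log t ^ r * (1 + Real.log t) ^ 2 := by
            gcongr
            linarith
    gcongr
  rw [lt_div_iff₀ hden] at g3
  have h9 : Ct * 2 ^ Fintype.card s / Real.log t * (t * Real.log t ^ (Fintype.card s - 1)) ≤
      c * V / 4 * (t * Real.log t ^ (Fintype.card s - 1)) :=
    mul_le_mul_of_nonneg_right g4.le hden.le
  rw [hpar'] at hsum
  have h10 : c * V / 4 * (t * Real.log t ^ (Fintype.card s - 1)) =
      c * V / 2 * (t * Real.log t ^ (Fintype.card s - 1)) -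
        c * V / 4 * (t * Real.log t ^ (Fintype.card s - 1)) := by ring
  rw [h10]
  have g5 := g3.trans_le hsum
  have g6 := h7.trans (h8.trans h9)
  generalize c * V / 2 * (t * Real.log t ^ (Fintype.card s - 1)) = A at *
  generalize c * V / 4 * (t * Real.log t ^ (Fintype.card s - 1)) = B at *
  linarith

end Q265.EQ
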