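import Pool.Agent.Q265.EQ.C
import Pool.Agent.Q265.EQ.E

/-! # Lower bounds for the number of points near a given point -/

set_option autoImplicit false
set_option linter.unusedSectionVars false
set_option linter.unusedVariables false

namespace Q265.EQ

open Pool.Agent.Y714.KF (FI sp ct nm pm ext br gl ubas qf bk el sg bf pm_pos)
open Pool.Agent.Y714.KE
open Pool.Agent.Y179.KF (mt mt_null)
open Pool.Agent.Y891.KE (Ub D2 isOpen_Ub exists_move null_D2 rw2_mt rw2_D2 Ub_mt br_smul)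
open NumberField FractionalIdeal Module Finset ComplexConjugate MeasureTheory Filter Topology
open scoped nonZeroDivisors

variable {s : Type} [Fintype s] [DecidableEq s] {K : s → Type} [∀ i, Field (K i)]
  [∀ i, NumberField (K i)]

lemma RTst.eq2 (hn : 2 ≤ dg K) {ψ : (Em K → ℂ × ℂ) → ℝ} (hψ : RTst ψ) {P P' : Al K × Al K}
    (hP : ND P) (h : Eq2 P P') : ψ (vc P') = ψ (vc P) := by
  obtain ⟨x, a, b, c, d, hx, hdet, rfl⟩ := h
  obtain ⟨-, -, h3, h4⟩ := hψ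
  have hg : ND (glq a b c d P) := hP.glq hdet
  rw [vc_sm, h3 (vc (glq a b c d P)) (SYM_vc _) (hg.pm_pos hn) (fun e => e.2 (x e.1))
    (fun e => by
      rw [_root_.map_ne_zero]
      exact hx e.1)
    (fun i σ => by simp), vc_glq]
  have := h4 (vc P) (SYM_vc _) (hP.pm_pos hn) (a : ℝ) b c d (by exact_mod_cast hdet)
  push_cast at this
  exact this

lemma PTst.pfac {p : ℕ} {φ : Al K × Al K → ℝ} (h : PTst p φ) :
    ∃ M : ℝ, PFac p fun P => φ P + M := by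
  obtain ⟨⟨M, hM⟩, h2, h3⟩ := h
  refine ⟨M + 1, ⟨⟨1, 2 * M + 1, one_pos, fun P hP => ?_⟩, fun P P' hP hE => ?_,
    fun ε hε => ?_⟩⟩
  · have := abs_le.1 (hM P hP)
    constructor <;> linarith [this.1, this.2]
  · show φ P' + (M + 1) = φ P + (M + 1)
    rw [h2 P P' hP hE]
  · obtain ⟨k, hk⟩ := h3 ε hε
    refine ⟨k, fun P P' h4 h5 h6 h7 h8 => ?_⟩
    have := hk P P' h4 h5 h6 h7 h8
    have e : φ P' + (M + 1) - (φ P + (M + 1)) = φ P' - φ P := by ring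
    rw [e]
    exact this

lemma count_eq' (hodd : Odd (dg K)) (hn : 5 ≤ dg K) (Q : Al K × Al K → Prop)
    (hinv : ∀ P P', ND P → Eq2 P P' → (Q P ↔ Q P')) (B : ℝ) :
    {x : Pt K | hgt x ≤ B ∧ Q (rep x)}.ncard = {C : Set (Al K × Al K) | ∃ P, ND P ∧
      C = {P' | Eq2 P P'} ∧ ht P ≤ B ∧ Q P}.ncard := by
  have : {C : Set (Al K × Al K) | ∃ P, ND P ∧ C = {P' | Eq2 P P'} ∧ ht P ≤ B ∧ Q P} =
      Subtype.val '' {x : Pt K | hgt x ≤ B ∧ Q (rep x)} := by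
    ext C
    constructor
    · rintro ⟨P, hP, rfl, hB, hQ⟩
      refine ⟨cls P hP, ⟨?_, ?_⟩, rfl⟩
      · rw [hgt_of_mem hodd hn (mem_cls hP)]
        exact hB
      · exact (hinv _ _ (rep_nd (cls P hP)) (mem_iff.1 (mem_cls hP))).2 hQ
    · rintro ⟨x, ⟨hx1, hx2⟩, rfl⟩
      rw [hgt_eq] at hx1
      exact ⟨rep x, rep_nd x, rep_eq x, hx1, hx2⟩
  rw [this]
  exact (Set.ncard_image_of_injective _ Subtype.val_injective).symm

/-- **The number of points of bounded height in a neighbourhood of a point.** -/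
theorem near_low (hodd : Odd (dg K)) (hn : 5 ≤ dg K) {J₁ J₂ : Type} [Fintype J₁] [Fintype J₂]
    (ψ : J₁ → (Em K → ℂ × ℂ) → ℝ) (hψ : ∀ j, RTst (ψ j)) (p : J₂ → ℕ) (hp : ∀ j, (p j).Prime)
    (φ : J₂ → Al K × Al K → ℝ) (hφ : ∀ j, PTst (p j) (φ j)) (x₀ : Pt K) (δ : ℝ) (hδ : 0 < δ) :
    ∃ c : ℝ, 0 < c ∧ ∀ᶠ B : ℝ in atTop, c * X (Fintype.card s - 1) B ≤
      ({x : Pt K | hgt x ≤ B ∧ (∀ j, |ψ j (vc (rep x)) - ψ j (vc (rep x₀))| < δ) ∧
        ∀ j, |φ j (rep x) - φ j (rep x₀)| < δ}.ncard : ℝ) := by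
  classical
  have hBOX : S_BOX := Pool.Agent.Y333.KE.box
  have hLPC : S_LPC := Pool.Agent.Y592.KE.LPC.lpc
  have hABS : S_ABS := Pool.Agent.Y288.KE.abs hLPC
  have hDIV : S_DIV K := Pool.Agent.Y421.KE.div K
  have hCNT : S_CNT K := Pool.Agent.Y421.KE.cnt K
  have hCLS : S_CLS K := Pool.Agent.Y421.KE.cls K
  have hUNI : S_UNI K := Pool.Agent.Y195.KE.uni
  have hLOC : S_LOC K := Pool.Agent.Y849.KE.loc
  have hBAS : S_BAS K := Pool.Agent.Y849.KE.bas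
  have hSUP : S_SUP K := Pool.Agent.Y849.KE.sup
  have hSUPI : S_SUPI K := Pool.Agent.Y849.KE.supi
  have hIDX : S_IDX K := Pool.Agent.Y259.KE.idx
  have hPDI : S_PDI K := Pool.Agent.Y259.KE.pdi
  have hHB : S_HB K := Pool.Agent.Y681.KE.hb hCLS hIDX
  have hDE : S_DESC K := hDESC K
  have hT1 : S_T1 K := Pool.Agent.Y319.KE.t1 hBOX
  have hCEL : S_CEL K := Pool.Agent.Y319.KE.cel
  have hPAR : S_PAR K := Pool.Agent.Y799.KE.par
  have hCR : S_CR K := Pool.Agent.Y858.KE.cr hT1 hCEL hPAR hCLS hHB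
  have hCF : S_CF K := Pool.Agent.Y664.KE.cf K hCR hDIV
  have hRF1 : S_RF1 K := Pool.Agent.Y664.KE.rf1 K hCR hDIV hBAS hSUP
  have hRF2 : S_RF2 K := Pool.Agent.Y79.KE.rf2 hCR hDIV hCLS hBAS hSUPI hIDX hPDI
  have hLR : S_LR K := Pool.Agent.Y220.KE.lr hDIV hCNT
  have hCCC : S_CCC K := Pool.Agent.Y37.KE.ccc
  have hOPB : S_OPB K := Pool.Agent.Y37.KE.opb hCCC
  have hBRN : S_BRN K := Pool.Agent.Y891.KE.brn K
  have hNUL : S_NUL K := Pool.Agent.Y891.KE.nul hCCC hBRN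
  have hRBC : S_RBC K := Pool.Agent.Y405.KE.rbc K hT1 hOPB
  have hPAD : S_PAD K := Pool.Agent.Y220.KE.pad
  have hBIJ : S_BIJ K := Pool.Agent.Y977.KE.bij K hLOC hDE hUNI hCR
  have hMIB : S_MIB := Pool.Agent.Y259.KE.mib hBOX
  have hEUN : S_EUN := Pool.Agent.Y259.KE.eun hLPC
  have hRBM : S_RBM K := Pool.Agent.Y849.KE.rbm hT1 hRBC hOPB hLPC
  have hNUJ : S_NUJ K := Pool.Agent.Y903.KE.nuj hCCC Pool.Agent.Y903.KE.brj
  obtain ⟨R, hR1, hR2⟩ := hCLS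
  -- a reduced representative with normalised content
  obtain ⟨r, hr, P₀, hnd0, hE0, hcn0, hRD0⟩ : ∃ r ∈ R, ∃ P₀ : Al K × Al K, ND P₀ ∧
      Eq2 (rep x₀) P₀ ∧ cn P₀ = cf r ∧ RD P₀ := by
    obtain ⟨P₁, hP1, ⟨a, b', c', d, hdet, hQe⟩, -⟩ := hDE hodd (by omega) (rep x₀) (rep_nd x₀)
    have hQnd : ND P₁ := by
      rw [hQe]
      exact (rep_nd x₀).glq hdet
    have hE1 : Eq2 (rep x₀) P₁ := by
      rw [hQe]
      exact Pool.Agent.Y977.KE.E.gl _ hdet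
    have hcn : ∀ i, cn P₁ i ≠ 0 := cn_ne (hQnd.ne (by omega))
    obtain ⟨r, hr, x, hx⟩ := hR1 (fun i => Units.mk0 (cn P₁ i) (hcn i))
    have hx0 : ∀ i, x i ≠ 0 := fun i => (hx i).1
    have hxi : ∀ i, x⁻¹ i ≠ 0 := fun i => inv_ne_zero (hx0 i)
    have hcn2 : cn (sm x⁻¹ P₁) = cf r := by
      rw [cn_sm]
      funext i
      have h1 := (hx i).2
      rw [Units.val_mk0] at h1
      rw [h1, ← mul_assoc, ← Pool.Agent.Y714.KF.sp_mul]
      have : x⁻¹ i * x i = 1 := inv_mul_cancel₀ (hx0 i)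
      rw [this]
      simp [cf]
    exact ⟨r, hr, sm x⁻¹ P₁, hQnd.sm hxi, Pool.Agent.Y977.KE.E.trans hE1
      (Pool.Agent.Y977.KE.E.smul _ hxi), hcn2, hP1.sm hxi⟩
  have hcnle : ∀ i, cn P₀ i ≤ r i := fun i => by rw [hcn0]; exact le_rfl
  have hIN0 : IN P₀ := hnd0.ind (by omega)
  have hloc0 : ∀ p : ℕ, p.Prime → Loc p (cf r) (LT P₀) :=
    (hLOC hodd r P₀ hIN0 (hnd0.ne (by omega)) hcnle).2 ⟨hcn0, hRD0⟩
  have hψ0 : ∀ j, ψ j (vc P₀) = ψ j (vc (rep x₀)) := fun j =>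
    (hψ j).eq2 (by omega) (rep_nd x₀) hE0
  have hφ0 : ∀ j, φ j P₀ = φ j (rep x₀) := fun j => (hφ j).2.1 _ _ (rep_nd x₀) hE0
  -- the region
  have hne : Nonempty s := by
    by_contra hcon
    rw [not_nonempty_iff] at hcon
    have : dg K = 0 := by unfold dg; simp
    omega
  obtain ⟨i₀⟩ := hne
  obtain ⟨b, hb⟩ := exists_bs r
  obtain ⟨κ, hκ, -⟩ := exists_kappa hNUL hNUJ hodd (by omega) b i₀
  obtain ⟨z0, hz0⟩ := exists_pr hb hcnle
  have hcard : 2 ≤ Fintype.card (Em K) := by rw [card_Em]; omega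
  obtain ⟨W, hWdef⟩ : ∃ W : Set (Ix K ⊕ Ix K → ℝ), W = {u | u ∈ Ub b ∧
    ∀ j, |ψ j (rw2 b u) - ψ j (vc P₀)| < δ} := ⟨_, rfl⟩
  have hWopen : IsOpen W := by
    have h1 : W = Ub b ∩ ⋂ j, (Ub b ∩ (fun u => ψ j (rw2 b u)) ⁻¹'
        Metric.ball (ψ j (vc P₀)) δ) := by
      rw [hWdef]
      ext u
      simp only [Set.mem_ofPred_eq, Set.mem_inter_iff, Set.mem_iInter, Set.mem_preimage,
        Metric.mem_ball, Real.dist_eq]
      constructor
      · rintro ⟨h1, h2⟩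
        exact ⟨h1, fun j => ⟨h1, h2 j⟩⟩
      · rintro ⟨h1, h2⟩
        exact ⟨h1, fun j => (h2 j).2⟩
    rw [h1]
    refine (isOpen_Ub b).inter (isOpen_iInter_of_finite fun j => ?_)
    refine ContinuousOn.isOpen_inter_preimage ?_ (isOpen_Ub b) Metric.isOpen_ball
    refine (hψ j).2.1.comp (continuous_rw2 b).continuousOn fun u hu => ?_
    exact ⟨SYM_rw2 b u, pm_pos hcard hu⟩
  have hWne : W.Nonempty := by
    refine ⟨fun k => (z0 k : ℝ), ?_⟩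
    rw [hWdef]
    refine ⟨?_, fun j => ?_⟩
    · show ∀ e f : Em K, e ≠ f → _
      rw [rw2_int, hz0]
      exact hnd0
    · rw [rw2_int, hz0, sub_self, abs_zero]
      exact hδ
  have hWinv : ∀ u ∈ W, ∀ (v : ∀ i, (𝓞 (K i))ˣ) (q : s → ℤ) (m n k l : ℤ),
      (m * l - n * k = 1 ∨ m * l - n * k = -1) →
      mt (m : ℝ) n k l (D2 b (un v) (fun i => Real.exp (q i)) u) ∈ W := by
    intro u hu v q m n k l hdet
    rw [hWdef] at hu ⊢
    obtain ⟨hu1, hu2⟩ := hu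
    have hdR : ((m : ℝ) * l - n * k) ≠ 0 := by
      rcases hdet with h | h
      · have : ((m : ℝ) * l - n * k) = 1 := by exact_mod_cast h
        rw [this]; norm_num
      · have : ((m : ℝ) * l - n * k) = -1 := by exact_mod_cast h
        rw [this]; norm_num
    set a : Em K → ℂ := fun e => ((Real.exp (q e.1) : ℝ) : ℂ) * e.2 (un v e.1) with ha
    have ha0 : ∀ e, a e ≠ 0 := by
      intro e
      refine mul_ne_zero ?_ ?_
      · exact_mod_cast (Real.exp_pos _).ne'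
      · exact (map_ne_zero e.2).2 (Pool.Agent.Y891.KE.un_ne v e.1)
    have hac : ∀ (i : s) (σ : K i →+* ℂ), a ⟨i, ComplexEmbedding.conjugate σ⟩ =
        conj (a ⟨i, σ⟩) := by
      intro i σ
      rw [ha]
      simp only [map_mul, Complex.conj_ofReal]
      rfl
    have e1 : rw2 b (D2 b (un v) (fun i => Real.exp (q i)) u) = fun e => a e • rw2 b u e := by
      rw [rw2_D2]
      funext e
      rw [smul_smul]
    have hu2' : D2 b (un v) (fun i => Real.exp (q i)) u ∈ Ub b := by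
      intro e f hef
      rw [e1]
      simp only
      rw [br_smul]
      exact mul_ne_zero (mul_ne_zero (ha0 e) (ha0 f)) (hu1 e f hef)
    refine ⟨Ub_mt hu2' hdR, fun j => ?_⟩
    have e2 : ψ j (rw2 b (mt (m : ℝ) n k l (D2 b (un v) (fun i => Real.exp (q i)) u))) =
        ψ j (rw2 b u) := by
      rw [rw2_mt, (hψ j).2.2.2 _ (SYM_rw2 b _) (pm_pos hcard hu2') _ _ _ _ hdR, e1]
      exact (hψ j).2.2.1 _ (SYM_rw2 b _) (pm_pos hcard hu1) a ha0 hac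
    rw [e2]
    exact hu2 j
  have hvol := vol_open hBRN hodd (by omega) b κ i₀ hκ W hWopen hWne
    (fun u hu => by rw [hWdef] at hu; exact hu.1) hWinv
  -- the congruences
  have hk : ∀ j, ∃ k : ℕ, ∀ z z' : Ix K ⊕ Ix K → ℤ, ND (pr b z) → ND (pr b z') →
      Loc (p j) (cf r) (LT (pr b z)) → Loc (p j) (cf r) (LT (pr b z')) →
      (∀ i, ((p j : ℤ) ^ k) ∣ z i - z' i) → |φ j (pr b z) - φ j (pr b z')| ≤ δ / 2 := by
    intro j
    obtain ⟨M, hM⟩ := (hφ j).pfac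
    obtain ⟨k, hk⟩ := hPAD hodd (by omega) (p j) (hp j) _ hM r b hb (δ / 2) (by linarith)
    refine ⟨k, fun z z' h1 h2 h3 h4 h5 => ?_⟩
    have := hk z z' h1 h2 h3 h4 h5
    have e : φ j (pr b z) + M - (φ j (pr b z') + M) = φ j (pr b z) - φ j (pr b z') := by ring
    rwa [e] at this
  choose k hk using hk
  set q0 : ℕ := ∏ j, (p j) ^ (k j + 1) with hq0
  have hq0pos : 0 < q0 := Finset.prod_pos fun j _ => pow_pos (hp j).pos _
  have hdvd : ∀ j, (p j) ^ (k j + 1) ∣ q0 := fun j => Finset.dvd_prod_of_mem _ (mem_univ j)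
  obtain ⟨Q, hQdef⟩ : ∃ Q : Al K × Al K → Prop, Q = fun P =>
    (∀ j, |ψ j (vc P) - ψ j (vc (rep x₀))| < δ) ∧ ∀ j, |φ j P - φ j (rep x₀)| < δ := ⟨_, rfl⟩
  have hgcl := gcl hRBM hMIB hEUN hLR hodd hn r b hb κ i₀ hκ
    (fun δ hδ => hOPB hodd (by omega) b κ i₀ δ hδ) z0 (by rw [hz0]; exact hIN0)
    (fun p hp => by rw [hz0]; exact hloc0 p hp) W hWopen hvol q0 hq0pos Q (by
      intro y z hnd hW hcong hlocz
      rw [hQdef]
      refine ⟨fun j => ?_, fun j => ?_⟩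
      · rw [hWdef] at hW
        have h1 := hW.2 j
        rw [rw2_scl, (hψ j).2.2.1 (vc (pr b z)) (SYM_vc _) (hnd.pm_pos (by omega))
          (fun e => ((Real.exp (-(y e.1)) : ℝ) : ℂ)) (fun e => by exact_mod_cast (Real.exp_pos _).ne')
          (fun i σ => (Complex.conj_ofReal _).symm), hψ0] at h1
        exact h1
      · have hpd : p j ∣ q0 := (dvd_pow_self (p j) (by omega)).trans (hdvd j)
        have h1 := hk j z z0 hnd (by rw [hz0]; exact hnd0) (hlocz (p j) (hp j) hpd)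
          (by rw [hz0]; exact hloc0 (p j) (hp j)) (fun i => by
            refine dvd_trans ?_ (hcong i)
            have h2 : (p j) ^ k j ∣ q0 := (pow_dvd_pow _ (by omega)).trans (hdvd j)
            exact_mod_cast h2)
        rw [hz0, hφ0] at h1
        linarith)
  obtain ⟨c, hc, hlow⟩ := class_low hPAR hABS hCR hCF hRF1 hRF2 hodd hn κ i₀ r
    (fun M => ∃ P : Al K × Al K, M = LT P ∧ Q P) hgcl
  -- back to points
  have hQinv : ∀ P P', ND P → Eq2 P P' → (Q P ↔ Q P') := by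
    intro P P' hP hE
    rw [hQdef]
    simp only
    have e1 : ∀ j, ψ j (vc P') = ψ j (vc P) := fun j => (hψ j).eq2 (by omega) hP hE
    have e2 : ∀ j, φ j P' = φ j P := fun j => (hφ j).2.1 _ _ hP hE
    simp_rw [e1, e2]
  set τ : ℝ := ∏ i, (Nat.card (Units.torsion (K i)) : ℝ) with hτ
  have hτ0 : 0 < τ := by
    refine prod_pos fun i _ => ?_
    have : 0 < Nat.card (Units.torsion (K i)) := Nat.card_pos
    exact_mod_cast this
  set N2 : ℝ := ((nA (cf r) : ℚ) : ℝ) ^ 2 with hN2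
  have hN2pos : 0 < N2 := by
    have : 0 < nA (cf r) := nA_pos fun i => Units.ne_zero (r i)
    positivity
  refine ⟨2 / τ * c * (N2 / 2), by positivity, ?_⟩
  have hsc : Tendsto (fun B : ℝ => N2 * B) atTop atTop := tendsto_id.const_mul_atTop hN2pos
  filter_upwards [hsc.eventually hlow, (X_mul (Fintype.card s - 1) hN2pos).eventually_const_lt
    (show N2 / 2 < N2 by linarith), X_pos (Fintype.card s - 1), eventually_gt_atTop 0]
    with B g1 g2 g3 g4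
  have hb' := hBIJ hodd (by omega) R hR1 hR2 (fun _ => κ) B g4 Q hQinv
  rw [← count_eq' hodd hn Q hQinv B] at hb'
  have hb2 : τ * ({x : Pt K | hgt x ≤ B ∧ Q (rep x)}.ncard : ℝ) =
      2 * ∑ r ∈ R, ({M ∈ SA κ (cf r) (B * ((nA (cf r) : ℚ) : ℝ) ^ 2) |
      (∀ p : ℕ, p.Prime → Loc p (cf r) M) ∧ ∃ P : Al K × Al K, M = LT P ∧ Q P}.ncard : ℝ) := by
    rw [hτ]
    exact_mod_cast hb'
  have hb3 : ({M ∈ SA κ (cf r) (B * N2) |
      (∀ p : ℕ, p.Prime → Loc p (cf r) M) ∧ ∃ P : Al K × Al K, M = LT P ∧ Q P}.ncard : ℝ) ≤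
      ∑ r ∈ R, ({M ∈ SA κ (cf r) (B * ((nA (cf r) : ℚ) : ℝ) ^ 2) |
      (∀ p : ℕ, p.Prime → Loc p (cf r) M) ∧ ∃ P : Al K × Al K, M = LT P ∧ Q P}.ncard : ℝ) :=
    Finset.single_le_sum (f := fun r => ({M ∈ SA κ (cf r) (B * ((nA (cf r) : ℚ) : ℝ) ^ 2) |
      (∀ p : ℕ, p.Prime → Loc p (cf r) M) ∧ ∃ P : Al K × Al K, M = LT P ∧ Q P}.ncard : ℝ))
      (fun _ _ => Nat.cast_nonneg _) hr
  rw [mul_comm B N2] at hb3
  have hX : N2 / 2 * X (Fintype.card s - 1) B ≤ X (Fintype.card s - 1) (N2 * B) := by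
    rw [lt_div_iff₀ g3] at g2
    exact g2.le
  have g1' : c * X (Fintype.card s - 1) (N2 * B) ≤ ({M ∈ SA κ (cf r) (N2 * B) |
      (∀ p : ℕ, p.Prime → Loc p (cf r) M) ∧ ∃ P : Al K × Al K, M = LT P ∧ Q P}.ncard : ℝ) := g1
  have hset : {x : Pt K | hgt x ≤ B ∧ (∀ j, |ψ j (vc (rep x)) - ψ j (vc (rep x₀))| < δ) ∧
      ∀ j, |φ j (rep x) - φ j (rep x₀)| < δ} = {x : Pt K | hgt x ≤ B ∧ Q (rep x)} := by
    rw [hQdef]
  rw [hset]
  have h9 : c * (N2 / 2 * X (Fintype.card s - 1) B) ≤ c * X (Fintype.card s - 1) (N2 * B) :=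
    mul_le_mul_of_nonneg_left hX hc.le
  have h10 : 2 * (c * (N2 / 2 * X (Fintype.card s - 1) B)) ≤
      τ * ({x : Pt K | hgt x ≤ B ∧ Q (rep x)}.ncard : ℝ) := by
    rw [hb2]
    linarith
  have h11 : 2 / τ * c * (N2 / 2) * X (Fintype.card s - 1) B =
      2 * (c * (N2 / 2 * X (Fintype.card s - 1) B)) / τ := by
    field_simp
  rw [h11, div_le_iff₀ hτ0]
  linarith

end Q265.EQ
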