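import Pool.Agent.Q265.EQ.F

/-! # Functions on the adelic space, the limit measure has full support -/

set_option autoImplicit false
set_option linter.unusedSectionVars false
set_option linter.unusedVariables false

namespace Q265.EQ

open Pool.Agent.Y714.KF (FI sp ct nm pm ext br gl ubas qf bk el sg bf)
open Pool.Agent.Y714.KE
open NumberField Module Finset ComplexConjugate Filter Topology

variable {s : Type} [Fintype s] [DecidableEq s] {K : s → Type} [∀ i, Field (K i)]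
  [∀ i, NumberField (K i)]

lemma AA_one (v : Option ℕ) : (fun _ => 1) ∈ AA (K := K) v := by
  cases v with
  | none => exact ⟨fun _ => 1, ⟨⟨1, fun _ _ _ => by simp⟩, continuousOn_const,
      fun _ _ _ _ _ _ => rfl, fun _ _ _ _ _ _ _ _ => rfl⟩, fun _ => rfl⟩
  | some p => exact ⟨fun _ => 1, ⟨⟨1, fun _ _ => by simp⟩, fun _ _ _ _ => rfl,
      fun ε hε => ⟨0, fun _ _ _ _ _ _ _ => by simpa using hε.le⟩⟩, fun _ => rfl⟩

lemma GG_mono {S S' : Finset ℕ} (h : S ⊆ S') : GG (K := K) S ≤ GG (K := K) S' := by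
  classical
  rintro g ⟨f, hf, hg⟩
  refine ⟨fun v => if v ∈ S.insertNone then f v else fun _ => 1, fun v hv => ?_, fun t => ?_⟩
  · by_cases h1 : v ∈ S.insertNone
    · simp only [if_pos h1]
      exact hf v h1
    · simp only [if_neg h1]
      exact AA_one v
  · rw [hg]
    have hsub : S.insertNone ⊆ S'.insertNone := by
      intro v hv
      cases v with
      | none => simp
      | some p => simpa using h (by simpa using hv)
    refine (prod_subset_one_on_sdiff hsub ?_ ?_)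
    · intro v hv
      have hv' : v ∉ S.insertNone := (Finset.mem_sdiff.1 hv).2
      show (if v ∈ S.insertNone then f v else fun _ => 1) t = 1
      rw [if_neg hv']
    · intro v hv
      show f v t = (if v ∈ S.insertNone then f v else fun _ => 1) t
      rw [if_pos hv]

/-- the products of functions at finitely many places -/
def GA (K : s → Type) [∀ i, Field (K i)] [∀ i, NumberField (K i)] : Submonoid (Pt K → ℝ) where
  carrier := {g | ∃ S : Finset ℕ, (∀ p ∈ S, p.Prime) ∧ g ∈ GG (K := K) S}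
  one_mem' := ⟨∅, by simp, one_mem _⟩
  mul_mem' := by
    classical
    rintro g g' ⟨S, hS, hg⟩ ⟨S', hS', hg'⟩
    exact ⟨S ∪ S', fun p hp => (mem_union.1 hp).elim (hS p) (hS' p),
      mul_mem (GG_mono subset_union_left hg) (GG_mono subset_union_right hg')⟩

theorem hGA (hodd : Odd (dg K)) (hn : 5 ≤ dg K) :
    ∀ g ∈ GA K, (∃ C : ℝ, ∀ t, |g t| ≤ C) ∧
      ∃ c, HasLim (hgt (K := K)) (Fintype.card s - 1) g c := by
  rintro g ⟨S, hS, hg⟩
  exact hGG hodd hn hS g hg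

/-- the functions at the places -/
abbrev Iota (K : s → Type) [∀ i, Field (K i)] [∀ i, NumberField (K i)] : Type :=
  {f : Pt K → ℝ // f ∈ AA (K := K) none ∨ ∃ p : ℕ, p.Prime ∧ f ∈ AA (K := K) (some p)}

/-- the filter of the adelic neighbourhoods -/
noncomputable def nb' (x₀ : Pt K) : Filter (Pt K) :=
  comap (fun (x : Pt K) (i : Iota K) => i.1 x) (𝓝 fun i => i.1 x₀)

lemma nb_gen (x₀ : Pt K) (i : Iota K) : Tendsto i.1 (nb' x₀) (𝓝 (i.1 x₀)) := by
  have h1 : Tendsto (fun (x : Pt K) (i : Iota K) => i.1 x) (nb' x₀)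
      (𝓝 fun i => i.1 x₀) := tendsto_comap
  exact (tendsto_pi_nhds.1 h1) i

lemma nb_adj (x₀ : Pt K) : ∀ g ∈ Algebra.adjoin ℝ (GA K : Set (Pt K → ℝ)),
    Tendsto g (nb' x₀) (𝓝 (g x₀)) := by
  intro g hg
  induction hg using Algebra.adjoin_induction with
  | mem g hg =>
    obtain ⟨S, hS, f, hf, hg⟩ := hg
    have e : g = fun t => ∏ v ∈ S.insertNone, f v t := funext hg
    rw [e]
    refine tendsto_finsetProd _ fun v hv => nb_gen x₀ ⟨f v, ?_⟩
    cases v with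
    | none => exact Or.inl (hf _ hv)
    | some p => exact Or.inr ⟨p, hS p (by simpa using hv), hf _ hv⟩
  | algebraMap r => exact tendsto_const_nhds
  | add x y _ _ h1 h2 => exact h1.add h2
  | mul x y _ _ h1 h2 => exact h1.mul h2

lemma exists_min' {ι : Type*} {I : Set ι} (hI : I.Finite) (d : ι → ℝ) (hd : ∀ i ∈ I, 0 < d i) :
    ∃ δ : ℝ, 0 < δ ∧ ∀ i ∈ I, δ ≤ d i := by
  rcases I.eq_empty_or_nonempty with h | h
  · exact ⟨1, one_pos, fun i hi => by rw [h] at hi; exact hi.elim⟩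
  · obtain ⟨i, hi, hm⟩ := Set.exists_min_image I d hI h
    exact ⟨d i, hd i hi, hm⟩

lemma nb_count (hodd : Odd (dg K)) (hn : 5 ≤ dg K)
    (x₀ : Pt K) {U : Set (Pt K)} (hU : U ∈ nb' x₀) : ∃ c : ℝ, 0 < c ∧ ∀ᶠ B : ℝ in atTop,
      c * X (Fintype.card s - 1) B ≤ ({x : Pt K | hgt x ≤ B ∧ x ∈ U}.ncard : ℝ) := by
  classical
  obtain ⟨V, hV, hVU⟩ := mem_comap.1 hU
  rw [nhds_pi, Filter.mem_pi] at hV
  obtain ⟨I, hI, t, ht, hIt⟩ := hV
  have h1 : ∀ i : Iota K, ∃ d : ℝ, 0 < d ∧ Metric.ball (i.1 x₀) d ⊆ t i := fun i =>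
    Metric.mem_nhds_iff.1 (ht i)
  choose d hd hdt using h1
  obtain ⟨δ, hδ, hδ2⟩ := exists_min' hI d fun i _ => hd i
  have f1 : Finite {i : Iota K // i ∈ I ∧ i.1 ∈ AA (K := K) none} :=
    (hI.subset fun i hi => hi.1 : {i | i ∈ I ∧ i.1 ∈ AA (K := K) none}.Finite)
  have f2 : Finite {i : Iota K // i ∈ I ∧ ∃ p : ℕ, p.Prime ∧ i.1 ∈ AA (K := K) (some p)} :=
    (hI.subset fun i hi => hi.1 :
      {i | i ∈ I ∧ ∃ p : ℕ, p.Prime ∧ i.1 ∈ AA (K := K) (some p)}.Finite)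
  have : Fintype {i : Iota K // i ∈ I ∧ i.1 ∈ AA (K := K) none} := Fintype.ofFinite _
  have : Fintype {i : Iota K // i ∈ I ∧ ∃ p : ℕ, p.Prime ∧ i.1 ∈ AA (K := K) (some p)} :=
    Fintype.ofFinite _
  have g1 : ∀ i : {i : Iota K // i ∈ I ∧ i.1 ∈ AA (K := K) none},
      ∃ ψ : (Em K → ℂ × ℂ) → ℝ, RTst ψ ∧ ∀ x, i.1.1 x = ψ (vc (rep x)) := fun i => i.2.2
  have g2 : ∀ i : {i : Iota K // i ∈ I ∧ ∃ p : ℕ, p.Prime ∧ i.1 ∈ AA (K := K) (some p)},
      ∃ p : ℕ, p.Prime ∧ ∃ φ : Al K × Al K → ℝ, PTst p φ ∧ ∀ x, i.1.1 x = φ (rep x) := fun i =>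
    i.2.2
  choose ψ hψ hψ2 using g1
  choose p hp φ hφ hφ2 using g2
  obtain ⟨c, hc, hlow⟩ := near_low hodd hn ψ hψ p hp φ hφ x₀ δ hδ
  refine ⟨c, hc, ?_⟩
  filter_upwards [hlow] with B hB
  refine hB.trans (Nat.cast_le.2 (Set.ncard_le_ncard ?_ ?_))
  · rintro x ⟨h1, h2, h3⟩
    refine ⟨h1, hVU (hIt ?_)⟩
    intro i hi
    apply hdt i
    rw [Metric.mem_ball, Real.dist_eq]
    refine lt_of_lt_of_le ?_ (hδ2 i hi)
    rcases i.2 with hA | ⟨q, hq, hA⟩
    · have := h2 ⟨i, hi, hA⟩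
      rwa [← hψ2, ← hψ2] at this
    · have := h3 ⟨i, hi, q, hq, hA⟩
      rwa [← hφ2, ← hφ2] at this
  · exact (hgt_fin hodd hn B).subset fun x hx => hx.1

/-- **full support** -/
theorem supp_pos (hodd : Odd (dg K)) (hn : 5 ≤ dg K)
    {F : Pt K → ℝ} (hF : Cl (GA K) F) (hF0 : ∀ x, 0 ≤ F x) {x₀ : Pt K} (hx₀ : 0 < F x₀)
    {c : ℝ} (hc : HasLim (hgt (K := K)) (Fintype.card s - 1) F c) : 0 < c := by
  classical
  obtain ⟨g, hg, hgF⟩ := hF (F x₀ / 8) (by linarith)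
  have h1 := nb_adj x₀ g hg
  have h2 : {x | F x₀ / 2 ≤ F x} ∈ nb' x₀ := by
    have h3 := (Metric.tendsto_nhds.1 h1) (F x₀ / 8) (by linarith)
    refine mem_of_superset h3 fun x hx => ?_
    have h4 : |g x - g x₀| < F x₀ / 8 := by
      rw [← Real.dist_eq]
      exact hx
    have h5 := abs_le.1 (hgF x)
    have h6 := abs_le.1 (hgF x₀)
    have h7 := abs_lt.1 h4
    show F x₀ / 2 ≤ F x
    linarith [h5.1, h6.2, h7.1]
  obtain ⟨c', hc', hlow⟩ := nb_count hodd hn x₀ h2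
  have hH := isHt hodd hn
  have hle : F x₀ / 2 * c' ≤ c := by
    refine ge_of_tendsto hc ?_
    filter_upwards [hlow, X_pos (Fintype.card s - 1)] with B g1 g2
    rw [le_div_iff₀ g2]
    obtain ⟨F0, hF0'⟩ := hH.cover low_one B
    rw [S_eq hF0']
    have h3 : ({x : Pt K | hgt x ≤ B ∧ x ∈ {x | F x₀ / 2 ≤ F x}}.ncard : ℝ) =
        ∑ t ∈ F0, if hgt t ≤ B ∧ F x₀ / 2 ≤ F t then (1 : ℝ) else 0 := by
      rw [sum_ite, sum_const_zero, add_zero, sum_const, nsmul_eq_mul, mul_one, ← Set.ncard_coe_finset]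
      congr 2
      ext t
      rw [mem_coe, mem_filter]
      exact ⟨fun h => ⟨hF0' t (by rw [mul_one]; exact h.1), h⟩, fun h => h.2⟩
    have h4 : F x₀ / 2 * ({x : Pt K | hgt x ≤ B ∧ x ∈ {x | F x₀ / 2 ≤ F x}}.ncard : ℝ) ≤
        ∑ t ∈ F0, if hgt t * 1 ≤ B then F t else 0 := by
      rw [h3, mul_sum]
      refine sum_le_sum fun t _ => ?_
      rw [mul_one (hgt t)]
      by_cases h5 : hgt t ≤ B
      · by_cases h6 : F x₀ / 2 ≤ F t
        · rw [if_pos ⟨h5, h6⟩, if_pos h5, mul_one]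
          exact h6
        · rw [if_neg fun h => h6 h.2, if_pos h5, mul_zero]
          exact hF0 t
      · rw [if_neg fun h => h5 h.1, if_neg h5, mul_zero]
    have h7 : F x₀ / 2 * c' * X (Fintype.card s - 1) B =
        F x₀ / 2 * (c' * X (Fintype.card s - 1) B) := by ring
    rw [h7]
    exact (mul_le_mul_of_nonneg_left g1 (by linarith)).trans h4
  have : 0 < F x₀ / 2 * c' := by positivity
  linarith

open Classical in
/-- the sum as a sum over a set -/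
lemma S_finsum {T : Type*} (H w Φ : T → ℝ) (B : ℝ) :
    S H w Φ B = ∑ᶠ x ∈ {x : T | H x * Φ x ≤ B}, w x := by
  unfold S
  refine finsum_congr fun x => ?_
  exact (finsum_eq_if (p := x ∈ {x : T | H x * Φ x ≤ B}) (x := w x)).symm

end Q265.EQ
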